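import Pool.Agent.PM8dcc.Defs

/-!
Basic facts on the capture time: attainment, lower semicontinuity, measurability, shifts.
-/

open MeasureTheory Set Filter
open scoped NNReal ENNReal Topology

namespace Pool.Agent.PM8dcc

section basic

variable {T : Type} [TopologicalSpace T]

theorem captureTime_le_of_eq {m p : C(ℝ≥0, T)} {t : ℝ≥0} (h : m t = p t) :
    captureTime m p ≤ t :=
  iInf₂_le t h

theorem captureTime_lt_iff {m p : C(ℝ≥0, T)} {a : ℝ≥0∞} :
    captureTime m p < a ↔ ∃ t : ℝ≥0, m t = p t ∧ (t : ℝ≥0∞) < a := by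
  simp only [captureTime, iInf_lt_iff]
  constructor
  · rintro ⟨t, h, ht⟩
    exact ⟨t, h, ht⟩
  · rintro ⟨t, h, ht⟩
    exact ⟨t, h, ht⟩

theorem le_captureTime_iff {m p : C(ℝ≥0, T)} {a : ℝ≥0∞} :
    a ≤ captureTime m p ↔ ∀ t : ℝ≥0, m t = p t → a ≤ (t : ℝ≥0∞) := by
  simp only [captureTime, le_iInf_iff]

theorem le_captureTime_of_ne {m p : C(ℝ≥0, T)} {a : ℝ≥0} (h : ∀ t, t < a → m t ≠ p t) :
    (a : ℝ≥0∞) ≤ captureTime m p := by
  rw [le_captureTime_iff]
  intro t ht
  rw [ENNReal.coe_le_coe]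
  by_contra hc
  push Not at hc
  exact h t hc ht

theorem captureTime_comp_of_injective {T' : Type} [TopologicalSpace T'] (f : C(T, T'))
    (hf : Function.Injective f) (m p : C(ℝ≥0, T)) :
    captureTime (f.comp m) (f.comp p) = captureTime m p := by
  simp only [captureTime, ContinuousMap.comp_apply, hf.eq_iff]

end basic

section hausdorff

variable {T : Type} [TopologicalSpace T] [T2Space T]

theorem isClosed_meet (m p : C(ℝ≥0, T)) : IsClosed {t : ℝ≥0 | m t = p t} :=
  isClosed_eq m.continuous p.continuous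

/-- the capture time is attained when it is finite -/
theorem exists_captureTime_eq {m p : C(ℝ≥0, T)} (h : captureTime m p ≠ ∞) :
    ∃ t : ℝ≥0, captureTime m p = t ∧ m t = p t := by
  have h1 : captureTime m p < ∞ := lt_top_iff_ne_top.2 h
  rw [captureTime_lt_iff] at h1
  obtain ⟨t₀, ht₀, -⟩ := h1
  have hne : {t : ℝ≥0 | m t = p t}.Nonempty := ⟨t₀, ht₀⟩
  have hmem := (isClosed_meet m p).csInf_mem hne (OrderBot.bddBelow _)
  refine ⟨sInf {t : ℝ≥0 | m t = p t}, ?_, hmem⟩
  apply le_antisymm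
  · exact captureTime_le_of_eq hmem
  · rw [le_captureTime_iff]
    intro t ht
    rw [ENNReal.coe_le_coe]
    exact csInf_le (OrderBot.bddBelow _) ht

theorem captureTime_le_iff {m p : C(ℝ≥0, T)} {a : ℝ≥0} :
    captureTime m p ≤ a ↔ ∃ t : ℝ≥0, t ≤ a ∧ m t = p t := by
  constructor
  · intro h
    obtain ⟨t, ht, ht2⟩ := exists_captureTime_eq (h.trans_lt ENNReal.coe_lt_top).ne
    rw [ht, ENNReal.coe_le_coe] at h
    exact ⟨t, h, ht2⟩
  · rintro ⟨t, ht, ht2⟩
    exact (captureTime_le_of_eq ht2).trans (by exact_mod_cast ht)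

theorem lt_captureTime_iff {m p : C(ℝ≥0, T)} {a : ℝ≥0} :
    (a : ℝ≥0∞) < captureTime m p ↔ ∀ t : ℝ≥0, t ≤ a → m t ≠ p t := by
  rw [← not_le, captureTime_le_iff]
  push Not
  rfl

/-- changing the monster path after the capture does not matter -/
theorem captureTime_le_of_eqOn {m m' p : C(ℝ≥0, T)} {a : ℝ≥0}
    (h : ∀ t, t ≤ a → m' t = m t) (hc : captureTime m p ≤ a) :
    captureTime m' p ≤ captureTime m p := by
  obtain ⟨t, ht, ht2⟩ := exists_captureTime_eq (hc.trans_lt ENNReal.coe_lt_top).ne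
  rw [ht, ENNReal.coe_le_coe] at hc
  rw [ht]
  exact captureTime_le_of_eq ((h t hc).trans ht2)

end hausdorff

section shift

variable {T : Type} [TopologicalSpace T]

/-- the path `p (a + ·)` -/
noncomputable def shift (a : ℝ≥0) (p : C(ℝ≥0, T)) : C(ℝ≥0, T) :=
  p.comp ⟨fun t => a + t, by fun_prop⟩

@[simp] theorem shift_apply (a : ℝ≥0) (p : C(ℝ≥0, T)) (t : ℝ≥0) : shift a p t = p (a + t) := rfl

theorem continuous_shift (a : ℝ≥0) : Continuous (shift a : C(ℝ≥0, T) → C(ℝ≥0, T)) :=
  ContinuousMap.continuous_precomp _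

theorem captureTime_le_shift (a : ℝ≥0) (m p : C(ℝ≥0, T)) :
    captureTime m p ≤ a + captureTime (shift a m) (shift a p) := by
  rw [captureTime, captureTime, ENNReal.add_iInf]
  refine le_iInf fun t => ?_
  rw [ENNReal.add_iInf]
  refine le_iInf fun ht => ?_
  have : m (a + t) = p (a + t) := ht
  calc _ ≤ ((a + t : ℝ≥0) : ℝ≥0∞) := captureTime_le_of_eq this
    _ = _ := by push_cast; rfl

/-- if there is no capture before time `a`, then the capture time is at least `a` plus the capture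
time of the shifted paths -/
theorem shift_le_captureTime (a : ℝ≥0) (m p : C(ℝ≥0, T)) (h : ∀ t, t < a → m t ≠ p t) :
    a + captureTime (shift a m) (shift a p) ≤ captureTime m p := by
  rw [le_captureTime_iff]
  intro t ht
  have hat : a ≤ t := by
    by_contra hc
    push Not at hc
    exact h t hc ht
  obtain ⟨s, rfl⟩ := le_iff_exists_add.1 hat
  have : captureTime (shift a m) (shift a p) ≤ s := captureTime_le_of_eq (by simpa using ht)
  calc (a : ℝ≥0∞) + captureTime (shift a m) (shift a p) ≤ a + s := by gcongr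
    _ = _ := by push_cast; rfl

end shift

section semicontinuity

variable {T : Type} [MetricSpace T]

theorem isClosed_captureTime_le (a : ℝ≥0) :
    IsClosed {x : C(ℝ≥0, T) × C(ℝ≥0, T) | captureTime x.1 x.2 ≤ a} := by
  have h1 : {x : C(ℝ≥0, T) × C(ℝ≥0, T) | captureTime x.1 x.2 ≤ a} =
      Prod.fst '' ({z : (C(ℝ≥0, T) × C(ℝ≥0, T)) × Icc (0 : ℝ≥0) a |
        z.1.1 (z.2 : ℝ≥0) = z.1.2 (z.2 : ℝ≥0)}) := by
    ext x
    simp only [mem_ofPred_eq, mem_image, captureTime_le_iff]
    constructor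
    · rintro ⟨t, ht, h⟩
      exact ⟨(x, ⟨t, zero_le, ht⟩), h, rfl⟩
    · rintro ⟨⟨y, t⟩, h, rfl⟩
      exact ⟨t, t.2.2, h⟩
  rw [h1]
  have : CompactSpace (Icc (0 : ℝ≥0) a) := isCompact_iff_compactSpace.1 isCompact_Icc
  refine isClosedMap_fst_of_compactSpace _ ?_
  refine isClosed_eq ?_ ?_
  · fun_prop
  · fun_prop

theorem lowerSemicontinuous_captureTime :
    LowerSemicontinuous (fun x : C(ℝ≥0, T) × C(ℝ≥0, T) => captureTime x.1 x.2) := by
  rw [lowerSemicontinuous_iff_isClosed_preimage]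
  intro y
  by_cases hy : y = ∞
  · subst hy
    simp [Iic_top]
  · lift y to ℝ≥0 using hy
    exact isClosed_captureTime_le y

theorem lowerSemicontinuous_captureTime_right (m : C(ℝ≥0, T)) :
    LowerSemicontinuous (fun p : C(ℝ≥0, T) => captureTime m p) :=
  lowerSemicontinuous_captureTime.comp (by fun_prop : Continuous fun p => (m, p))

theorem lowerSemicontinuous_captureTime_left (p : C(ℝ≥0, T)) :
    LowerSemicontinuous (fun m : C(ℝ≥0, T) => captureTime m p) :=
  lowerSemicontinuous_captureTime.comp (by fun_prop : Continuous fun m => (m, p))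

theorem measurable_captureTime (m : C(ℝ≥0, T)) : Measurable (captureTime m) :=
  (lowerSemicontinuous_captureTime_right m).measurable

theorem measurable_shift (a : ℝ≥0) : Measurable (shift a : C(ℝ≥0, T) → C(ℝ≥0, T)) :=
  (continuous_shift a).measurable

end semicontinuity

end Pool.Agent.PM8dcc
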