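import Mathlib

/-!
Princess and monster on a star: the definitions used in the statement.
-/

open MeasureTheory Set
open scoped NNReal ENNReal

namespace Pool.Agent.PM8dcc

/-- The path space `C(ℝ≥0, T)` carries the compact-open topology, that is the topology of uniform
convergence on compact time intervals, and its Borel sigma-algebra. -/
instance pathMeasurableSpace (T : Type) [TopologicalSpace T] : MeasurableSpace C(ℝ≥0, T) :=
  borel _

instance pathBorelSpace (T : Type) [TopologicalSpace T] : BorelSpace C(ℝ≥0, T) := ⟨rfl⟩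

/-- The capture time `inf {t ≥ 0 : m t = p t}` (`∞` if the two paths never meet). -/
noncomputable def captureTime {T : Type} [TopologicalSpace T] (m p : C(ℝ≥0, T)) : ℝ≥0∞ :=
  ⨅ (t : ℝ≥0) (_ : m t = p t), (t : ℝ≥0∞)

/-- A pure monster strategy: a path with `d(m s, m t) ≤ |s - t|`. -/
def IsMonsterPath {T : Type} [MetricSpace T] (m : C(ℝ≥0, T)) : Prop :=
  ∀ s t : ℝ≥0, dist (m s) (m t) ≤ |(s : ℝ) - (t : ℝ)|

/-- What the mixed princess strategy `π` guarantees: the infimum over the pure monster
strategies `m` of the expected capture time. -/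
noncomputable def guarantee {T : Type} [MetricSpace T] (π : Measure C(ℝ≥0, T)) : ℝ≥0∞ :=
  ⨅ (m : C(ℝ≥0, T)) (_ : IsMonsterPath m), ∫⁻ p, captureTime m p ∂π

/-- `π` is an optimal mixed princess strategy: a Borel probability measure on the path space
whose guarantee is the supremum of all guarantees. -/
def IsOptimal {T : Type} [MetricSpace T] (π : Measure C(ℝ≥0, T)) : Prop :=
  IsProbabilityMeasure π ∧
    guarantee π = ⨆ (π' : Measure C(ℝ≥0, T)) (_ : IsProbabilityMeasure π'), guarantee π'

/-- `S` is a confluent set of paths: two paths of `S` that meet coincide from then on. -/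
def ConfluentSet {T : Type} [TopologicalSpace T] (S : Set C(ℝ≥0, T)) : Prop :=
  ∀ p₁ ∈ S, ∀ p₂ ∈ S, ∀ t₀ : ℝ≥0, p₁ t₀ = p₂ t₀ → ∀ t : ℝ≥0, t₀ ≤ t → p₁ t = p₂ t

/-- `π` is confluent: it is concentrated on a confluent set of paths. -/
def IsConfluent {T : Type} [TopologicalSpace T] (π : Measure C(ℝ≥0, T)) : Prop :=
  ∃ S : Set C(ℝ≥0, T), (∀ᵐ p ∂π, p ∈ S) ∧ ConfluentSet S

/-- A point of the star with `n` legs of length one. The star is realised in `ℝ^n` as the set of
the points `r e_i` with `0 ≤ r ≤ 1`: all coordinates lie in `[0,1]` and at most one of them is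
non-zero. The point `r e_i` is the point of leg `i` at distance `r` from the centre `0`. -/
@[ext] structure StarTree (n : ℕ) where
  /-- the coordinates -/
  c : Fin n → ℝ
  nonneg : ∀ i, 0 ≤ c i
  le_one : ∀ i, c i ≤ 1
  single : ∀ i j, i ≠ j → c i = 0 ∨ c j = 0

/-- The geodesic metric of the star: the distance of `r e_i` and `s e_j` is `|r - s|` if `i = j`
and `r + s` if `i ≠ j`, which is the `ℓ¹`-distance. -/
noncomputable instance starMetric (n : ℕ) : MetricSpace (StarTree n) where
  dist x y := ∑ i, |x.c i - y.c i|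
  dist_self x := by simp
  dist_comm x y := by simp [abs_sub_comm]
  dist_triangle x y z := by
    rw [← Finset.sum_add_distrib]
    exact Finset.sum_le_sum fun i _ => abs_sub_le _ _ _
  eq_of_dist_eq_zero := by
    intro x y h
    have h2 := (Finset.sum_eq_zero_iff_of_nonneg (fun i _ => abs_nonneg (x.c i - y.c i))).1 h
    ext i
    have := h2 i (Finset.mem_univ i)
    rw [abs_eq_zero] at this
    linarith

end Pool.Agent.PM8dcc
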