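import Pool.Agent.PM8dcc.Glue

/-!
Exploration of the star by the monster, starting at the centre.
-/

open MeasureTheory Set Filter
open scoped NNReal ENNReal Topology

namespace Pool.Agent.PM8dcc

open Pool.Agent.PM8dcc.StarTree

variable {n : ℕ}

/-- the number of the round to which time `t` belongs; a round lasts two time units -/
noncomputable def rnd (t : ℝ≥0) : ℕ := ⌊t / 2⌋₊

theorem rnd_le (t : ℝ≥0) : 2 * (rnd t : ℝ) ≤ t := by
  have h : ((rnd t : ℕ) : ℝ≥0) ≤ t / 2 := Nat.floor_le zero_le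
  have h2 : ((rnd t : ℕ) : ℝ) ≤ (t : ℝ) / 2 := by exact_mod_cast h
  linarith

theorem lt_rnd (t : ℝ≥0) : (t : ℝ) < 2 * (rnd t : ℝ) + 2 := by
  have h : t / 2 < ((rnd t : ℕ) : ℝ≥0) + 1 := Nat.lt_floor_add_one _
  have h2 : (t : ℝ) / 2 < ((rnd t : ℕ) : ℝ) + 1 := by exact_mod_cast h
  linarith

theorem rnd_eq {t : ℝ≥0} {k : ℕ} (h1 : 2 * (k : ℝ) ≤ t) (h2 : (t : ℝ) < 2 * (k : ℝ) + 2) :
    rnd t = k := by
  have h3 := rnd_le t
  have h4 := lt_rnd t
  have h5 : (rnd t : ℝ) < k + 1 := by linarith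
  have h6 : (k : ℝ) < rnd t + 1 := by linarith
  have h7 : rnd t < k + 1 := by exact_mod_cast h5
  have h8 : k < rnd t + 1 := by exact_mod_cast h6
  omega

/-- the position at time `t` of the explorer who visits leg `c k` in round `k` -/
noncomputable def exploreFun (c : ℕ → Fin n) (t : ℝ≥0) : StarTree n :=
  pt (c (rnd t)) (1 - |(t : ℝ) - (2 * (rnd t : ℝ) + 1)|)

theorem exploreFun_mem (t : ℝ≥0) :
    0 ≤ 1 - |(t : ℝ) - (2 * (rnd t : ℝ) + 1)| ∧ 1 - |(t : ℝ) - (2 * (rnd t : ℝ) + 1)| ≤ 1 := by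
  have h3 := rnd_le t
  have h4 := lt_rnd t
  constructor
  · have : |(t : ℝ) - (2 * (rnd t : ℝ) + 1)| ≤ 1 := by
      rw [abs_le]
      constructor <;> linarith
    linarith
  · have := abs_nonneg ((t : ℝ) - (2 * (rnd t : ℝ) + 1))
    linarith

theorem dep_exploreFun (c : ℕ → Fin n) (t : ℝ≥0) :
    dep (exploreFun c t) = 1 - |(t : ℝ) - (2 * (rnd t : ℝ) + 1)| :=
  dep_pt_of_mem _ (exploreFun_mem t).1 (exploreFun_mem t).2

theorem dist_exploreFun (c : ℕ → Fin n) {s t : ℝ≥0} (h : s ≤ t) :
    dist (exploreFun c s) (exploreFun c t) ≤ (t : ℝ) - s := by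
  have hst : (s : ℝ) ≤ t := by exact_mod_cast h
  by_cases hk : rnd s = rnd t
  · have h1 : 0 ≤ sg (c (rnd t)) (exploreFun c s) := by
      rw [exploreFun, hk]
      exact sg_pt_nonneg _ _
    have h2 : 0 ≤ sg (c (rnd t)) (exploreFun c t) := sg_pt_nonneg _ _
    rw [dist_eq_of_sg_nonneg h1 h2, ← dep_eq_sg h1, ← dep_eq_sg h2, dep_exploreFun,
      dep_exploreFun, hk]
    have h3 : 1 - |(s : ℝ) - (2 * (rnd t : ℝ) + 1)| - (1 - |(t : ℝ) - (2 * (rnd t : ℝ) + 1)|) =
      |(t : ℝ) - (2 * (rnd t : ℝ) + 1)| - |(s : ℝ) - (2 * (rnd t : ℝ) + 1)| := by ring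
    rw [h3]
    refine (abs_abs_sub_abs_le_abs_sub _ _).trans ?_
    rw [abs_of_nonneg (by linarith)]
    linarith
  · have h3 := rnd_le s
    have h4 := lt_rnd s
    have h5 := rnd_le t
    have h6 := lt_rnd t
    have h7 : (rnd s : ℝ) < rnd t + 1 := by linarith
    have h8 : rnd s < rnd t + 1 := by exact_mod_cast h7
    have h9 : rnd s + 1 ≤ rnd t := by omega
    have h10 : (rnd s : ℝ) + 1 ≤ rnd t := by exact_mod_cast h9
    refine (dist_le_dep_add _ _).trans ?_
    rw [dep_exploreFun, dep_exploreFun]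
    have h11 := neg_abs_le ((s : ℝ) - (2 * (rnd s : ℝ) + 1))
    have h12 := le_abs_self ((s : ℝ) - (2 * (rnd s : ℝ) + 1))
    have h13 := neg_abs_le ((t : ℝ) - (2 * (rnd t : ℝ) + 1))
    linarith

/-- the explorer who visits leg `c k` in round `k` -/
noncomputable def explore (c : ℕ → Fin n) : C(ℝ≥0, StarTree n) where
  toFun := exploreFun c
  continuous_toFun := by
    have h : LipschitzWith 1 (exploreFun c) := by
      refine LipschitzWith.of_dist_le_mul fun s t => ?_
      rw [NNReal.coe_one, one_mul, NNReal.dist_eq]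
      rcases le_total s t with h | h
      · have := dist_exploreFun c h
        have hst : (s : ℝ) ≤ t := by exact_mod_cast h
        rw [abs_of_nonpos (by linarith)]
        linarith
      · have := dist_exploreFun c h
        have hst : (t : ℝ) ≤ s := by exact_mod_cast h
        rw [abs_of_nonneg (by linarith), dist_comm]
        exact this
    exact h.continuous

theorem explore_apply (c : ℕ → Fin n) (t : ℝ≥0) : explore c t = exploreFun c t := rfl

theorem isMonsterPath_explore (c : ℕ → Fin n) : IsMonsterPath (explore c) := by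
  refine isMonsterPath_of_le_of_ge 0 ?_ ?_
  · intro s t hst _
    exact dist_exploreFun c hst
  · intro s t _ hst
    exact dist_exploreFun c hst

theorem explore_eq (c : ℕ → Fin n) {t : ℝ≥0} {k : ℕ} (h1 : 2 * (k : ℝ) ≤ t)
    (h2 : (t : ℝ) < 2 * (k : ℝ) + 2) :
    explore c t = pt (c k) (1 - |(t : ℝ) - (2 * (k : ℝ) + 1)|) := by
  rw [explore_apply, exploreFun, rnd_eq h1 h2]

theorem explore_even (c : ℕ → Fin n) (k : ℕ) : explore c (2 * k : ℝ≥0) = o := by
  rw [explore_eq c (k := k) (by push_cast; rfl) (by push_cast; linarith)]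
  push_cast
  have : (1 : ℝ) - |2 * (k : ℝ) - (2 * (k : ℝ) + 1)| = 0 := by
    rw [show 2 * (k : ℝ) - (2 * (k : ℝ) + 1) = -1 by ring]
    simp
  rw [this, pt_zero]

theorem explore_zero (c : ℕ → Fin n) : explore c 0 = o := by
  have := explore_even c 0
  simpa using this

/-- entering leg `i` completely catches everybody who is in leg `i` at the start of the round -/
theorem explore_catch (c : ℕ → Fin n) (k : ℕ) (p : C(ℝ≥0, StarTree n))
    (h : 0 ≤ sg (c k) (p (2 * k : ℝ≥0))) :
    ∃ t : ℝ≥0, t ≤ 2 * k + 1 ∧ explore c t = p t := by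
  have hle : (2 * k : ℝ≥0) ≤ 2 * k + 1 := le_self_add
  obtain ⟨t, -, ht, he⟩ := crossing (c k) (explore c) p (2 * k : ℝ≥0) (2 * k + 1) hle
    (by rw [explore_even, sg_o]; exact h)
    (by
      rw [explore_eq c (k := k) (by push_cast; linarith) (by push_cast; linarith)]
      rw [sg_pt_of_mem]
      · push_cast
        simp [sg_le_one]
      · push_cast
        simp
      · push_cast
        simp)
    (by
      intro t h1 h2
      right
      have h1' : 2 * (k : ℝ) ≤ t := by exact_mod_cast h1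
      have h2' : (t : ℝ) ≤ 2 * (k : ℝ) + 1 := by exact_mod_cast h2
      rw [explore_eq c h1' (by linarith)]
      exact sg_pt_nonneg _ _)
  exact ⟨t, ht, he⟩

theorem captureTime_explore_le (c : ℕ → Fin n) (k : ℕ) (p : C(ℝ≥0, StarTree n))
    (h : 0 ≤ sg (c k) (p (2 * k : ℝ≥0))) :
    captureTime (explore c) p ≤ 2 * k + 1 := by
  obtain ⟨t, ht, he⟩ := explore_catch c k p h
  refine (captureTime_le_of_eq he).trans ?_
  exact_mod_cast ht

/-- the set of the princess paths that are in leg `i` at time `2k` -/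
def legSet (k : ℕ) (i : Fin n) : Set C(ℝ≥0, StarTree n) := {p | 0 ≤ sg i (p (2 * k : ℝ≥0))}

theorem measurableSet_legSet (k : ℕ) (i : Fin n) : MeasurableSet (legSet k i) := by
  have : IsClosed (legSet k i) :=
    isClosed_le continuous_const ((continuous_sg i).comp (by fun_prop))
  exact this.measurableSet

theorem exists_pick [NeZero n] (μ : Measure C(ℝ≥0, StarTree n)) (k : ℕ) (U : Set C(ℝ≥0, StarTree n)) :
    ∃ i : Fin n, μ U ≤ n * μ (U ∩ legSet k i) := by
  obtain ⟨i, hi⟩ := Finite.exists_max (fun i : Fin n => μ (U ∩ legSet k i))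
  refine ⟨i, ?_⟩
  have h1 : U ⊆ ⋃ i : Fin n, (U ∩ legSet k i) := by
    intro p hp
    obtain ⟨j, hj⟩ := exists_sg_nonneg (p (2 * k : ℝ≥0))
    exact mem_iUnion.2 ⟨j, hp, hj⟩
  calc μ U ≤ μ (⋃ i : Fin n, (U ∩ legSet k i)) := measure_mono h1
    _ ≤ ∑' i : Fin n, μ (U ∩ legSet k i) := measure_iUnion_le _
    _ = ∑ i : Fin n, μ (U ∩ legSet k i) := tsum_fintype _
    _ ≤ ∑ _j : Fin n, μ (U ∩ legSet k i) := Finset.sum_le_sum fun j _ => hi j
    _ = n * μ (U ∩ legSet k i) := by simp

/-- Greedy exploration: for each finite measure on the princess paths there is an exploration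
that starts at the centre and has mean capture time at most `2n`. -/
theorem exists_explore [NeZero n] (μ : Measure C(ℝ≥0, StarTree n)) [IsFiniteMeasure μ] :
    ∃ c : ℕ → Fin n, ∫⁻ p, captureTime (explore c) p ∂μ ≤ 2 * n * μ univ := by
  classical
  choose pick hpick using fun (k : ℕ) (U : Set C(ℝ≥0, StarTree n)) => exists_pick μ k U
  let U : ℕ → Set C(ℝ≥0, StarTree n) := fun k => Nat.rec univ (fun k V => V \ legSet k (pick k V)) k
  let c : ℕ → Fin n := fun k => pick k (U k)
  have hU0 : U 0 = univ := rfl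
  have hUs : ∀ k, U (k + 1) = U k \ legSet k (c k) := fun k => rfl
  have hUm : ∀ k, MeasurableSet (U k) := by
    intro k
    induction k with
    | zero => exact MeasurableSet.univ
    | succ k ih =>
      rw [hUs]
      exact ih.diff (measurableSet_legSet k (c k))
  have hstep : ∀ k, μ (U k) + n * μ (U (k + 1)) ≤ n * μ (U k) := by
    intro k
    have h1 := hpick k (U k)
    have h2 : μ (U k ∩ legSet k (c k)) + μ (U k \ legSet k (c k)) = μ (U k) :=
      measure_inter_add_sdiff _ (measurableSet_legSet k (c k))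
    rw [hUs]
    calc μ (U k) + n * μ (U k \ legSet k (c k))
        ≤ n * μ (U k ∩ legSet k (c k)) + n * μ (U k \ legSet k (c k)) := by gcongr
      _ = n * (μ (U k ∩ legSet k (c k)) + μ (U k \ legSet k (c k))) := by rw [mul_add]
      _ = n * μ (U k) := by rw [h2]
  have hsum : ∀ K, ∑ k ∈ Finset.range K, μ (U k) + n * μ (U K) ≤ n * μ univ := by
    intro K
    induction K with
    | zero => simp [hU0]
    | succ K ih =>
      rw [Finset.sum_range_succ, add_assoc]
      exact (add_le_add_right (hstep K) _).trans ih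
  refine ⟨c, ?_⟩
  have hpt : ∀ p, captureTime (explore c) p ≤ ∑' k, (U k).indicator (fun _ => (2 : ℝ≥0∞)) p := by
    intro p
    rcases Classical.em (∀ k, p ∈ U k) with h | h
    · have : ∑' k, (U k).indicator (fun _ => (2 : ℝ≥0∞)) p = ∞ := by
        have h2 : (fun k => (U k).indicator (fun _ => (2 : ℝ≥0∞)) p) = fun _ => (2 : ℝ≥0∞) := by
          ext k
          rw [indicator_of_mem (h k)]
        rw [h2]
        exact ENNReal.tsum_const_eq_top_of_ne_zero two_ne_zero
      rw [this]
      exact le_top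
    · push Not at h
      obtain ⟨K', hK, hmin⟩ : ∃ K, p ∉ U K ∧ ∀ m < K, p ∈ U m := by
        classical
        exact ⟨Nat.find h, Nat.find_spec h, fun m hm => not_not.1 (Nat.find_min h hm)⟩
      obtain ⟨K, rfl⟩ : ∃ K, K' = K + 1 := by
        refine Nat.exists_eq_succ_of_ne_zero ?_
        rintro rfl
        exact hK (mem_univ p)
      have hpK : p ∈ U K := hmin K (Nat.lt_succ_self K)
      have hpl : p ∈ legSet K (c K) := by
        by_contra hc
        exact hK (by rw [hUs]; exact ⟨hpK, hc⟩)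
      refine (captureTime_explore_le c K p hpl).trans ?_
      calc (2 * K + 1 : ℝ≥0∞) ≤ ∑ k ∈ Finset.range (K + 1), (2 : ℝ≥0∞) := by
            rw [Finset.sum_const, Finset.card_range, nsmul_eq_mul]
            push_cast
            rw [add_mul, one_mul, mul_comm]
            gcongr
            exact one_le_two
        _ = ∑ k ∈ Finset.range (K + 1), (U k).indicator (fun _ => (2 : ℝ≥0∞)) p := by
            refine Finset.sum_congr rfl fun k hk => ?_
            rw [indicator_of_mem (hmin k (Finset.mem_range.1 hk))]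
        _ ≤ _ := ENNReal.sum_le_tsum _
  calc ∫⁻ p, captureTime (explore c) p ∂μ
      ≤ ∫⁻ p, ∑' k, (U k).indicator (fun _ => (2 : ℝ≥0∞)) p ∂μ := lintegral_mono hpt
    _ = ∑' k, ∫⁻ p, (U k).indicator (fun _ => (2 : ℝ≥0∞)) p ∂μ :=
        lintegral_tsum fun k => (measurable_const.indicator (hUm k)).aemeasurable
    _ = ∑' k, 2 * μ (U k) := by
        refine tsum_congr fun k => ?_
        rw [lintegral_indicator (hUm k)]
        simp
    _ = 2 * ∑' k, μ (U k) := ENNReal.tsum_mul_left
    _ ≤ 2 * (n * μ univ) := by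
        gcongr
        refine ENNReal.tsum_le_of_sum_range_le fun K => ?_
        exact le_self_add.trans (hsum K)
    _ = 2 * n * μ univ := by rw [mul_assoc]

end Pool.Agent.PM8dcc
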