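import Pool.Agent.PM8dcc.StarTree
import Pool.Agent.PM8dcc.Capture

/-!
Concatenation of paths, for the princess (`glue`) and for the monster (`mglue`).
-/

open MeasureTheory Set Filter
open scoped NNReal ENNReal Topology

namespace Pool.Agent.PM8dcc

open Pool.Agent.PM8dcc.StarTree

variable {n : ℕ}

/-- Follow `p` until time `a`, go from `p a` to `q 0` along the geodesic between the times `a` and
`a + e`, then follow `q`. -/
noncomputable def glue (a e : ℝ≥0) (p q : C(ℝ≥0, StarTree n)) : C(ℝ≥0, StarTree n) where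
  toFun := fun t => bridge (((t : ℝ) - a) / e) (p (min t a)) (q (t - (a + e)))
  continuous_toFun := by
    refine continuous_bridge.comp (Continuous.prodMk ?_ (Continuous.prodMk ?_ ?_))
    · fun_prop
    · fun_prop
    · exact q.continuous.comp (by fun_prop)

theorem glue_apply (a e : ℝ≥0) (p q : C(ℝ≥0, StarTree n)) (t : ℝ≥0) :
    glue a e p q t = bridge (((t : ℝ) - a) / e) (p (min t a)) (q (t - (a + e))) := rfl

theorem continuous_glue (a e : ℝ≥0) :
    Continuous fun x : C(ℝ≥0, StarTree n) × C(ℝ≥0, StarTree n) => glue a e x.1 x.2 := by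
  refine ContinuousMap.continuous_of_continuous_uncurry _ ?_
  have : (Function.uncurry fun (x : C(ℝ≥0, StarTree n) × C(ℝ≥0, StarTree n)) (t : ℝ≥0) =>
      glue a e x.1 x.2 t) = fun z : (C(ℝ≥0, StarTree n) × C(ℝ≥0, StarTree n)) × ℝ≥0 =>
      bridge (((z.2 : ℝ) - a) / e) (z.1.1 (min z.2 a)) (z.1.2 (z.2 - (a + e))) := rfl
  change Continuous (fun z : (C(ℝ≥0, StarTree n) × C(ℝ≥0, StarTree n)) × ℝ≥0 =>
      bridge (((z.2 : ℝ) - a) / e) (z.1.1 (min z.2 a)) (z.1.2 (z.2 - (a + e))))
  refine continuous_bridge.comp (Continuous.prodMk ?_ (Continuous.prodMk ?_ ?_))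
  · fun_prop
  · fun_prop
  · fun_prop

theorem glue_of_le {a e : ℝ≥0} (p q : C(ℝ≥0, StarTree n)) {t : ℝ≥0} (h : t ≤ a) :
    glue a e p q t = p t := by
  rw [glue_apply, min_eq_left h, bridge_of_le_zero]
  have : (t : ℝ) ≤ a := by exact_mod_cast h
  exact div_nonpos_of_nonpos_of_nonneg (by linarith) e.coe_nonneg

theorem glue_of_ge {a e : ℝ≥0} (he : 0 < e) (p q : C(ℝ≥0, StarTree n)) (t : ℝ≥0) :
    glue a e p q (a + e + t) = q t := by
  rw [glue_apply, bridge_of_one_le, add_tsub_cancel_left]
  have he' : (0 : ℝ) < e := by exact_mod_cast he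
  rw [le_div_iff₀ he']
  push_cast
  have := t.coe_nonneg
  linarith

theorem shift_glue {a e : ℝ≥0} (he : 0 < e) (p q : C(ℝ≥0, StarTree n)) :
    shift (a + e) (glue a e p q) = q := by
  ext1 t
  exact glue_of_ge he p q t

theorem min_le_sg_glue {a e : ℝ≥0} (p q : C(ℝ≥0, StarTree n)) {i : Fin n}
    (hp : 0 ≤ sg i (p a)) (hq : 0 ≤ sg i (q 0)) {t : ℝ≥0} (h1 : a ≤ t) (h2 : t ≤ a + e) :
    min (sg i (p a)) (sg i (q 0)) ≤ sg i (glue a e p q t) := by
  rw [glue_apply, min_eq_right h1, tsub_eq_zero_of_le h2]
  exact min_le_sg_bridge hp hq _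

/-! ### The monster -/

/-- go from `x` to the centre between the times `0` and `1`, and from the centre to `y` between
the times `1` and `2` -/
noncomputable def mbridge (u : ℝ) (x y : StarTree n) : StarTree n where
  c := fun k => max 0 (max (x.c k - max 0 u) (y.c k - max 0 (2 - u)))
  nonneg := fun k => le_max_left _ _
  le_one := fun k => by
    have h3 := x.le_one k
    have h4 := y.le_one k
    have h5 : 0 ≤ max 0 u := le_max_left _ _
    have h6 : 0 ≤ max 0 (2 - u) := le_max_left _ _
    exact max_le zero_le_one (max_le (by linarith) (by linarith))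
  single := fun k l h => by
    have hu1 : u ≤ max 0 u := le_max_right _ _
    have hu2 : 2 - u ≤ max 0 (2 - u) := le_max_right _ _
    have h5 : 0 ≤ max 0 u := le_max_left _ _
    have h6 : 0 ≤ max 0 (2 - u) := le_max_left _ _
    by_contra hcon
    push Not at hcon
    obtain ⟨hk, hl⟩ := hcon
    have hk' : 0 < max (x.c k - max 0 u) (y.c k - max 0 (2 - u)) := by
      by_contra hc
      push Not at hc
      exact hk (max_eq_left hc)
    have hl' : 0 < max (x.c l - max 0 u) (y.c l - max 0 (2 - u)) := by
      by_contra hc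
      push Not at hc
      exact hl (max_eq_left hc)
    rw [lt_max_iff] at hk' hl'
    have h1 := x.le_one k
    have h2 := x.le_one l
    have h3 := y.le_one k
    have h4 := y.le_one l
    rcases hk' with hk' | hk' <;> rcases hl' with hl' | hl'
    · rcases x.single k l h with h7 | h7 <;> linarith
    · linarith
    · linarith
    · rcases y.single k l h with h7 | h7 <;> linarith

theorem continuous_mbridge :
    Continuous fun z : ℝ × StarTree n × StarTree n => mbridge z.1 z.2.1 z.2.2 := by
  rw [continuous_iff_c]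
  intro k
  simp only [mbridge]
  have hx : Continuous fun z : ℝ × StarTree n × StarTree n => z.2.1 := continuous_snd.fst
  have hy : Continuous fun z : ℝ × StarTree n × StarTree n => z.2.2 := continuous_snd.snd
  exact continuous_const.max ((((continuous_c k).comp hx).sub
    (continuous_const.max continuous_fst)).max
    (((continuous_c k).comp hy).sub (continuous_const.max (continuous_const.sub continuous_fst))))

theorem mbridge_of_le_zero {u : ℝ} (hu : u ≤ 0) (x y : StarTree n) : mbridge u x y = x := by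
  ext k
  simp only [mbridge]
  have h1 := x.nonneg k
  have h2 := y.le_one k
  have h3 : max 0 u = 0 := max_eq_left hu
  have h4 : max 0 (2 - u) = 2 - u := max_eq_right (by linarith)
  rw [h3, h4, sub_zero, max_eq_left (by linarith : y.c k - (2 - u) ≤ x.c k), max_eq_right h1]

theorem mbridge_of_two_le {u : ℝ} (hu : 2 ≤ u) (x y : StarTree n) : mbridge u x y = y := by
  ext k
  simp only [mbridge]
  have h1 := y.nonneg k
  have h2 := x.le_one k
  have h3 : max 0 (2 - u) = 0 := max_eq_left (by linarith)
  have h4 : max 0 u = u := max_eq_right (by linarith)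
  rw [h3, h4, sub_zero, max_eq_right (by linarith : x.c k - u ≤ y.c k), max_eq_right h1]

theorem mbridge_o (u : ℝ) : mbridge u (o : StarTree n) o = o := by
  ext k
  simp only [mbridge, o]
  have h5 : 0 ≤ max 0 u := le_max_left _ _
  have h6 : 0 ≤ max 0 (2 - u) := le_max_left _ _
  exact max_eq_left (max_le (by linarith) (by linarith))

theorem abs_max_zero_sub_le (a b : ℝ) : |max 0 a - max 0 b| ≤ |a - b| := by
  rw [max_comm 0 a, max_comm 0 b]
  exact abs_max_sub_max_le_abs a b 0

/-- moving towards the centre has speed at most one -/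
theorem sum_down_le (x : StarTree n) (r s : ℝ) :
    ∑ k, |max 0 (x.c k - max 0 r) - max 0 (x.c k - max 0 s)| ≤ |r - s| := by
  by_cases h : ∃ i, 0 < x.c i
  · obtain ⟨i, hi⟩ := h
    rw [Finset.sum_eq_single i]
    · refine (abs_max_zero_sub_le _ _).trans ?_
      have h1 : x.c i - max 0 r - (x.c i - max 0 s) = -(max 0 r - max 0 s) := by ring
      rw [h1, abs_neg]
      exact abs_max_zero_sub_le _ _
    · intro k _ hk
      rw [eq_zero_of_ne hi hk]
      have h5 : 0 ≤ max 0 r := le_max_left _ _
      have h6 : 0 ≤ max 0 s := le_max_left _ _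
      rw [max_eq_left (by linarith), max_eq_left (by linarith)]
      simp
    · intro h
      exact absurd (Finset.mem_univ i) h
  · push Not at h
    rw [Finset.sum_eq_zero]
    · exact abs_nonneg _
    · intro k _
      have h0 : x.c k = 0 := le_antisymm (h k) (x.nonneg k)
      have h5 : 0 ≤ max 0 r := le_max_left _ _
      have h6 : 0 ≤ max 0 s := le_max_left _ _
      rw [h0, max_eq_left (by linarith), max_eq_left (by linarith)]
      simp

theorem mbridge_c_of_le_one {u : ℝ} (hu : u ≤ 1) (x y : StarTree n) (k : Fin n) :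
    (mbridge u x y).c k = max 0 (x.c k - max 0 u) := by
  simp only [mbridge]
  have h1 := y.le_one k
  have h2 : max 0 (2 - u) = 2 - u := max_eq_right (by linarith)
  rw [h2]
  rcases le_total (y.c k - (2 - u)) (x.c k - max 0 u) with h | h
  · rw [max_eq_left h]
  · rw [max_eq_right h, max_eq_left (by linarith), max_eq_left (by linarith)]

theorem mbridge_c_of_one_le {u : ℝ} (hu : 1 ≤ u) (x y : StarTree n) (k : Fin n) :
    (mbridge u x y).c k = max 0 (y.c k - max 0 (2 - u)) := by
  simp only [mbridge]
  have h1 := x.le_one k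
  have h2 : max 0 u = u := max_eq_right (by linarith)
  rw [h2]
  rcases le_total (x.c k - u) (y.c k - max 0 (2 - u)) with h | h
  · rw [max_eq_right h]
  · rw [max_eq_left h, max_eq_left (by linarith), max_eq_left (by linarith)]

/-- the bridge of the monster has speed at most one -/
theorem dist_mbridge_le (x y : StarTree n) {u v : ℝ} (huv : u ≤ v) :
    dist (mbridge u x y) (mbridge v x y) ≤ v - u := by
  have low : ∀ {u v : ℝ}, u ≤ v → v ≤ 1 → dist (mbridge u x y) (mbridge v x y) ≤ v - u := by
    intro u v h1 h2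
    rw [dist_def]
    simp only [mbridge_c_of_le_one h2, mbridge_c_of_le_one (h1.trans h2)]
    refine (sum_down_le x u v).trans ?_
    rw [abs_of_nonpos (by linarith)]
    linarith
  have high : ∀ {u v : ℝ}, u ≤ v → 1 ≤ u → dist (mbridge u x y) (mbridge v x y) ≤ v - u := by
    intro u v h1 h2
    rw [dist_def]
    simp only [mbridge_c_of_one_le h2, mbridge_c_of_one_le (h2.trans h1)]
    refine (sum_down_le y (2 - u) (2 - v)).trans ?_
    rw [abs_of_nonneg (by linarith)]
    linarith
  rcases le_total v 1 with h | h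
  · exact low huv h
  · rcases le_total 1 u with h' | h'
    · exact high huv h'
    · have h1 := low h' le_rfl
      have h2 := high h le_rfl
      have := dist_triangle (mbridge u x y) (mbridge 1 x y) (mbridge v x y)
      linarith

/-- a path that has speed at most one on `[0,a]` and on `[a,∞)` is a monster path -/
theorem isMonsterPath_of_le_of_ge {T : Type} [MetricSpace T] {m : C(ℝ≥0, T)} (a : ℝ≥0)
    (h1 : ∀ s t : ℝ≥0, s ≤ t → t ≤ a → dist (m s) (m t) ≤ (t : ℝ) - s)
    (h2 : ∀ s t : ℝ≥0, a ≤ s → s ≤ t → dist (m s) (m t) ≤ (t : ℝ) - s) : IsMonsterPath m := by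
  have key : ∀ s t : ℝ≥0, s ≤ t → dist (m s) (m t) ≤ (t : ℝ) - s := by
    intro s t hst
    rcases le_total t a with h | h
    · exact h1 s t hst h
    · rcases le_total a s with h' | h'
      · exact h2 s t h' hst
      · have e1 := h1 s a h' le_rfl
        have e2 := h2 a t le_rfl h
        have := dist_triangle (m s) (m a) (m t)
        linarith
  intro s t
  rcases le_total s t with h | h
  · have := key s t h
    have hst : (s : ℝ) ≤ t := by exact_mod_cast h
    rw [abs_of_nonpos (by linarith)]
    linarith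
  · have := key t s h
    have hst : (t : ℝ) ≤ s := by exact_mod_cast h
    rw [abs_of_nonneg (by linarith), dist_comm]
    exact this

theorem IsMonsterPath.dist_le {T : Type} [MetricSpace T] {m : C(ℝ≥0, T)} (hm : IsMonsterPath m)
    {s t : ℝ≥0} (h : s ≤ t) : dist (m s) (m t) ≤ (t : ℝ) - s := by
  have := hm s t
  have hst : (s : ℝ) ≤ t := by exact_mod_cast h
  rwa [abs_of_nonpos (by linarith), neg_sub] at this

theorem IsMonsterPath.shift {T : Type} [MetricSpace T] {m : C(ℝ≥0, T)} (hm : IsMonsterPath m)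
    (a : ℝ≥0) : IsMonsterPath (shift a m) := by
  intro s t
  have := hm (a + s) (a + t)
  push_cast at this
  simpa using this

theorem isMonsterPath_const {T : Type} [MetricSpace T] (x : T) :
    IsMonsterPath (ContinuousMap.const ℝ≥0 x) := by
  intro s t
  simp

theorem IsMonsterPath.rotP [NeZero n] {m : C(ℝ≥0, StarTree n)} (hm : IsMonsterPath m) (j : Fin n) :
    IsMonsterPath (rotP j m) := by
  intro s t
  rw [rotP_apply, rotP_apply, dist_rot]
  exact hm s t

/-- Follow `m` until time `a`, go to the start of `m₂` in two time units, then follow `m₂`. -/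
noncomputable def mglue (a : ℝ≥0) (m m₂ : C(ℝ≥0, StarTree n)) : C(ℝ≥0, StarTree n) where
  toFun := fun t => mbridge ((t : ℝ) - a) (m (min t a)) (m₂ (t - (a + 2)))
  continuous_toFun := by
    refine continuous_mbridge.comp (Continuous.prodMk ?_ (Continuous.prodMk ?_ ?_))
    · fun_prop
    · fun_prop
    · exact m₂.continuous.comp (by fun_prop)

theorem mglue_apply (a : ℝ≥0) (m m₂ : C(ℝ≥0, StarTree n)) (t : ℝ≥0) :
    mglue a m m₂ t = mbridge ((t : ℝ) - a) (m (min t a)) (m₂ (t - (a + 2))) := rfl

theorem mglue_of_le {a : ℝ≥0} (m m₂ : C(ℝ≥0, StarTree n)) {t : ℝ≥0} (h : t ≤ a) :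
    mglue a m m₂ t = m t := by
  rw [mglue_apply, min_eq_left h, mbridge_of_le_zero]
  have : (t : ℝ) ≤ a := by exact_mod_cast h
  linarith

theorem mglue_of_ge (a : ℝ≥0) (m m₂ : C(ℝ≥0, StarTree n)) (t : ℝ≥0) :
    mglue a m m₂ (a + 2 + t) = m₂ t := by
  rw [mglue_apply, mbridge_of_two_le, add_tsub_cancel_left]
  push_cast
  have := t.coe_nonneg
  linarith

theorem mglue_mid {a : ℝ≥0} (m m₂ : C(ℝ≥0, StarTree n)) {t : ℝ≥0} (h1 : a ≤ t) (h2 : t ≤ a + 2) :
    mglue a m m₂ t = mbridge ((t : ℝ) - a) (m a) (m₂ 0) := by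
  rw [mglue_apply, min_eq_right h1, tsub_eq_zero_of_le h2]

theorem shift_mglue (a : ℝ≥0) (m m₂ : C(ℝ≥0, StarTree n)) : shift (a + 2) (mglue a m m₂) = m₂ := by
  ext1 t
  exact mglue_of_ge a m m₂ t

theorem isMonsterPath_mglue (a : ℝ≥0) {m m₂ : C(ℝ≥0, StarTree n)} (hm : IsMonsterPath m)
    (hm₂ : IsMonsterPath m₂) : IsMonsterPath (mglue a m m₂) := by
  have hge : ∀ s : ℝ≥0, a + 2 ≤ s → mglue a m m₂ s = m₂ (s - (a + 2)) := by
    intro s hs
    obtain ⟨r, rfl⟩ := le_iff_exists_add.1 hs
    rw [mglue_of_ge, add_tsub_cancel_left]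
  refine isMonsterPath_of_le_of_ge (a + 2) ?_ ?_
  · intro s t hst ht
    have key : ∀ s t : ℝ≥0, a ≤ s → s ≤ t → t ≤ a + 2 →
        dist (mglue a m m₂ s) (mglue a m m₂ t) ≤ (t : ℝ) - s := by
      intro s t has hst ht
      rw [mglue_mid m m₂ has (hst.trans ht), mglue_mid m m₂ (has.trans hst) ht]
      have hst' : (s : ℝ) ≤ t := by exact_mod_cast hst
      have := dist_mbridge_le (m a) (m₂ 0) (u := (s : ℝ) - a) (v := (t : ℝ) - a) (by linarith)
      linarith
    rcases le_total t a with h | h
    · rw [mglue_of_le m m₂ h, mglue_of_le m m₂ (hst.trans h)]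
      exact hm.dist_le hst
    · rcases le_total a s with h' | h'
      · exact key s t h' hst ht
      · have e1 : dist (mglue a m m₂ s) (mglue a m m₂ a) ≤ (a : ℝ) - s := by
          rw [mglue_of_le m m₂ h', mglue_of_le m m₂ le_rfl]
          exact hm.dist_le h'
        have e2 := key a t le_rfl h ht
        have := dist_triangle (mglue a m m₂ s) (mglue a m m₂ a) (mglue a m m₂ t)
        linarith
  · intro s t has hst
    rw [hge s has, hge t (has.trans hst)]
    have := hm₂.dist_le (tsub_le_tsub_right hst (a + 2))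
    rw [NNReal.coe_sub has, NNReal.coe_sub (has.trans hst)] at this
    linarith

/-- capture before time `a` is not changed -/
theorem captureTime_mglue_le_of_le {a : ℝ≥0} {m m₂ p : C(ℝ≥0, StarTree n)}
    (h : captureTime m p ≤ a) : captureTime (mglue a m m₂) p ≤ captureTime m p :=
  captureTime_le_of_eqOn (fun _ ht => mglue_of_le m m₂ ht) h

theorem captureTime_mglue_le (a : ℝ≥0) (m m₂ p : C(ℝ≥0, StarTree n)) :
    captureTime (mglue a m m₂) p ≤ (a + 2 : ℝ≥0) + captureTime m₂ (shift (a + 2) p) := by
  have := captureTime_le_shift (a + 2) (mglue a m m₂) p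
  rwa [shift_mglue] at this

end Pool.Agent.PM8dcc
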