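import Pool.Agent.PM8dcc.Capture

/-!
Compactness of the set of monster paths; perturbation of a strategy.
-/

open MeasureTheory Set Filter
open scoped NNReal ENNReal Topology

namespace Pool.Agent.PM8dcc

variable {T : Type} [MetricSpace T] [CompactSpace T]

/-- the monster paths form a compact set (Arzela-Ascoli; see
`ArzelaAscoli.isCompact_of_equicontinuous`) -/
theorem isCompact_monster : IsCompact {m : C(ℝ≥0, T) | IsMonsterPath m} := by
  apply ArzelaAscoli.isCompact_of_equicontinuous
  · have h1 : ContinuousMap.toFun '' {m : C(ℝ≥0, T) | IsMonsterPath m} =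
        ⋂ (s : ℝ≥0) (t : ℝ≥0), {f : ℝ≥0 → T | dist (f s) (f t) ≤ |(s : ℝ) - (t : ℝ)|} := by
      ext f
      simp only [mem_image, mem_ofPred_eq, mem_iInter]
      constructor
      · rintro ⟨m, hm, rfl⟩ s t
        exact hm s t
      · intro hf
        have hc : Continuous f := by
          have : LipschitzWith 1 f := by
            apply LipschitzWith.of_dist_le_mul
            intro s t
            rw [NNReal.coe_one, one_mul, NNReal.dist_eq]
            exact hf s t
          exact this.continuous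
        exact ⟨⟨f, hc⟩, fun s t => hf s t, rfl⟩
    rw [h1]
    apply IsClosed.isCompact
    refine isClosed_iInter fun s => isClosed_iInter fun t => ?_
    exact isClosed_le ((continuous_apply s).dist (continuous_apply t)) continuous_const
  · intro t₀
    rw [Metric.equicontinuousAt_iff]
    intro ε hε
    refine ⟨ε, hε, fun t ht m => ?_⟩
    have := m.2 t₀ t
    rw [NNReal.dist_eq] at ht
    rw [abs_sub_comm] at ht
    exact this.trans_lt ht

/-- Fatou's lemma for the capture times of a convergent sequence of monster paths. -/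
theorem lintegral_captureTime_le_of_tendsto (P : Measure C(ℝ≥0, T)) {u : ℕ → C(ℝ≥0, T)}
    {m : C(ℝ≥0, T)} (hu : Tendsto u atTop (𝓝 m)) {b : ℕ → ℝ≥0∞} {v : ℝ≥0∞}
    (hb : Tendsto b atTop (𝓝 v)) (h : ∀ k, ∫⁻ p, captureTime (u k) p ∂P ≤ b k) :
    ∫⁻ p, captureTime m p ∂P ≤ v := by
  calc ∫⁻ p, captureTime m p ∂P
      ≤ ∫⁻ p, liminf (fun k => captureTime (u k) p) atTop ∂P := by
        apply lintegral_mono
        intro p
        have h1 : LowerSemicontinuousAt (fun m => captureTime m p) m :=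
          (lowerSemicontinuous_captureTime_left p) m
        rw [lowerSemicontinuousAt_iff_le_liminf] at h1
        refine h1.trans ?_
        have h2 : liminf (fun m => captureTime m p) (𝓝 m) ≤
            liminf (fun m => captureTime m p) (map u atTop) :=
          liminf_le_liminf_of_le hu
        exact h2
    _ ≤ liminf (fun k => ∫⁻ p, captureTime (u k) p ∂P) atTop :=
        lintegral_liminf_le fun k => measurable_captureTime (u k)
    _ ≤ liminf b atTop := liminf_le_liminf (Eventually.of_forall h)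
    _ = v := hb.liminf_eq

/-- If `P₁` guarantees at least `v`, and `P₂` yields more than `v` against each monster path that
is a best reply to `P₁`, then some mixture of the two guarantees more than `v`. -/
theorem exists_better (P₁ P₂ : Measure C(ℝ≥0, T)) [IsProbabilityMeasure P₁]
    [IsProbabilityMeasure P₂] (v : ℝ≥0∞) (hv : v ≠ ∞)
    (h1 : ∀ m : C(ℝ≥0, T), IsMonsterPath m → v ≤ ∫⁻ p, captureTime m p ∂P₁)
    (h2 : ∀ m : C(ℝ≥0, T), IsMonsterPath m → ∫⁻ p, captureTime m p ∂P₁ ≤ v →
      v < ∫⁻ p, captureTime m p ∂P₂) :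
    ∃ P : Measure C(ℝ≥0, T), IsProbabilityMeasure P ∧ v < guarantee P := by
  by_contra hcon
  push Not at hcon
  -- the mixing weights
  set ε : ℕ → ℝ≥0∞ := fun k => ((k + 2 : ℕ) : ℝ≥0∞)⁻¹ with hε
  have hε0 : ∀ k, ε k ≠ 0 := fun k => ENNReal.inv_ne_zero.mpr (ENNReal.natCast_ne_top _)
  have hεt : ∀ k, ε k ≠ ∞ := fun k => ENNReal.inv_ne_top.mpr (by positivity)
  have hε1 : ∀ k, ε k ≤ 1 := by
    intro k
    rw [hε]
    apply ENNReal.inv_le_one.mpr
    exact_mod_cast (by omega : 1 ≤ k + 2)
  have hεlim : Tendsto ε atTop (𝓝 0) := by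
    exact ENNReal.tendsto_inv_nat_nhds_zero.comp (tendsto_add_atTop_nat 2)
  have hε1' : ∀ k, 1 - ε k ≠ 0 := by
    intro k
    rw [Ne, tsub_eq_zero_iff_le, not_le]
    rw [hε]
    apply ENNReal.inv_lt_one.mpr
    exact_mod_cast (by omega : 1 < k + 2)
  have hsum : ∀ k, (1 - ε k) + ε k = 1 := fun k => tsub_add_cancel_of_le (hε1 k)
  have hex : ∀ k, ∃ m : C(ℝ≥0, T), IsMonsterPath m ∧
      (1 - ε k) * ∫⁻ p, captureTime m p ∂P₁ + ε k * ∫⁻ p, captureTime m p ∂P₂ ≤ v + ε k ^ 2 := by
    intro k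
    set P : Measure C(ℝ≥0, T) := (1 - ε k) • P₁ + ε k • P₂ with hP
    have hprob : IsProbabilityMeasure P := by
      constructor
      rw [hP, Measure.add_apply, Measure.smul_apply, Measure.smul_apply, measure_univ,
        measure_univ, smul_eq_mul, smul_eq_mul, mul_one, mul_one, hsum]
    have hg : guarantee P < v + ε k ^ 2 := by
      refine (hcon P hprob).trans_lt (ENNReal.lt_add_right hv ?_)
      exact pow_ne_zero 2 (hε0 k)
    unfold guarantee at hg
    rw [iInf_lt_iff] at hg
    obtain ⟨m, hm⟩ := hg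
    rw [iInf_lt_iff] at hm
    obtain ⟨hm1, hm2⟩ := hm
    refine ⟨m, hm1, ?_⟩
    rw [hP, lintegral_add_measure, lintegral_smul_measure, lintegral_smul_measure] at hm2
    exact hm2.le
  choose m hm hmk using hex
  obtain ⟨m₀, hm₀, φ, hφ, hlim⟩ := isCompact_monster.tendsto_subseq (x := m) (fun k => hm k)
  have hφt : Tendsto φ atTop atTop := hφ.tendsto_atTop
  -- first bound
  have hA : ∀ k, ∫⁻ p, captureTime (m k) p ∂P₁ ≤ (v + ε k ^ 2) / (1 - ε k) := by
    intro k
    rw [ENNReal.le_div_iff_mul_le (Or.inl (hε1' k))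
      (Or.inl (ne_top_of_le_ne_top ENNReal.one_ne_top tsub_le_self)), mul_comm]
    exact le_self_add.trans (hmk k)
  have hB : ∀ k, ∫⁻ p, captureTime (m k) p ∂P₂ ≤ v + ε k := by
    intro k
    have h3 : (1 - ε k) * v + ε k * ∫⁻ p, captureTime (m k) p ∂P₂ ≤
        (1 - ε k) * v + ε k * (v + ε k) := by
      calc (1 - ε k) * v + ε k * ∫⁻ p, captureTime (m k) p ∂P₂
          ≤ (1 - ε k) * ∫⁻ p, captureTime (m k) p ∂P₁ +
              ε k * ∫⁻ p, captureTime (m k) p ∂P₂ := by
            gcongr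
            exact h1 (m k) (hm k)
        _ ≤ v + ε k ^ 2 := hmk k
        _ = ((1 - ε k) + ε k) * v + ε k ^ 2 := by rw [hsum, one_mul]
        _ = (1 - ε k) * v + ε k * (v + ε k) := by ring
    have h4 : (1 - ε k) * v ≠ ∞ :=
      ENNReal.mul_ne_top (ne_top_of_le_ne_top ENNReal.one_ne_top tsub_le_self) hv
    have h5 := (ENNReal.add_le_add_iff_left h4).mp h3
    exact (ENNReal.mul_le_mul_iff_right (hε0 k) (hεt k)).mp h5
  have hlimA : Tendsto (fun k => (v + ε (φ k) ^ 2) / (1 - ε (φ k))) atTop (𝓝 v) := by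
    have h5 := hεlim.comp hφt
    have h6 : Tendsto (fun k => v + ε (φ k) ^ 2) atTop (𝓝 (v + 0 ^ 2)) :=
      tendsto_const_nhds.add (ENNReal.Tendsto.pow h5)
    have h7 : Tendsto (fun k => 1 - ε (φ k)) atTop (𝓝 (1 - 0)) :=
      ENNReal.Tendsto.sub tendsto_const_nhds h5 (Or.inl ENNReal.one_ne_top)
    have h8 := ENNReal.Tendsto.div h6 (Or.inr (by simp)) h7 (Or.inl (by simp))
    simpa using h8
  have hlimB : Tendsto (fun k => v + ε (φ k)) atTop (𝓝 v) := by
    have h5 := hεlim.comp hφt
    have h6 : Tendsto (fun k => v + ε (φ k)) atTop (𝓝 (v + 0)) := tendsto_const_nhds.add h5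
    simpa using h6
  have r1 := lintegral_captureTime_le_of_tendsto P₁ hlim hlimA (fun k => hA (φ k))
  have r2 := lintegral_captureTime_le_of_tendsto P₂ hlim hlimB (fun k => hB (φ k))
  exact absurd (h2 m₀ hm₀ r1) (not_lt.mpr r2)

end Pool.Agent.PM8dcc
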