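import Pool.Agent.PM8dcc.LowerB

/-!
The lower bound `31 n / 30` for the value of the star with `n` legs.
-/

open MeasureTheory Set Filter
open scoped NNReal ENNReal Topology

namespace Pool.Agent.PM8dcc

open Pool.Agent.PM8dcc.StarTree

namespace Lower

variable {n : ℕ}

theorem gr_add (n k l : ℕ) : gr n (k + l) = gr n k + gr n l := by
  unfold gr
  push_cast
  rw [add_div]

theorem gr_sum {ι : Type*} (s : Finset ι) (f : ι → ℕ) :
    gr n (∑ i ∈ s, f i) = ∑ i ∈ s, gr n (f i) := by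
  classical
  induction s using Finset.induction_on with
  | empty => simp [gr]
  | insert a s ha ih => rw [Finset.sum_insert ha, Finset.sum_insert ha, gr_add, ih]

open Classical in
/-- the number of grid points before `x`, at most `N` -/
noncomputable def gcount (n N : ℕ) (x : ℝ≥0∞) : ℕ :=
  ((Finset.range N).filter fun a => ((gr n (a + 1) : ℝ≥0) : ℝ≥0∞) < x).card

theorem gcount_le (n N : ℕ) (x : ℝ≥0∞) : ((gr n (gcount n N x) : ℝ≥0) : ℝ≥0∞) ≤ x := by
  classical
  unfold gcount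
  set F := (Finset.range N).filter fun a => ((gr n (a + 1) : ℝ≥0) : ℝ≥0∞) < x with hF
  by_cases h0 : F.card = 0
  · rw [h0]
    simp [gr]
  · have : ∃ a ∈ F, F.card ≤ a + 1 := by
      by_contra hc
      push Not at hc
      have hsub : F ⊆ Finset.range (F.card - 1) := by
        intro a ha
        have := hc a ha
        rw [Finset.mem_range]
        omega
      have := Finset.card_le_card hsub
      rw [Finset.card_range] at this
      omega
    obtain ⟨a, ha, hle⟩ := this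
    have h1 := (Finset.mem_filter.1 ha).2
    have h2 : ((gr n F.card : ℝ≥0) : ℝ≥0∞) ≤ ((gr n (a + 1) : ℝ≥0) : ℝ≥0∞) := by
      exact_mod_cast gr_mono n hle
    exact h2.trans h1.le

theorem sum_gcount {ι : Type*} (s : Finset ι) (N : ℕ) (f : ι → ℝ≥0∞) [DecidableEq ι]
    [∀ a, DecidablePred fun i => ((gr n (a + 1) : ℝ≥0) : ℝ≥0∞) < f i] :
    ∑ i ∈ s, gcount n N (f i) =
      ∑ a ∈ Finset.range N, (s.filter fun i => ((gr n (a + 1) : ℝ≥0) : ℝ≥0∞) < f i).card := by
  classical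
  unfold gcount
  simp only [Finset.card_filter]
  rw [Finset.sum_comm]
  refine Finset.sum_congr rfl fun a _ => Finset.sum_congr rfl fun i _ => ?_
  congr

/-- the index set of the strategy -/
noncomputable def strat (n : ℕ) : Measure C(ℝ≥0, StarTree n) :=
  ((4 * n ^ 4 : ℕ) : ℝ≥0∞)⁻¹ • ∑ k ∈ Finset.range (2 * n ^ 2), ∑ p : Fin n × Fin n,
    (Measure.dirac (stay p.1) + Measure.dirac (move k p.1 p.2))

theorem lintegral_strat (f : C(ℝ≥0, StarTree n) → ℝ≥0∞) (hf : Measurable f) :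
    ∫⁻ p, f p ∂(strat n) = ((4 * n ^ 4 : ℕ) : ℝ≥0∞)⁻¹ *
      ∑ k ∈ Finset.range (2 * n ^ 2), ∑ p : Fin n × Fin n, (f (stay p.1) + f (move k p.1 p.2)) := by
  unfold strat
  rw [lintegral_smul_measure, lintegral_finsetSum_measure, smul_eq_mul]
  congr 1
  refine Finset.sum_congr rfl fun k _ => ?_
  rw [lintegral_finsetSum_measure]
  refine Finset.sum_congr rfl fun p _ => ?_
  rw [lintegral_add_measure, lintegral_dirac' _ hf, lintegral_dirac' _ hf]

theorem isProb (hn : 0 < n) : IsProbabilityMeasure (strat n) := by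
  constructor
  have h := lintegral_strat (n := n) (fun _ => 1) measurable_const
  rw [lintegral_one] at h
  rw [h]
  simp only [Finset.sum_const, Finset.card_univ, Fintype.card_prod, Fintype.card_fin,
    Finset.card_range]
  rw [nsmul_eq_mul, nsmul_eq_mul]
  have e : (((2 * n ^ 2 : ℕ) : ℝ≥0∞) * (((n * n : ℕ) : ℝ≥0∞) * (1 + 1))) =
      ((4 * n ^ 4 : ℕ) : ℝ≥0∞) := by
    push_cast
    ring
  rw [e]
  apply ENNReal.inv_mul_cancel
  · have : 4 * n ^ 4 ≠ 0 := by positivity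
    exact_mod_cast this
  · exact ENNReal.natCast_ne_top _

/-- the number of all the (path, grid point) pairs with the path not caught before the grid
point -/
noncomputable def total (m : C(ℝ≥0, StarTree n)) : ℕ :=
  ∑ a ∈ Finset.range (2 * n ^ 2), ∑ k ∈ Finset.range (2 * n ^ 2),
    (n * qs m (a + 1) + qm m k (a + 1))

theorem sum_formula (T w : ℝ) (N : ℕ) :
    ∑ a ∈ Finset.range N, (T * (T - (a + 1 : ℕ)) + ((a + 1 : ℕ) : ℝ) ^ 3 / (12 * T) - w) =
      T * (T * N - N * (N + 1) / 2) + ((N : ℝ) * (N + 1) / 2) ^ 2 / (12 * T) - w * N := by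
  induction N with
  | zero => simp
  | succ N ih =>
    rw [Finset.sum_range_succ, ih]
    push_cast
    ring

theorem total_ge (hn : 2000 ≤ n) {m : C(ℝ≥0, StarTree n)} (hm : IsMonsterPath m) :
    124 * n ^ 6 ≤ 30 * total m := by
  have hn0 : (0 : ℝ) < n := by
    have : 0 < n := by omega
    exact_mod_cast this
  have hnr : (2000 : ℝ) ≤ n := by exact_mod_cast hn
  have h1 : ∑ a ∈ Finset.range (2 * n ^ 2),
      ((2 * (n : ℝ) ^ 2) * ((2 * (n : ℝ) ^ 2) - (a + 1 : ℕ)) +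
        ((a + 1 : ℕ) : ℝ) ^ 3 / (12 * (2 * (n : ℝ) ^ 2)) - 18 * n ^ 3) ≤ (total m : ℝ) := by
    unfold total
    push_cast
    refine Finset.sum_le_sum fun a ha => ?_
    have ha' : a + 1 ≤ 2 * n ^ 2 := Finset.mem_range.1 ha
    have := total_lower (by omega) hm ha'
    refine le_trans (le_of_eq ?_) this
    push_cast
    ring
  rw [sum_formula] at h1
  have h2 : (124 : ℝ) * n ^ 6 ≤ 30 * total m := by
    have e : (2 * (n : ℝ) ^ 2) * ((2 * (n : ℝ) ^ 2) * (2 * n ^ 2 : ℕ) -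
        (2 * n ^ 2 : ℕ) * ((2 * n ^ 2 : ℕ) + 1) / 2) +
        (((2 * n ^ 2 : ℕ) : ℝ) * ((2 * n ^ 2 : ℕ) + 1) / 2) ^ 2 / (12 * (2 * (n : ℝ) ^ 2)) -
        18 * n ^ 3 * (2 * n ^ 2 : ℕ) =
        4 * n ^ 6 + n ^ 6 / 6 - 2 * n ^ 4 + n ^ 4 / 6 + n ^ 2 / 24 - 36 * n ^ 5 := by
      push_cast
      field_simp
      ring
    rw [e] at h1
    have h5 : (2000 : ℝ) * n ^ 5 ≤ n ^ 6 := by
      have : (0 : ℝ) < n ^ 5 := by positivity
      nlinarith
    have h4 : (n : ℝ) ^ 4 ≤ n ^ 5 := by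
      have : (0 : ℝ) < n ^ 4 := by positivity
      nlinarith
    have h3 : (0 : ℝ) < n ^ 4 := by positivity
    have h6 : (0 : ℝ) < n ^ 2 := by positivity
    linarith
  exact_mod_cast h2

theorem sum_ge (m : C(ℝ≥0, StarTree n)) : ((gr n (total m) : ℝ≥0) : ℝ≥0∞) ≤
    ∑ k ∈ Finset.range (2 * n ^ 2), ∑ p : Fin n × Fin n,
      (captureTime m (stay p.1) + captureTime m (move k p.1 p.2)) := by
  classical
  have e : total m = ∑ k ∈ Finset.range (2 * n ^ 2), ∑ p : Fin n × Fin n,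
      (gcount n (2 * n ^ 2) (captureTime m (stay p.1)) +
        gcount n (2 * n ^ 2) (captureTime m (move k p.1 p.2))) := by
    unfold total
    rw [Finset.sum_comm]
    refine Finset.sum_congr rfl fun k _ => ?_
    rw [Finset.sum_add_distrib, Finset.sum_add_distrib]
    congr 1
    · rw [Fintype.sum_prod_type]
      simp only [Finset.sum_const, Finset.card_univ, Fintype.card_fin, smul_eq_mul]
      rw [← Finset.mul_sum, ← Finset.mul_sum, sum_gcount]
      rfl
    · rw [sum_gcount]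
      rfl
  rw [e, gr_sum]
  push_cast
  refine Finset.sum_le_sum fun k _ => ?_
  rw [gr_sum]
  push_cast
  refine Finset.sum_le_sum fun p _ => ?_
  rw [gr_add]
  push_cast
  exact add_le_add (gcount_le _ _ _) (gcount_le _ _ _)

end Lower

open Lower in
theorem exists_lower (n : ℕ) (hn : 100000 ≤ n) :
    ∃ π : Measure C(ℝ≥0, StarTree n), IsProbabilityMeasure π ∧
      (31 * n / 30 : ℝ≥0∞) ≤ guarantee π := by
  refine ⟨strat n, isProb (by omega), ?_⟩
  refine le_iInf₂ fun m hm => ?_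
  rw [lintegral_strat _ (measurable_captureTime m)]
  have h1 := sum_ge m
  have h2 := total_ge (by omega) hm
  have hn0 : n ≠ 0 := by omega
  have hn0' : (n : ℝ≥0) ≠ 0 := by exact_mod_cast hn0
  have h3 : (31 * n / 30 : ℝ≥0) ≤ ((4 * n ^ 4 : ℕ) : ℝ≥0)⁻¹ * gr n (total m) := by
    unfold gr
    rw [inv_mul_eq_div, le_div_iff₀ (by positivity), le_div_iff₀ (by positivity),
      div_mul_eq_mul_div, div_mul_eq_mul_div, div_le_iff₀ (by norm_num)]
    have h4 : (124 : ℝ≥0) * n ^ 6 ≤ 30 * total m := by exact_mod_cast h2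
    refine le_trans (le_of_eq ?_) (h4.trans (le_of_eq ?_))
    · push_cast
      ring
    · ring
  have h4 : ((4 * n ^ 4 : ℕ) : ℝ≥0) ≠ 0 := by positivity
  calc (31 * n / 30 : ℝ≥0∞) = ((31 * n / 30 : ℝ≥0) : ℝ≥0∞) := by
        rw [ENNReal.coe_div (by norm_num)]
        push_cast
        rfl
    _ ≤ ((((4 * n ^ 4 : ℕ) : ℝ≥0)⁻¹ * gr n (total m) : ℝ≥0) : ℝ≥0∞) := by exact_mod_cast h3
    _ = ((4 * n ^ 4 : ℕ) : ℝ≥0∞)⁻¹ * ((gr n (total m) : ℝ≥0) : ℝ≥0∞) := by
        rw [ENNReal.coe_mul, ENNReal.coe_inv h4, ENNReal.coe_natCast]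
    _ ≤ _ := by gcongr

end Pool.Agent.PM8dcc
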