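import Pool.Agent.PM8dcc.Glue

/-!
The geometric part of the lower bound: visited leaves, the travel lemma, and the paths which are
not caught.
-/

open MeasureTheory Set Filter
open scoped NNReal ENNReal Topology

namespace Pool.Agent.PM8dcc

open Pool.Agent.PM8dcc.StarTree

namespace Lower

variable {n : ℕ}

/-- the `k`-th grid point -/
noncomputable def gr (n k : ℕ) : ℝ≥0 := (k : ℝ≥0) / n

theorem gr_mono (n : ℕ) {k l : ℕ} (h : k ≤ l) : gr n k ≤ gr n l := by
  unfold gr
  gcongr

theorem coe_gr (n k : ℕ) : ((gr n k : ℝ≥0) : ℝ) = (k : ℝ) / n := by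
  simp [gr]

/-- the leaf `i` -/
noncomputable def leaf (i : Fin n) : StarTree n := pt i 1

theorem sg_leaf (i : Fin n) : sg i (leaf i) = 1 := sg_pt_of_mem i zero_le_one le_rfl

theorem c_leaf (i k : Fin n) : (leaf i).c k = if k = i then 1 else 0 := by
  simp [leaf, pt]

open Classical in
/-- the leaves visited by `m` between the `k`-th and the `a`-th grid point -/
noncomputable def vis (m : C(ℝ≥0, StarTree n)) (k a : ℕ) : Finset (Fin n) :=
  Finset.univ.filter fun i => ∃ t : ℝ≥0, gr n k ≤ t ∧ t ≤ gr n a ∧ m t = leaf i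

/-- `m` is near the centre at the `l`-th grid point -/
def near (m : C(ℝ≥0, StarTree n)) (l : ℕ) : Prop := dep (m (gr n l)) < 1 / n

open Classical in
/-- the number of grid points in `[k, a)` with `m` near the centre -/
noncomputable def cnt (m : C(ℝ≥0, StarTree n)) (k a : ℕ) : ℕ :=
  ((Finset.Ico k a).filter (near m)).card

theorem mem_vis {m : C(ℝ≥0, StarTree n)} {k a : ℕ} {i : Fin n} :
    i ∈ vis m k a ↔ ∃ t : ℝ≥0, gr n k ≤ t ∧ t ≤ gr n a ∧ m t = leaf i := by
  simp [vis]

/-- the travel lemma: between two visits of different leaves the monster needs two time units, and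
the time near the centre is lost -/
theorem travel (hn : 2 ≤ n) {m : C(ℝ≥0, StarTree n)} (hm : IsMonsterPath m) {k a : ℕ} (hka : k ≤ a) :
    (2 * n - 2) * (vis m k a).card + cnt m k a ≤ (a - k) + (2 * n - 2) := by
  classical
  have hn0 : (0 : ℝ) < n := by
    have : 0 < n := by omega
    exact_mod_cast this
  -- the grid points around a visit
  set W : Finset ℤ := Finset.Icc ((k : ℤ) - (n - 2)) (a + (n - 1)) with hW
  set B : Fin n → Finset ℤ := fun i =>
    W.filter fun l => 1 / (n : ℝ) ≤ sg i (m (Real.toNNReal ((l : ℝ) / n))) with hB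
  set Nr : Finset ℤ := ((Finset.Ico k a).filter (near m)).map Nat.castEmbedding with hNr
  have hBcard : ∀ i ∈ vis m k a, 2 * n - 2 ≤ (B i).card := by
    intro i hi
    obtain ⟨s, hs1, hs2, hs3⟩ := mem_vis.1 hi
    set z : ℤ := ⌊(n : ℝ) * s⌋ with hz
    have hz1 : (z : ℝ) ≤ n * s := Int.floor_le _
    have hz2 : (n : ℝ) * s < z + 1 := Int.lt_floor_add_one _
    have hsk : (k : ℝ) ≤ n * s := by
      have : ((gr n k : ℝ≥0) : ℝ) ≤ s := by exact_mod_cast hs1
      rw [coe_gr, div_le_iff₀ hn0] at this
      linarith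
    have hsa : (n : ℝ) * s ≤ a := by
      have : (s : ℝ) ≤ (gr n a : ℝ≥0) := by exact_mod_cast hs2
      rw [coe_gr, le_div_iff₀ hn0] at this
      linarith
    have hzk : (k : ℤ) ≤ z := by
      rw [hz, Int.le_floor]
      exact_mod_cast hsk
    have hza : z ≤ (a : ℤ) := by
      have : (z : ℝ) ≤ a := hz1.trans hsa
      exact_mod_cast this
    have hsub : Finset.Icc (z - (n - 2)) (z + (n - 1)) ⊆ B i := by
      intro l hl
      rw [Finset.mem_Icc] at hl
      rw [hB]
      simp only [Finset.mem_filter]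
      refine ⟨?_, ?_⟩
      · rw [hW, Finset.mem_Icc]
        constructor <;> omega
      · have hl1 : (z : ℝ) - (n - 2) ≤ l := by exact_mod_cast hl.1
        have hl2 : (l : ℝ) ≤ z + (n - 1) := by exact_mod_cast hl.2
        have habs : |(l : ℝ) / n - s| ≤ 1 - 1 / n := by
          have e1 : (l : ℝ) / n - s = (l - n * s) / n := by
            field_simp
          have e2 : (1 : ℝ) - 1 / n = (n - 1) / n := by
            field_simp
          rw [e1, e2, abs_div, abs_of_pos hn0]
          gcongr
          rw [abs_le]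
          constructor <;> linarith
        have hlip : |((Real.toNNReal ((l : ℝ) / n) : ℝ≥0) : ℝ) - (s : ℝ)| ≤ |(l : ℝ) / n - s| := by
          rw [Real.coe_toNNReal']
          have h1 : (s : ℝ) = max (s : ℝ) 0 := (max_eq_left s.coe_nonneg).symm
          calc |max ((l : ℝ) / n) 0 - (s : ℝ)| = |max ((l : ℝ) / n) 0 - max (s : ℝ) 0| := by
                rw [← h1]
            _ ≤ _ := abs_max_sub_max_le_abs _ _ _
        have h3 := hm (Real.toNNReal ((l : ℝ) / n)) s
        have h4 := abs_sg_sub_le i (m (Real.toNNReal ((l : ℝ) / n))) (m s)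
        rw [hs3, sg_leaf] at h4
        rw [hs3] at h3
        have h5 := (abs_le.1 h4).1
        linarith
    calc 2 * n - 2 = (Finset.Icc (z - (n - 2)) (z + (n - 1))).card := by
          rw [Int.card_Icc]
          omega
      _ ≤ _ := Finset.card_le_card hsub
  have hsubW : (vis m k a).biUnion B ∪ Nr ⊆ W := by
    intro l hl
    rw [Finset.mem_union, Finset.mem_biUnion] at hl
    rcases hl with ⟨i, -, hl⟩ | hl
    · exact (Finset.mem_filter.1 hl).1
    · rw [hNr, Finset.mem_map] at hl
      obtain ⟨r, hr, rfl⟩ := hl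
      have := Finset.mem_Ico.1 (Finset.mem_filter.1 hr).1
      rw [hW, Finset.mem_Icc]
      simp only [Nat.castEmbedding_apply]
      constructor <;> omega
  have hdisj1 : ∀ i ∈ vis m k a, ∀ j ∈ vis m k a, i ≠ j → Disjoint (B i) (B j) := by
    intro i _ j _ hij
    rw [Finset.disjoint_left]
    intro l h1 h2
    have h1' := (Finset.mem_filter.1 h1).2
    have h2' := (Finset.mem_filter.1 h2).2
    have hp : (0 : ℝ) < 1 / n := by positivity
    exact hij (sg_pos_unique (hp.trans_le h1') (hp.trans_le h2'))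
  have hdisj2 : Disjoint ((vis m k a).biUnion B) Nr := by
    rw [Finset.disjoint_left]
    intro l h1 h2
    rw [Finset.mem_biUnion] at h1
    obtain ⟨i, -, h1⟩ := h1
    have h1' := (Finset.mem_filter.1 h1).2
    rw [hNr, Finset.mem_map] at h2
    obtain ⟨r, hr, rfl⟩ := h2
    have h2' : near m r := (Finset.mem_filter.1 hr).2
    have e : Real.toNNReal (((Nat.castEmbedding r : ℤ) : ℝ) / n) = gr n r := by
      rw [← Real.toNNReal_coe (r := gr n r), coe_gr]
      simp
    rw [e] at h1'
    unfold near at h2'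
    have := sg_le_dep i (m (gr n r))
    linarith
  have hcard := Finset.card_le_card hsubW
  rw [Finset.card_union_of_disjoint hdisj2, Finset.card_biUnion hdisj1] at hcard
  have hsum : (2 * n - 2) * (vis m k a).card ≤ ∑ i ∈ vis m k a, (B i).card := by
    calc (2 * n - 2) * (vis m k a).card = ∑ i ∈ vis m k a, (2 * n - 2) := by
          rw [Finset.sum_const, smul_eq_mul, mul_comm]
      _ ≤ _ := Finset.sum_le_sum hBcard
  have hNrc : Nr.card = cnt m k a := by
    rw [hNr, Finset.card_map]
    rfl
  have hWc : W.card = (a - k) + (2 * n - 2) := by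
    rw [hW, Int.card_Icc]
    omega
  omega

/-- the stationary path at leaf `i` -/
noncomputable def stay (i : Fin n) : C(ℝ≥0, StarTree n) := ContinuousMap.const ℝ≥0 (leaf i)

/-- stay at leaf `i` until the `k`-th grid point, and go to leaf `j` in one grid step -/
noncomputable def move (k : ℕ) (i j : Fin n) : C(ℝ≥0, StarTree n) :=
  glue (gr n k) (gr n 1) (stay i) (stay j)

theorem lt_stay {m : C(ℝ≥0, StarTree n)} {a : ℕ} {i : Fin n} (h : i ∉ vis m 0 a) :
    ((gr n a : ℝ≥0) : ℝ≥0∞) < captureTime m (stay i) := by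
  rw [lt_captureTime_iff]
  intro t ht heq
  exact h (mem_vis.2 ⟨t, by simp [gr], ht, heq⟩)

theorem lt_move_late {m : C(ℝ≥0, StarTree n)} {k a : ℕ} (hak : a ≤ k) {i : Fin n} (j : Fin n)
    (h : i ∉ vis m 0 a) : ((gr n a : ℝ≥0) : ℝ≥0∞) < captureTime m (move k i j) := by
  rw [lt_captureTime_iff]
  intro t ht heq
  rw [move, glue_of_le _ _ (ht.trans (gr_mono n hak))] at heq
  exact h (mem_vis.2 ⟨t, by simp [gr], ht, heq⟩)

theorem lt_move_early (hn : 2 ≤ n) {m : C(ℝ≥0, StarTree n)} (hm : IsMonsterPath m) {k a : ℕ}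
    {L : Fin n} (hL : 0 < (m (gr n k)).c L) (hnear : ¬ near m k) {i j : Fin n}
    (hi : i ∉ vis m 0 k) (hiL : i ≠ L) (hj : j ∉ vis m k a) (hjL : j ≠ L) :
    ((gr n a : ℝ≥0) : ℝ≥0∞) < captureTime m (move k i j) := by
  have hn0 : (0 : ℝ) < n := by
    have : 0 < n := by omega
    exact_mod_cast this
  have hgr1 : 0 < gr n 1 := by
    rw [← NNReal.coe_pos, coe_gr]
    push_cast
    positivity
  rw [lt_captureTime_iff]
  intro t ht heq
  rcases le_total t (gr n k) with h1 | h1
  · rw [move, glue_of_le _ _ h1] at heq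
    exact hi (mem_vis.2 ⟨t, by simp [gr], h1, heq⟩)
  · rcases le_or_gt (gr n k + gr n 1) t with h2 | h2
    · obtain ⟨r, rfl⟩ := le_iff_exists_add.1 h2
      rw [move, glue_of_ge hgr1] at heq
      exact hj (mem_vis.2 ⟨_, h1, ht, heq⟩)
    · have hc0 : (move k i j t).c L = 0 := by
        rw [move, glue_apply]
        simp only [bridge]
        have e1 : ((stay i) (min t (gr n k))).c L = 0 := by
          change (leaf i).c L = 0
          rw [c_leaf, if_neg hiL.symm]
        have e2 : ((stay j) (t - (gr n k + gr n 1))).c L = 0 := by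
          change (leaf j).c L = 0
          rw [c_leaf, if_neg hjL.symm]
        rw [e1, e2]
        apply max_eq_left
        have h0 : ∀ s : ℝ, 0 ≤ max 0 (min 1 s) := fun s => le_max_left _ _
        have h1 : ∀ s : ℝ, max 0 (min 1 s) ≤ 1 := fun s => max_le zero_le_one (min_le_left _ _)
        refine max_le ?_ ?_
        · rw [zero_sub, neg_nonpos]
          exact mul_nonneg (h0 _) dist_nonneg
        · rw [zero_sub, neg_nonpos]
          exact mul_nonneg (by linarith [h1 (((t : ℝ) - gr n k) / gr n 1)]) dist_nonneg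
      have hdep : 1 / (n : ℝ) ≤ (m (gr n k)).c L := by
        rw [← dep_eq_of_pos hL]
        unfold near at hnear
        exact not_lt.1 hnear
      have h3 := hm t (gr n k)
      have h4 := (abs_le.1 (abs_c_sub_le L (m t) (m (gr n k)))).1
      rw [← heq] at hc0
      rw [hc0] at h4
      have h5 : (gr n k : ℝ) ≤ t := by exact_mod_cast h1
      have h6 : (t : ℝ) < (gr n k : ℝ) + (gr n 1 : ℝ) := by exact_mod_cast h2
      rw [abs_of_nonneg (by linarith)] at h3
      have h7 : ((gr n 1 : ℝ≥0) : ℝ) = 1 / n := by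
        rw [coe_gr]
        push_cast
        rfl
      rw [h7] at h6
      linarith

end Lower

end Pool.Agent.PM8dcc
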