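import Pool.Agent.PM8dcc.LowerA

/-!
The counting part of the lower bound.
-/

open MeasureTheory Set Filter
open scoped NNReal ENNReal Topology

namespace Pool.Agent.PM8dcc

open Pool.Agent.PM8dcc.StarTree

namespace Lower

variable {n : ℕ}

open Classical in
/-- the number of stationary paths not caught at the `a`-th grid point -/
noncomputable def qs (m : C(ℝ≥0, StarTree n)) (a : ℕ) : ℕ :=
  (Finset.univ.filter fun i : Fin n =>
    ((gr n a : ℝ≥0) : ℝ≥0∞) < captureTime m (stay i)).card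

open Classical in
/-- the number of moving paths (with jump time `k`) not caught at the `a`-th grid point -/
noncomputable def qm (m : C(ℝ≥0, StarTree n)) (k a : ℕ) : ℕ :=
  (Finset.univ.filter fun p : Fin n × Fin n =>
    ((gr n a : ℝ≥0) : ℝ≥0∞) < captureTime m (move k p.1 p.2)).card

theorem qs_ge (m : C(ℝ≥0, StarTree n)) (a : ℕ) : n - (vis m 0 a).card ≤ qs m a := by
  classical
  calc n - (vis m 0 a).card = (vis m 0 a)ᶜ.card := by
        rw [Finset.card_compl, Fintype.card_fin]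
    _ ≤ _ := Finset.card_le_card (by
      intro i hi
      rw [Finset.mem_compl] at hi
      rw [Finset.mem_filter]
      exact ⟨Finset.mem_univ _, lt_stay hi⟩)

theorem qm_late (m : C(ℝ≥0, StarTree n)) {k a : ℕ} (hak : a ≤ k) :
    (n - (vis m 0 a).card) * n ≤ qm m k a := by
  classical
  calc (n - (vis m 0 a).card) * n = ((vis m 0 a)ᶜ ×ˢ (Finset.univ : Finset (Fin n))).card := by
        rw [Finset.card_product, Finset.card_compl, Finset.card_univ, Fintype.card_fin]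
    _ ≤ _ := Finset.card_le_card (by
      intro p hp
      rw [Finset.mem_product, Finset.mem_compl] at hp
      rw [Finset.mem_filter]
      exact ⟨Finset.mem_univ _, lt_move_late hak p.2 hp.1⟩)

theorem exists_pos_of_not_near (hn : 0 < n) {m : C(ℝ≥0, StarTree n)} {k : ℕ} (h : ¬ near m k) :
    ∃ L, 0 < (m (gr n k)).c L := by
  by_contra hc
  push Not at hc
  apply h
  unfold near
  have hn0 : (0 : ℝ) < n := by exact_mod_cast hn
  have : dep (m (gr n k)) = 0 := by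
    rw [dep, Finset.sum_eq_zero]
    intro i _
    exact le_antisymm (hc i) ((m (gr n k)).nonneg i)
  rw [this]
  positivity

theorem qm_early (hn : 2 ≤ n) {m : C(ℝ≥0, StarTree n)} (hm : IsMonsterPath m) {k a : ℕ}
    (hnear : ¬ near m k) :
    (n - ((vis m 0 k).card + 1)) * (n - ((vis m k a).card + 1)) ≤ qm m k a := by
  classical
  obtain ⟨L, hL⟩ := exists_pos_of_not_near (by omega) hnear
  have h1 : ∀ s : Finset (Fin n), n - (s.card + 1) ≤ (insert L s)ᶜ.card := by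
    intro s
    rw [Finset.card_compl, Fintype.card_fin]
    have := Finset.card_insert_le L s
    omega
  calc (n - ((vis m 0 k).card + 1)) * (n - ((vis m k a).card + 1))
      ≤ (insert L (vis m 0 k))ᶜ.card * (insert L (vis m k a))ᶜ.card :=
        Nat.mul_le_mul (h1 _) (h1 _)
    _ = ((insert L (vis m 0 k))ᶜ ×ˢ (insert L (vis m k a))ᶜ).card := by
        rw [Finset.card_product]
    _ ≤ _ := Finset.card_le_card (by
      intro p hp
      rw [Finset.mem_product, Finset.mem_compl, Finset.mem_compl, Finset.mem_insert,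
        Finset.mem_insert, not_or, not_or] at hp
      rw [Finset.mem_filter]
      exact ⟨Finset.mem_univ _, lt_move_early hn hm hL hnear hp.1.2 hp.1.1 hp.2.2 hp.2.1⟩)

theorem cnt_add (m : C(ℝ≥0, StarTree n)) {k a : ℕ} (h : k ≤ a) : cnt m 0 k + cnt m k a = cnt m 0 a := by
  classical
  unfold cnt
  rw [← Finset.card_union_of_disjoint, ← Finset.filter_union,
    Finset.Ico_union_Ico_eq_Ico (Nat.zero_le _) h]
  exact Finset.disjoint_filter_filter (Finset.Ico_disjoint_Ico_consecutive 0 k a)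

theorem cnt_le (m : C(ℝ≥0, StarTree n)) (k a : ℕ) : cnt m k a ≤ a - k := by
  classical
  unfold cnt
  calc _ ≤ (Finset.Ico k a).card := Finset.card_filter_le _ _
    _ = a - k := Nat.card_Ico _ _

/-- real form of the travel lemma -/
theorem vis_le (hn : 2 ≤ n) {m : C(ℝ≥0, StarTree n)} (hm : IsMonsterPath m) {k a : ℕ} (hka : k ≤ a) :
    ((vis m k a).card : ℝ) ≤ ((a : ℝ) - k - cnt m k a) / (2 * n) + 2 := by
  have hn0 : (0 : ℝ) < n := by
    have : 0 < n := by omega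
    exact_mod_cast this
  have h := travel hn hm hka
  have hN : (vis m k a).card ≤ n := by
    calc _ ≤ (Finset.univ : Finset (Fin n)).card := Finset.card_le_card (Finset.subset_univ _)
      _ = n := by simp
  have h2 : 2 * n * (vis m k a).card + cnt m k a + k ≤ a + 4 * n := by
    have e : (2 * n - 2) * (vis m k a).card = 2 * n * (vis m k a).card - 2 * (vis m k a).card :=
      Nat.sub_mul _ _ _
    have e2 : 2 * (vis m k a).card ≤ 2 * n * (vis m k a).card := by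
      apply Nat.mul_le_mul_right
      omega
    omega
  have h3 : 2 * (n : ℝ) * (vis m k a).card + cnt m k a + k ≤ a + 4 * n := by exact_mod_cast h2
  have h4 : ((vis m k a).card : ℝ) - 2 ≤ ((a : ℝ) - k - cnt m k a) / (2 * n) := by
    rw [le_div_iff₀ (by positivity)]
    linarith
  linarith

theorem natCast_sub_ge (a b : ℕ) : (a : ℝ) - b ≤ ((a - b : ℕ) : ℝ) := by
  rcases le_total b a with h | h
  · rw [Nat.cast_sub h]
  · rw [Nat.sub_eq_zero_of_le h]
    have : (a : ℝ) ≤ b := by exact_mod_cast h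
    push_cast
    linarith

theorem prod_ge {N x y A B : ℝ} (hN : 0 < N) (hx0 : 0 ≤ x) (hx : x ≤ 1) (hy0 : 0 ≤ y) (hy : y ≤ 1)
    (hA : 0 ≤ A) (hB : 0 ≤ B) (hA' : N * (1 - x) - 3 ≤ A) (hB' : N * (1 - y) - 3 ≤ B) :
    N ^ 2 * ((1 - x) * (1 - y)) - 6 * N ≤ A * B := by
  have h1 : 0 ≤ 1 - x := by linarith
  have h2 : 0 ≤ 1 - y := by linarith
  have h3 : N * (1 - x) ≤ N := by nlinarith
  have h4 : N * (1 - y) ≤ N := by nlinarith
  have h5 : 0 ≤ N * (1 - x) := by positivity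
  have h6 : 0 ≤ N * (1 - y) := by positivity
  have e : N ^ 2 * ((1 - x) * (1 - y)) = (N * (1 - x)) * (N * (1 - y)) := by ring
  rw [e]
  set u := N * (1 - x)
  set v := N * (1 - y)
  have hAB : 0 ≤ A * B := mul_nonneg hA hB
  rcases le_total u 3 with hu | hu
  · nlinarith
  · rcases le_total v 3 with hv | hv
    · nlinarith
    · have : (u - 3) * (v - 3) ≤ A * B :=
        mul_le_mul hA' hB' (by linarith) hA
      nlinarith

/-- the bound for the moving paths with an early jump time -/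
theorem qm_early_real (hn : 2 ≤ n) {m : C(ℝ≥0, StarTree n)} (hm : IsMonsterPath m) {k a : ℕ}
    (hka : k ≤ a) (ha : a ≤ 2 * n ^ 2) (hnear : ¬ near m k) :
    (2 * (n : ℝ) ^ 2 - (a - cnt m 0 a)) / 2 - 6 * n +
      ((k : ℝ) - cnt m 0 k) * ((a : ℝ) - k - cnt m k a) / (4 * n ^ 2) ≤ qm m k a := by
  have hn0 : (0 : ℝ) < n := by
    have : 0 < n := by omega
    exact_mod_cast this
  have hv1 := vis_le hn hm (Nat.zero_le k)
  have hv2 := vis_le hn hm hka
  have hc1 : (cnt m 0 k : ℝ) ≤ k := by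
    have := cnt_le m 0 k
    have h : cnt m 0 k ≤ k := by omega
    exact_mod_cast h
  have hc2 : (cnt m k a : ℝ) ≤ a - k := by
    have := cnt_le m k a
    have h : cnt m k a + k ≤ a := by omega
    have h' : (cnt m k a : ℝ) + k ≤ a := by exact_mod_cast h
    linarith
  have hadd : (cnt m 0 k : ℝ) + cnt m k a = cnt m 0 a := by exact_mod_cast cnt_add m hka
  have hkr : (k : ℝ) ≤ a := by exact_mod_cast hka
  have har : (a : ℝ) ≤ 2 * n ^ 2 := by exact_mod_cast ha
  have hc10 : (0 : ℝ) ≤ cnt m 0 k := Nat.cast_nonneg _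
  have hc20 : (0 : ℝ) ≤ cnt m k a := Nat.cast_nonneg _
  have hk0 : (0 : ℝ) ≤ k := Nat.cast_nonneg _
  set X : ℝ := (k : ℝ) - cnt m 0 k with hX
  set Y : ℝ := (a : ℝ) - k - cnt m k a with hY
  have hT : (0 : ℝ) < 2 * n ^ 2 := by positivity
  have hX0 : 0 ≤ X / (2 * n ^ 2) := div_nonneg (by linarith) hT.le
  have hY0 : 0 ≤ Y / (2 * n ^ 2) := div_nonneg (by linarith) hT.le
  have hX1 : X / (2 * n ^ 2) ≤ 1 := by
    rw [div_le_one hT]
    linarith
  have hY1 : Y / (2 * n ^ 2) ≤ 1 := by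
    rw [div_le_one hT]
    linarith
  have hq := qm_early hn hm (a := a) hnear
  have hqr : ((n - ((vis m 0 k).card + 1) : ℕ) : ℝ) * ((n - ((vis m k a).card + 1) : ℕ) : ℝ) ≤
      qm m k a := by exact_mod_cast hq
  have e1 : (n : ℝ) * (1 - X / (2 * n ^ 2)) = n - X / (2 * n) := by
    field_simp
  have e2 : (n : ℝ) * (1 - Y / (2 * n ^ 2)) = n - Y / (2 * n) := by
    field_simp
  have hA := natCast_sub_ge n ((vis m 0 k).card + 1)
  have hB := natCast_sub_ge n ((vis m k a).card + 1)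
  push_cast at hA hB
  have hv1' : ((vis m 0 k).card : ℝ) ≤ X / (2 * n) + 2 := by
    rw [hX]
    simpa using hv1
  have key := prod_ge (N := n) (x := X / (2 * n ^ 2)) (y := Y / (2 * n ^ 2)) hn0 hX0 hX1 hY0 hY1
    (Nat.cast_nonneg (n - ((vis m 0 k).card + 1))) (Nat.cast_nonneg (n - ((vis m k a).card + 1)))
    (by rw [e1]; linarith) (by rw [e2]; linarith)
  refine le_trans (le_of_eq ?_) (key.trans hqr)
  rw [← hadd]
  have e3 : (k : ℝ) = X + cnt m 0 k := by rw [hX]; ring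
  have e4 : (a : ℝ) = Y + k + cnt m k a := by rw [hY]; ring
  rw [e4, e3]
  field_simp
  ring

theorem sum_kak (b : ℝ) (a : ℕ) : ∑ k ∈ Finset.range a, (k : ℝ) * (b - k) =
    b * (a * (a - 1) / 2) - (a - 1) * a * (2 * a - 1) / 6 := by
  induction a with
  | zero => simp
  | succ a ih =>
    rw [Finset.sum_range_succ, ih]
    push_cast
    ring

open Classical in
theorem cnt_eq_sum (m : C(ℝ≥0, StarTree n)) (a : ℕ) (u v : ℝ) :
    ∑ k ∈ Finset.range a, (if near m k then u else v) =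
      cnt m 0 a * u + ((a : ℝ) - cnt m 0 a) * v := by
  induction a with
  | zero => simp [cnt]
  | succ a ih =>
    have h := cnt_add m (Nat.le_succ a)
    have h2 : cnt m a (a + 1) = if near m a then 1 else 0 := by
      unfold cnt
      rw [Nat.Ico_succ_singleton, Finset.filter_singleton]
      split_ifs <;> simp
    rw [Finset.sum_range_succ, ih, ← h, Nat.succ_eq_add_one, h2]
    push_cast
    split_ifs <;> ring

open Classical in
/-- the bound for each early jump time -/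
theorem qm_lower (hn : 2 ≤ n) {m : C(ℝ≥0, StarTree n)} (hm : IsMonsterPath m) {k a : ℕ}
    (hka : k ≤ a) (ha : a ≤ 2 * n ^ 2) :
    (k : ℝ) * (a - k) / (4 * n ^ 2) +
      (if near m k then -(a : ℝ) ^ 2 / (16 * n ^ 2) else
        (2 * (n : ℝ) ^ 2 - (a - cnt m 0 a)) / 2 - 6 * n - a * cnt m 0 a / (4 * n ^ 2)) ≤
      qm m k a := by
  have hn0 : (0 : ℝ) < n := by
    have : 0 < n := by omega
    exact_mod_cast this
  have hT : (0 : ℝ) < 16 * n ^ 2 := by positivity
  have hT4 : (0 : ℝ) < 4 * n ^ 2 := by positivity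
  split_ifs with hnear
  · have h0 : (0 : ℝ) ≤ qm m k a := Nat.cast_nonneg _
    refine le_trans ?_ h0
    have e : (k : ℝ) * (a - k) / (4 * n ^ 2) + -(a : ℝ) ^ 2 / (16 * n ^ 2) =
        -((a - 2 * k) ^ 2) / (16 * n ^ 2) := by
      field_simp
      ring
    rw [e]
    exact div_nonpos_of_nonpos_of_nonneg (by nlinarith [sq_nonneg ((a : ℝ) - 2 * k)]) hT.le
  · refine le_trans ?_ (qm_early_real hn hm hka ha hnear)
    have hc1 : (cnt m 0 k : ℝ) ≤ k := by
      have := cnt_le m 0 k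
      have h : cnt m 0 k ≤ k := by omega
      exact_mod_cast h
    have hc2 : (cnt m k a : ℝ) ≤ a - k := by
      have := cnt_le m k a
      have h : cnt m k a + k ≤ a := by omega
      have h' : (cnt m k a : ℝ) + k ≤ a := by exact_mod_cast h
      linarith
    have hadd : (cnt m 0 k : ℝ) + cnt m k a = cnt m 0 a := by exact_mod_cast cnt_add m hka
    have hkr : (k : ℝ) ≤ a := by exact_mod_cast hka
    have hc10 : (0 : ℝ) ≤ cnt m 0 k := Nat.cast_nonneg _
    have hc20 : (0 : ℝ) ≤ cnt m k a := Nat.cast_nonneg _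
    have hk0 : (0 : ℝ) ≤ k := Nat.cast_nonneg _
    have h1 : (k : ℝ) * (a - k) - a * cnt m 0 a ≤
        ((k : ℝ) - cnt m 0 k) * ((a : ℝ) - k - cnt m k a) := by
      rw [← hadd]
      have p1 : (0 : ℝ) ≤ (a - k) * cnt m k a := mul_nonneg (by linarith) hc20
      have p2 : (0 : ℝ) ≤ k * cnt m 0 k := mul_nonneg hk0 hc10
      have p3 : (0 : ℝ) ≤ cnt m 0 k * cnt m k a := mul_nonneg hc10 hc20
      nlinarith
    have h2 : ((k : ℝ) * (a - k) - a * cnt m 0 a) / (4 * n ^ 2) ≤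
        ((k : ℝ) - cnt m 0 k) * ((a : ℝ) - k - cnt m k a) / (4 * n ^ 2) := by gcongr
    rw [sub_div] at h2
    linarith

/-- the total number of paths not caught at the `a`-th grid point -/
theorem total_lower (hn : 2 ≤ n) {m : C(ℝ≥0, StarTree n)} (hm : IsMonsterPath m) {a : ℕ}
    (ha : a ≤ 2 * n ^ 2) :
    (2 * (n : ℝ) ^ 2) * (2 * n ^ 2 - a) + (a : ℝ) ^ 3 / (24 * n ^ 2) - 18 * n ^ 3 ≤
      ∑ k ∈ Finset.range (2 * n ^ 2), ((n : ℝ) * qs m a + qm m k a) := by
  classical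
  have hn0 : (0 : ℝ) < n := by
    have : 0 < n := by omega
    exact_mod_cast this
  have hn1 : (1 : ℝ) ≤ n := by
    have : 1 ≤ n := by omega
    exact_mod_cast this
  have hc : (cnt m 0 a : ℝ) ≤ a := by
    have := cnt_le m 0 a
    have h : cnt m 0 a ≤ a := by omega
    exact_mod_cast h
  have hc0 : (0 : ℝ) ≤ cnt m 0 a := Nat.cast_nonneg _
  have har : (a : ℝ) ≤ 2 * n ^ 2 := by exact_mod_cast ha
  have ha0 : (0 : ℝ) ≤ a := Nat.cast_nonneg _
  have hv := vis_le hn hm (Nat.zero_le a)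
  have hv' : ((vis m 0 a).card : ℝ) ≤ ((a : ℝ) - cnt m 0 a) / (2 * n) + 2 := by simpa using hv
  set c : ℝ := (cnt m 0 a : ℝ) with hcdef
  have hsub := natCast_sub_ge n (vis m 0 a).card
  have hqs : (n : ℝ) - ((a - c) / (2 * n) + 2) ≤ qs m a := by
    have h1 : ((n - (vis m 0 a).card : ℕ) : ℝ) ≤ qs m a := by exact_mod_cast qs_ge m a
    linarith
  have hqs' : (2 * (n : ℝ) ^ 2 - (a - c)) / 2 - 2 * n ≤ n * qs m a := by
    have h1 := mul_le_mul_of_nonneg_left hqs hn0.le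
    have e : (n : ℝ) * (n - ((a - c) / (2 * n) + 2)) = (2 * (n : ℝ) ^ 2 - (a - c)) / 2 - 2 * n := by
      field_simp
      ring
    rwa [e] at h1
  have hlate : ∀ k, a ≤ k → (2 * (n : ℝ) ^ 2 - (a - c)) / 2 - 2 * n ≤ qm m k a := by
    intro k hk
    have h1 : ((n - (vis m 0 a).card : ℕ) : ℝ) * n ≤ qm m k a := by exact_mod_cast qm_late m hk
    have h2 : (n : ℝ) - ((a - c) / (2 * n) + 2) ≤ ((n - (vis m 0 a).card : ℕ) : ℝ) := by linarith
    have h3 := mul_le_mul_of_nonneg_right h2 hn0.le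
    have e : ((n : ℝ) - ((a - c) / (2 * n) + 2)) * n =
        (2 * (n : ℝ) ^ 2 - (a - c)) / 2 - 2 * n := by
      field_simp
      ring
    rw [e] at h3
    linarith
  rw [Finset.sum_add_distrib, Finset.sum_const, Finset.card_range, nsmul_eq_mul,
    ← Finset.sum_range_add_sum_Ico _ ha]
  have hS1 : ((2 * n ^ 2 : ℕ) : ℝ) * ((2 * (n : ℝ) ^ 2 - (a - c)) / 2 - 2 * n) ≤
      ((2 * n ^ 2 : ℕ) : ℝ) * (n * qs m a) := by gcongr
  have hS2 : ((2 * (n : ℝ) ^ 2) - a) * ((2 * (n : ℝ) ^ 2 - (a - c)) / 2 - 2 * n) ≤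
      ∑ k ∈ Finset.Ico a (2 * n ^ 2), (qm m k a : ℝ) := by
    calc ((2 * (n : ℝ) ^ 2) - a) * ((2 * (n : ℝ) ^ 2 - (a - c)) / 2 - 2 * n)
        = ∑ k ∈ Finset.Ico a (2 * n ^ 2), ((2 * (n : ℝ) ^ 2 - (a - c)) / 2 - 2 * n) := by
          rw [Finset.sum_const, Nat.card_Ico, nsmul_eq_mul, Nat.cast_sub ha]
          push_cast
          ring
      _ ≤ _ := Finset.sum_le_sum fun k hk => hlate k (Finset.mem_Ico.1 hk).1
  have hS3 : ((a : ℝ) * (a * (a - 1) / 2) - (a - 1) * a * (2 * a - 1) / 6) / (4 * n ^ 2) +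
      (c * (-(a : ℝ) ^ 2 / (16 * n ^ 2)) +
        (a - c) * ((2 * (n : ℝ) ^ 2 - (a - c)) / 2 - 6 * n - a * c / (4 * n ^ 2))) ≤
      ∑ k ∈ Finset.range a, (qm m k a : ℝ) := by
    rw [← sum_kak, hcdef, ← cnt_eq_sum, Finset.sum_div, ← Finset.sum_add_distrib]
    exact Finset.sum_le_sum fun k hk => qm_lower hn hm (Finset.mem_range.1 hk).le ha
  have hfinal : (2 * (n : ℝ) ^ 2) * (2 * n ^ 2 - a) + (a : ℝ) ^ 3 / (24 * n ^ 2) - 18 * n ^ 3 ≤
      ((2 * n ^ 2 : ℕ) : ℝ) * ((2 * (n : ℝ) ^ 2 - (a - c)) / 2 - 2 * n) +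
      (((a : ℝ) * (a * (a - 1) / 2) - (a - 1) * a * (2 * a - 1) / 6) / (4 * n ^ 2) +
      (c * (-(a : ℝ) ^ 2 / (16 * n ^ 2)) +
        (a - c) * ((2 * (n : ℝ) ^ 2 - (a - c)) / 2 - 6 * n - a * c / (4 * n ^ 2))) +
      ((2 * (n : ℝ) ^ 2) - a) * ((2 * (n : ℝ) ^ 2 - (a - c)) / 2 - 2 * n)) := by
    push_cast
    have hne : (n : ℝ) ≠ 0 := hn0.ne'
    obtain ⟨T, hT⟩ : ∃ T : ℝ, T = 2 * (n : ℝ) ^ 2 := ⟨_, rfl⟩
    have hT0 : 0 < T := by rw [hT]; positivity
    have hdiff : 0 ≤ c * (4 * T ^ 2 - a ^ 2 + 4 * (T - a) * (a - c)) / (8 * T) -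
        a / (12 * T) - 2 * n * (2 * T - a) - 6 * n * (a - c) + 9 * n * T := by
      have haT : (a : ℝ) ≤ T := by rw [hT]; exact har
      have q1 : 0 ≤ c * (4 * T ^ 2 - a ^ 2 + 4 * (T - a) * (a - c)) / (8 * T) := by
        have w1 : (0 : ℝ) ≤ (T - a) * (a - c) := mul_nonneg (by linarith) (by linarith)
        have w2 : (0 : ℝ) ≤ T ^ 2 - a ^ 2 := by nlinarith
        have w3 : (0 : ℝ) ≤ 4 * T ^ 2 - a ^ 2 + 4 * (T - a) * (a - c) := by nlinarith
        positivity
      have q2 : (a : ℝ) / (12 * T) ≤ 1 / 12 := by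
        rw [div_le_div_iff₀ (by positivity) (by norm_num)]
        linarith
      have q3 : 1 ≤ n * T := by
        have : 1 ≤ T := by rw [hT]; nlinarith
        nlinarith
      have q4 : (0 : ℝ) ≤ n * c := mul_nonneg hn0.le hc0
      have q5 : (n : ℝ) * a ≤ n * T := by gcongr
      nlinarith
    have e : ((2 * (n : ℝ) ^ 2) * ((2 * (n : ℝ) ^ 2 - (a - c)) / 2 - 2 * n) +
      (((a : ℝ) * (a * (a - 1) / 2) - (a - 1) * a * (2 * a - 1) / 6) / (4 * n ^ 2) +
      (c * (-(a : ℝ) ^ 2 / (16 * n ^ 2)) +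
        (a - c) * ((2 * (n : ℝ) ^ 2 - (a - c)) / 2 - 6 * n - a * c / (4 * n ^ 2))) +
      ((2 * (n : ℝ) ^ 2) - a) * ((2 * (n : ℝ) ^ 2 - (a - c)) / 2 - 2 * n))) -
      ((2 * (n : ℝ) ^ 2) * (2 * n ^ 2 - a) + (a : ℝ) ^ 3 / (24 * n ^ 2) - 18 * n ^ 3) =
      c * (4 * T ^ 2 - a ^ 2 + 4 * (T - a) * (a - c)) / (8 * T) -
        a / (12 * T) - 2 * n * (2 * T - a) - 6 * n * (a - c) + 9 * n * T := by
      rw [hT]
      field_simp
      ring
    linarith
  linarith

end Lower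

end Pool.Agent.PM8dcc
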