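import Pool.Agent.PM8dcc.Mix

/-!
The estimate for the second component of the improved strategy.
-/

open MeasureTheory Set Filter
open scoped NNReal ENNReal Topology

namespace Pool.Agent.PM8dcc

open Pool.Agent.PM8dcc.StarTree

variable {n : ℕ}

/-- the average of a strategy over the rotations of the star -/
noncomputable def rotAvg [NeZero n] (μ : Measure C(ℝ≥0, StarTree n)) : Measure C(ℝ≥0, StarTree n) :=
  ∑ j : Fin n, (n : ℝ≥0∞)⁻¹ • μ.map (rotP j)

theorem natCast_ne_zero' (n : ℕ) [NeZero n] : (n : ℝ≥0∞) ≠ 0 := by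
  exact_mod_cast NeZero.ne n

theorem isProbabilityMeasure_rotAvg [NeZero n] (μ : Measure C(ℝ≥0, StarTree n))
    [IsProbabilityMeasure μ] : IsProbabilityMeasure (rotAvg μ) := by
  refine ⟨?_⟩
  rw [rotAvg, Measure.finsetSum_apply]
  have h : ∀ j : Fin n, ((n : ℝ≥0∞)⁻¹ • μ.map (rotP j)) univ = (n : ℝ≥0∞)⁻¹ := by
    intro j
    rw [Measure.smul_apply, Measure.map_apply (continuous_rotP j).measurable MeasurableSet.univ,
      preimage_univ, measure_univ, smul_eq_mul, mul_one]
  rw [Finset.sum_congr rfl fun j _ => h j, Finset.sum_const, Finset.card_univ, Fintype.card_fin,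
    nsmul_eq_mul]
  exact ENNReal.mul_inv_cancel (natCast_ne_zero' n) (ENNReal.natCast_ne_top n)

theorem lintegral_rotAvg [NeZero n] (μ : Measure C(ℝ≥0, StarTree n)) (m : C(ℝ≥0, StarTree n)) :
    ∫⁻ p, captureTime m p ∂(rotAvg μ) =
      (n : ℝ≥0∞)⁻¹ * ∑ j : Fin n, ∫⁻ p, captureTime (rotP (-j) m) p ∂μ := by
  rw [rotAvg, lintegral_finsetSum_measure, Finset.mul_sum]
  refine Finset.sum_congr rfl fun j _ => ?_
  rw [lintegral_smul_measure, smul_eq_mul,
    lintegral_map (measurable_captureTime m) (continuous_rotP j).measurable]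
  congr 1
  refine lintegral_congr fun p => ?_
  rw [captureTime_rotP_right]

theorem mul_lintegral_rotAvg [NeZero n] (μ : Measure C(ℝ≥0, StarTree n)) (m : C(ℝ≥0, StarTree n)) :
    (n : ℝ≥0∞) * ∫⁻ p, captureTime m p ∂(rotAvg μ) =
      ∑ j : Fin n, ∫⁻ p, captureTime (rotP (-j) m) p ∂μ := by
  rw [lintegral_rotAvg, ← mul_assoc,
    ENNReal.mul_inv_cancel (natCast_ne_zero' n) (ENNReal.natCast_ne_top n), one_mul]

/-- at most one rotation brings a given point into the open leg `i` -/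
theorem sum_indicator_rot_le [NeZero n] (i : Fin n) (x : StarTree n) :
    ∑ j : Fin n, (if 0 < sg i (rot (-j) x) then (1 : ℝ≥0∞) else 0) ≤ 1 := by
  classical
  rw [Finset.sum_ite, Finset.sum_const_zero, add_zero, Finset.sum_const, nsmul_eq_mul, mul_one]
  have h : (Finset.univ.filter fun j : Fin n => 0 < sg i (rot (-j) x)).card ≤ 1 := by
    rw [Finset.card_le_one]
    intro a ha b hb
    rw [Finset.mem_filter] at ha hb
    have h1 := ha.2
    have h2 := hb.2
    rw [sg_rot] at h1 h2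
    have := sg_pos_unique h1 h2
    simpa using this
  exact_mod_cast h

theorem mix_claim [NeZero n] (π : Measure C(ℝ≥0, StarTree n)) [IsProbabilityMeasure π]
    (hopt : ∀ π' : Measure C(ℝ≥0, StarTree n), IsProbabilityMeasure π' → guarantee π' ≤ guarantee π)
    (hv0 : guarantee π ≠ 0) (N W : ℝ≥0) {A : Set C(ℝ≥0, StarTree n)} (hAm : MeasurableSet A)
    (hA : A ⊆ ⋃ i, Res i N) (hA0 : π A ≠ 0) (c : ℝ≥0∞) (hc : 0 < c) :
    ∃ P₂ : Measure C(ℝ≥0, StarTree n), IsProbabilityMeasure P₂ ∧ ∀ m, IsMonsterPath m →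
      (∀ j : Fin n, ∀ᵐ p ∂π, p ∈ A → ∀ i, p ∈ Res i N →
        (W : ℝ≥0∞) < captureTime (rotP (-j) m) p → captureTime (rotP (-j) m) p < N →
          0 < sg i (rotP (-j) m 0)) →
      ∀ K : ℝ≥0,
        n * N + n * (guarantee π * K / (K + (2 * n + 2))) ≤
          n * ∫⁻ p, captureTime m p ∂P₂ +
          (N + K) * (n * ((W + 2) / (guarantee π * π A)) + 2 + n * c +
            n * (2 / guarantee π + c)) := by
  classical
  set v := guarantee π with hv
  have hvfin : v ≠ ∞ := ((guarantee_le_two_mul π).trans_lt (by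
    exact ENNReal.mul_lt_top ENNReal.ofNat_lt_top (ENNReal.natCast_lt_top n))).ne
  have hAfin : π A ≠ ∞ := measure_ne_top π A
  -- the conditional law
  set ρ : Measure C(ℝ≥0, StarTree n) := (π A)⁻¹ • π.restrict A with hρ
  have hρp : IsProbabilityMeasure ρ := by
    refine ⟨?_⟩
    rw [hρ, Measure.smul_apply, Measure.restrict_apply_univ, smul_eq_mul]
    exact ENNReal.inv_mul_cancel hA0 hAfin
  have hρae : ∀ (s : C(ℝ≥0, StarTree n) → Prop), (∀ᵐ p ∂π, p ∈ A → s p) → ∀ᵐ p ∂ρ, s p := by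
    intro s hs
    rw [hρ]
    refine Measure.ae_smul_measure ?_ _
    rwa [ae_restrict_iff' hAm]
  have hρle : ∀ s : Set C(ℝ≥0, StarTree n), ρ s ≤ (π A)⁻¹ * π s := by
    intro s
    rw [hρ, Measure.smul_apply, smul_eq_mul]
    gcongr
    exact Measure.restrict_le_self
  have hρA : ∀ᵐ p ∂ρ, ∃ i, p ∈ Res i N := by
    refine hρae _ (Eventually.of_forall fun p hp => ?_)
    exact mem_iUnion.1 (hA hp)
  -- the choice of the transition time
  have hcdep : ∀ t : ℝ≥0, Measurable fun p : C(ℝ≥0, StarTree n) => dep (p t) := fun t =>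
    (continuous_dep.comp (by fun_prop)).measurable
  obtain ⟨e₁, he₁, h₁⟩ := exists_small ρ (hcdep N) (c := c) (by
    have : ρ {p | dep (p N) ≤ 0} = 0 := by
      have : ∀ᵐ p ∂ρ, ¬ dep (p N) ≤ 0 := by
        filter_upwards [hρA] with p hp
        obtain ⟨i, hi⟩ := hp
        have := hi N le_rfl
        have h2 := sg_le_dep i (p N)
        linarith
      simpa [ae_iff] using this
    rw [this]
    exact hc)
  obtain ⟨e₂, he₂, h₂⟩ := exists_small π (hcdep 0) (c := 2 / v + c) (by
    have h3 := early_capture π hopt (isMonsterPath_const o) 0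
    have h4 : {p : C(ℝ≥0, StarTree n) | dep (p 0) ≤ 0} ⊆
        {p | captureTime (ContinuousMap.const _ o) p ≤ (0 : ℝ≥0)} := by
      intro p hp
      have h5 : p 0 = o := eq_o_of_dep (le_antisymm hp (dep_nonneg _))
      have h6 : (ContinuousMap.const ℝ≥0 (o : StarTree n)) 0 = p 0 := h5.symm
      have := captureTime_le_of_eq h6
      simpa using this
    have h7 : π {p : C(ℝ≥0, StarTree n) | dep (p 0) ≤ 0} ≤ 2 / v := by
      refine (measure_mono h4).trans ?_
      rw [ENNReal.le_div_iff_mul_le (Or.inl hv0) (Or.inl hvfin), mul_comm]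
      refine h3.trans ?_
      simp
    refine h7.trans_lt (ENNReal.lt_add_right ?_ hc.ne')
    exact ENNReal.div_ne_top (by norm_num) hv0)
  obtain ⟨e, he0, he1, he2⟩ : ∃ e : ℝ≥0, 0 < e ∧ (e : ℝ) ≤ e₁ ∧ (e : ℝ) ≤ e₂ :=
    ⟨⟨min e₁ e₂, (lt_min he₁ he₂).le⟩, lt_min he₁ he₂, min_le_left _ _, min_le_right _ _⟩
  have hC4 : ρ {p | dep (p N) ≤ e} ≤ c := h₁ _ he1
  have hC5 : π {p | dep (p 0) ≤ e} ≤ 2 / v + c := h₂ _ he2
  set Q := ρ.prod π with hQ
  have hcomb : Measurable (comb N e : C(ℝ≥0, StarTree n) × C(ℝ≥0, StarTree n) → C(ℝ≥0, StarTree n)) :=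
    measurable_comb N e
  have hQp : IsProbabilityMeasure (Q.map (comb N e)) := Measure.isProbabilityMeasure_map hcomb.aemeasurable
  refine ⟨rotAvg (Q.map (comb N e)), isProbabilityMeasure_rotAvg _, ?_⟩
  intro m hm hcond K
  rw [mul_lintegral_rotAvg]
  have hmap : ∀ j : Fin n, ∫⁻ p, captureTime (rotP (-j) m) p ∂(Q.map (comb N e)) =
      ∫⁻ x, captureTime (rotP (-j) m) (comb N e x) ∂Q := fun j =>
    lintegral_map (measurable_captureTime _) hcomb
  have hswap : ∑ j : Fin n, ∫⁻ x, captureTime (rotP (-j) m) (comb N e x) ∂Q =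
      ∫⁻ x, ∑ j : Fin n, captureTime (rotP (-j) m) (comb N e x) ∂Q :=
    (lintegral_finsetSum _ fun j _ => (measurable_captureTime (rotP (-j) m)).comp hcomb).symm
  rw [Finset.sum_congr rfl fun j _ => hmap j, hswap]
  -- the exceptional events
  let C1 : Fin n → C(ℝ≥0, StarTree n) → ℝ≥0∞ := fun j =>
    indicator {p | captureTime (rotP (-j) m) p ≤ W} (fun _ => 1)
  let C4 : C(ℝ≥0, StarTree n) → ℝ≥0∞ := indicator {p | dep (p N) ≤ e} (fun _ => 1)
  let C5 : C(ℝ≥0, StarTree n) → ℝ≥0∞ := indicator {p | dep (p 0) ≤ e} (fun _ => 1)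
  let R : C(ℝ≥0, StarTree n) → ℝ≥0∞ := fun q =>
    ∑ j : Fin n, min (captureTime (rotP (-j) (shift (N + e) m)) q) K
  have hC1m : ∀ j, Measurable (C1 j) := fun j =>
    measurable_const.indicator (measurableSet_captureTime_le _ _)
  have hC4m : Measurable C4 := measurable_const.indicator (measurableSet_le (hcdep N) measurable_const)
  have hC5m : Measurable C5 := measurable_const.indicator (measurableSet_le (hcdep 0) measurable_const)
  have hRm : Measurable R := Finset.measurable_sum _ fun j _ =>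
    (measurable_captureTime _).min measurable_const
  -- the pointwise inequality
  have hpt : ∀ᵐ x ∂Q, (n : ℝ≥0∞) * N + R x.2 ≤
      ∑ j : Fin n, captureTime (rotP (-j) m) (comb N e x) +
        (N + K) * (∑ j, C1 j x.1 + 2 + n * C4 x.1 + n * C5 x.2) := by
    have hae : ∀ᵐ p ∂ρ, (∃ i, p ∈ Res i N) ∧ ∀ j : Fin n, ∀ i, p ∈ Res i N →
        (W : ℝ≥0∞) < captureTime (rotP (-j) m) p → captureTime (rotP (-j) m) p < N →
          0 < sg i (rotP (-j) m 0) := by
      refine hρA.and ?_
      rw [ae_all_iff]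
      exact fun j => hρae _ (hcond j)
    have hae2 : ∀ᵐ x ∂Q, (∃ i, x.1 ∈ Res i N) ∧ ∀ j : Fin n, ∀ i, x.1 ∈ Res i N →
        (W : ℝ≥0∞) < captureTime (rotP (-j) m) x.1 → captureTime (rotP (-j) m) x.1 < N →
          0 < sg i (rotP (-j) m 0) :=
      Measure.quasiMeasurePreserving_fst.ae hae
    filter_upwards [hae2] with x hx
    obtain ⟨⟨i, hi⟩, hx2⟩ := hx
    obtain ⟨p, q⟩ := x
    simp only at hi hx2 ⊢
    have hR : R q = ∑ j : Fin n, min (captureTime (shift (N + e) (rotP (-j) m))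
        (rotP (leg (p 0) - leg (q 0)) q)) K := by
      simp only [R]
      refine (Fintype.sum_equiv (Equiv.addRight (leg (p 0) - leg (q 0))) _ _ fun j => ?_).symm
      simp only [Equiv.coe_addRight]
      rw [captureTime_rotP_right, shift_rotP, rotP_rotP]
      congr 3
      abel
    rw [hR]
    have hj : ∀ j : Fin n, (N : ℝ≥0∞) + min (captureTime (shift (N + e) (rotP (-j) m))
        (rotP (leg (p 0) - leg (q 0)) q)) K ≤ captureTime (rotP (-j) m) (comb N e (p, q)) +
        (N + K) * (C1 j p + (if 0 < sg i (rot (-j) (m 0)) then (1 : ℝ≥0∞) else 0) +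
          (if 0 < sg i (rot (-j) (m N)) then (1 : ℝ≥0∞) else 0) + C4 p + C5 q) := by
      intro j
      by_cases hex : (captureTime (rotP (-j) m) p ≤ W) ∨ (0 < sg i (rotP (-j) m 0)) ∨
          (0 < sg i (rotP (-j) m N)) ∨ (dep (p N) ≤ e) ∨ (dep (q 0) ≤ e)
      · have h6 : (1 : ℝ≥0∞) ≤ C1 j p + (if 0 < sg i (rot (-j) (m 0)) then (1 : ℝ≥0∞) else 0) +
            (if 0 < sg i (rot (-j) (m N)) then (1 : ℝ≥0∞) else 0) + C4 p + C5 q := by
          rcases hex with h | h | h | h | h
          · have : C1 j p = 1 := indicator_of_mem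
              (show p ∈ {p | captureTime (rotP (-j) m) p ≤ (W : ℝ≥0∞)} from h) _
            rw [this, add_assoc, add_assoc, add_assoc]
            exact le_self_add
          · rw [rotP_apply] at h
            rw [if_pos h, add_assoc, add_assoc, add_comm (C1 j p), add_assoc]
            exact le_self_add
          · rw [rotP_apply] at h
            rw [if_pos h, add_assoc, add_comm _ (1 : ℝ≥0∞), add_assoc]
            exact le_self_add
          · have : C4 p = 1 := indicator_of_mem (show p ∈ {p : C(ℝ≥0, StarTree n) | dep (p N) ≤ e} from h) _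
            rw [this, add_comm _ (1 : ℝ≥0∞), add_assoc]
            exact le_self_add
          · have : C5 q = 1 := indicator_of_mem (show q ∈ {p : C(ℝ≥0, StarTree n) | dep (p 0) ≤ e} from h) _
            rw [this]
            exact le_add_self
        calc (N : ℝ≥0∞) + min (captureTime (shift (N + e) (rotP (-j) m))
              (rotP (leg (p 0) - leg (q 0)) q)) K ≤ N + K := by
              gcongr
              exact min_le_right _ _
          _ = (N + K) * 1 := (mul_one _).symm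
          _ ≤ (N + K) * (C1 j p + (if 0 < sg i (rot (-j) (m 0)) then (1 : ℝ≥0∞) else 0) +
                (if 0 < sg i (rot (-j) (m N)) then (1 : ℝ≥0∞) else 0) + C4 p + C5 q) := by
              gcongr
          _ ≤ _ := le_add_self
      · push Not at hex
        obtain ⟨h1, h2, h3, h4, h5⟩ := hex
        have hno := no_meet (N := N) (W := W) (e := e) (i := i) (p := p) (q := q)
          (hm.rotP (-j)) hi (hx2 j i hi) (not_le.2 h1) (not_lt.2 h2) (not_lt.2 h3)
          (not_le.2 h4) (not_le.2 h5)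
        have h6 := shift_le_captureTime (N + e) (rotP (-j) m) (comb N e (p, q)) hno
        have h7 : shift (N + e) (comb N e (p, q)) = rotP (leg (p 0) - leg (q 0)) q :=
          shift_glue he0 _ _
        rw [h7] at h6
        calc (N : ℝ≥0∞) + min (captureTime (shift (N + e) (rotP (-j) m))
              (rotP (leg (p 0) - leg (q 0)) q)) K
            ≤ ((N + e : ℝ≥0) : ℝ≥0∞) + captureTime (shift (N + e) (rotP (-j) m))
              (rotP (leg (p 0) - leg (q 0)) q) := by
              gcongr ?_ + ?_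
              · exact_mod_cast le_self_add
              · exact min_le_left _ _
          _ ≤ captureTime (rotP (-j) m) (comb N e (p, q)) := h6
          _ ≤ _ := le_self_add
    calc (n : ℝ≥0∞) * N + ∑ j : Fin n, min (captureTime (shift (N + e) (rotP (-j) m))
          (rotP (leg (p 0) - leg (q 0)) q)) K
        = ∑ j : Fin n, ((N : ℝ≥0∞) + min (captureTime (shift (N + e) (rotP (-j) m))
          (rotP (leg (p 0) - leg (q 0)) q)) K) := by
          rw [Finset.sum_add_distrib, Finset.sum_const, Finset.card_univ, Fintype.card_fin,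
            nsmul_eq_mul]
      _ ≤ ∑ j : Fin n, (captureTime (rotP (-j) m) (comb N e (p, q)) +
          (N + K) * (C1 j p + (if 0 < sg i (rot (-j) (m 0)) then (1 : ℝ≥0∞) else 0) +
            (if 0 < sg i (rot (-j) (m N)) then (1 : ℝ≥0∞) else 0) + C4 p + C5 q)) :=
          Finset.sum_le_sum fun j _ => hj j
      _ = ∑ j : Fin n, captureTime (rotP (-j) m) (comb N e (p, q)) +
          (N + K) * (∑ j, C1 j p +
            ∑ j : Fin n, (if 0 < sg i (rot (-j) (m 0)) then (1 : ℝ≥0∞) else 0) +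
            ∑ j : Fin n, (if 0 < sg i (rot (-j) (m N)) then (1 : ℝ≥0∞) else 0) +
            n * C4 p + n * C5 q) := by
          rw [Finset.sum_add_distrib, ← Finset.mul_sum]
          congr 2
          rw [Finset.sum_add_distrib, Finset.sum_add_distrib, Finset.sum_add_distrib,
            Finset.sum_add_distrib, Finset.sum_const, Finset.sum_const, Finset.card_univ,
            Fintype.card_fin, nsmul_eq_mul, nsmul_eq_mul]
      _ ≤ ∑ j : Fin n, captureTime (rotP (-j) m) (comb N e (p, q)) +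
          (N + K) * (∑ j, C1 j p + 1 + 1 + n * C4 p + n * C5 q) := by
          gcongr
          · exact sum_indicator_rot_le i (m 0)
          · exact sum_indicator_rot_le i (m N)
      _ = _ := by
          rw [add_assoc (∑ j, C1 j p) 1 1, one_add_one_eq_two]
  -- integrate
  have hfst : ∀ f : C(ℝ≥0, StarTree n) → ℝ≥0∞, Measurable f →
      ∫⁻ x, f x.1 ∂Q = ∫⁻ p, f p ∂ρ := fun f hf =>
    (measurePreserving_fst (μ := ρ) (ν := π)).lintegral_comp hf
  have hsnd : ∀ f : C(ℝ≥0, StarTree n) → ℝ≥0∞, Measurable f →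
      ∫⁻ x, f x.2 ∂Q = ∫⁻ p, f p ∂π := fun f hf =>
    (measurePreserving_snd (μ := ρ) (ν := π)).lintegral_comp hf
  have hleft : ∫⁻ x, ((n : ℝ≥0∞) * N + R x.2) ∂Q = n * N + ∫⁻ q, R q ∂π := by
    rw [lintegral_add_left measurable_const, lintegral_const, measure_univ, mul_one, hsnd R hRm]
  have hRint : n * (v * K / (K + (2 * n + 2))) ≤ ∫⁻ q, R q ∂π := by
    simp only [R]
    rw [lintegral_finsetSum _ fun j _ => (measurable_captureTime _).min measurable_const]
    calc (n : ℝ≥0∞) * (v * K / (K + (2 * n + 2))) =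
          ∑ _j : Fin n, v * K / (K + (2 * n + 2)) := by
          rw [Finset.sum_const, Finset.card_univ, Fintype.card_fin, nsmul_eq_mul]
      _ ≤ _ := by
          refine Finset.sum_le_sum fun j _ => ?_
          refine ENNReal.div_le_of_le_mul ?_
          rw [mul_comm (∫⁻ _, _ ∂_)]
          exact truncation π ((hm.shift (N + e)).rotP (-j)) K
  have hC1int : ∀ j, ∫⁻ p, C1 j p ∂ρ ≤ (W + 2) / (v * π A) := by
    intro j
    simp only [C1]
    rw [lintegral_indicator (measurableSet_captureTime_le _ _), setLIntegral_const, one_mul]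
    refine (hρle _).trans ?_
    have h3 := early_capture π hopt (hm.rotP (-j)) W
    rw [ENNReal.le_div_iff_mul_le (Or.inl (mul_ne_zero hv0 hA0))
      (Or.inl (ENNReal.mul_ne_top hvfin hAfin))]
    calc (π A)⁻¹ * π {p | captureTime (rotP (-j) m) p ≤ W} * (v * π A)
        = (π A * (π A)⁻¹) * (v * π {p | captureTime (rotP (-j) m) p ≤ W}) := by ring
      _ = v * π {p | captureTime (rotP (-j) m) p ≤ W} := by
          rw [ENNReal.mul_inv_cancel hA0 hAfin, one_mul]
      _ ≤ _ := h3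
  have hC4int : ∫⁻ p, C4 p ∂ρ ≤ c := by
    simp only [C4]
    rw [lintegral_indicator (measurableSet_le (hcdep N) measurable_const), setLIntegral_const,
      one_mul]
    exact hC4
  have hC5int : ∫⁻ p, C5 p ∂π ≤ 2 / v + c := by
    simp only [C5]
    rw [lintegral_indicator (measurableSet_le (hcdep 0) measurable_const), setLIntegral_const,
      one_mul]
    exact hC5
  have hG1m : Measurable fun x : C(ℝ≥0, StarTree n) × C(ℝ≥0, StarTree n) => ∑ j, C1 j x.1 :=
    Finset.measurable_sum _ fun j _ => (hC1m j).comp measurable_fst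
  have hErr : ∫⁻ x : C(ℝ≥0, StarTree n) × C(ℝ≥0, StarTree n),
      (∑ j, C1 j x.1 + 2 + n * C4 x.1 + n * C5 x.2) ∂Q ≤
      n * ((W + 2) / (v * π A)) + 2 + n * c + n * (2 / v + c) := by
    have m4 : Measurable fun x : C(ℝ≥0, StarTree n) × C(ℝ≥0, StarTree n) => (n : ℝ≥0∞) * C4 x.1 :=
      (hC4m.comp measurable_fst).const_mul _
    have m5 : Measurable fun x : C(ℝ≥0, StarTree n) × C(ℝ≥0, StarTree n) => (n : ℝ≥0∞) * C5 x.2 :=
      (hC5m.comp measurable_snd).const_mul _
    rw [lintegral_add_right _ m5, lintegral_add_right _ m4, lintegral_add_right _ measurable_const]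
    have i1 : ∫⁻ x : C(ℝ≥0, StarTree n) × C(ℝ≥0, StarTree n), ∑ j, C1 j x.1 ∂Q ≤
        n * ((W + 2) / (v * π A)) := by
      have hsw : ∫⁻ x : C(ℝ≥0, StarTree n) × C(ℝ≥0, StarTree n), ∑ j, C1 j x.1 ∂Q =
          ∑ j, ∫⁻ x : C(ℝ≥0, StarTree n) × C(ℝ≥0, StarTree n), C1 j x.1 ∂Q :=
        lintegral_finsetSum _ fun j _ => (hC1m j).comp measurable_fst
      rw [hsw]
      calc ∑ j, ∫⁻ x : C(ℝ≥0, StarTree n) × C(ℝ≥0, StarTree n), C1 j x.1 ∂Q
          ≤ ∑ _j : Fin n, (W + 2) / (v * π A) := by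
            refine Finset.sum_le_sum fun j _ => ?_
            rw [hfst (C1 j) (hC1m j)]
            exact hC1int j
        _ = _ := by
            rw [Finset.sum_const, Finset.card_univ, Fintype.card_fin, nsmul_eq_mul]
    have i2 : ∫⁻ _x : C(ℝ≥0, StarTree n) × C(ℝ≥0, StarTree n), (2 : ℝ≥0∞) ∂Q = 2 := by
      rw [lintegral_const, measure_univ, mul_one]
    have i4 : ∫⁻ x : C(ℝ≥0, StarTree n) × C(ℝ≥0, StarTree n), (n : ℝ≥0∞) * C4 x.1 ∂Q ≤ n * c := by
      have hsw : ∫⁻ x : C(ℝ≥0, StarTree n) × C(ℝ≥0, StarTree n), (n : ℝ≥0∞) * C4 x.1 ∂Q =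
          (n : ℝ≥0∞) * ∫⁻ x : C(ℝ≥0, StarTree n) × C(ℝ≥0, StarTree n), C4 x.1 ∂Q :=
        lintegral_const_mul _ (hC4m.comp measurable_fst)
      rw [hsw, hfst C4 hC4m]
      gcongr
    have i5 : ∫⁻ x : C(ℝ≥0, StarTree n) × C(ℝ≥0, StarTree n), (n : ℝ≥0∞) * C5 x.2 ∂Q ≤
        n * (2 / v + c) := by
      have hsw : ∫⁻ x : C(ℝ≥0, StarTree n) × C(ℝ≥0, StarTree n), (n : ℝ≥0∞) * C5 x.2 ∂Q =
          (n : ℝ≥0∞) * ∫⁻ x : C(ℝ≥0, StarTree n) × C(ℝ≥0, StarTree n), C5 x.2 ∂Q :=
        lintegral_const_mul _ (hC5m.comp measurable_snd)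
      rw [hsw, hsnd C5 hC5m]
      gcongr
    rw [i2]
    gcongr
  calc (n : ℝ≥0∞) * N + n * (v * K / (K + (2 * n + 2))) ≤ n * N + ∫⁻ q, R q ∂π := by gcongr
    _ = ∫⁻ x, ((n : ℝ≥0∞) * N + R x.2) ∂Q := hleft.symm
    _ ≤ ∫⁻ x, (∑ j : Fin n, captureTime (rotP (-j) m) (comb N e x) +
        (N + K) * (∑ j, C1 j x.1 + 2 + n * C4 x.1 + n * C5 x.2)) ∂Q := lintegral_mono_ae hpt
    _ = ∫⁻ x, ∑ j : Fin n, captureTime (rotP (-j) m) (comb N e x) ∂Q +
        (N + K) * ∫⁻ x, (∑ j, C1 j x.1 + 2 + n * C4 x.1 + n * C5 x.2) ∂Q := by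
        rw [lintegral_add_left, lintegral_const_mul]
        · exact ((hG1m.add measurable_const).add ((hC4m.comp measurable_fst).const_mul _)).add
            ((hC5m.comp measurable_snd).const_mul _)
        · exact Finset.measurable_sum _ fun j _ => (measurable_captureTime _).comp hcomb
    _ ≤ _ := by gcongr

end Pool.Agent.PM8dcc
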