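import Pool.Agent.PM8dcc.Token
import Pool.Agent.PM8dcc.MixClaim
import Pool.Agent.PM8dcc.Limit
import Pool.Agent.PM8dcc.Lower

/-!
Assembly: no optimal strategy on a large star is confluent.
-/

open MeasureTheory Set Filter
open scoped NNReal ENNReal Topology

namespace Pool.Agent.PM8dcc

open Pool.Agent.PM8dcc.StarTree

/-- the final numerical inequality -/
theorem final_ineq {x V : ℝ} (hx : 10 ^ 13 ≤ x) (hV : V ≤ 2 * x) :
    x * V + (x / 400 + 3200 * x) * 2500000 <
      x * (x / 400) + x * (V * (3200 * x) / (3200 * x + (2 * x + 2))) := by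
  have hx0 : 0 < x := by linarith
  have hD : 0 < 3200 * x + (2 * x + 2) := by linarith
  have h1 : V * (3200 * x) / (3200 * x + (2 * x + 2)) =
      V - V * (2 * x + 2) / (3200 * x + (2 * x + 2)) := by
    field_simp
    ring
  have h2 : V * (2 * x + 2) / (3200 * x + (2 * x + 2)) ≤ (4 * x + 4) / 3200 := by
    rw [div_le_iff₀ hD]
    have h3 : V * (2 * x + 2) ≤ 2 * x * (2 * x + 2) := by
      apply mul_le_mul_of_nonneg_right hV
      linarith
    nlinarith
  rw [h1]
  have h4 : x * (V - (4 * x + 4) / 3200) ≤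
      x * (V - V * (2 * x + 2) / (3200 * x + (2 * x + 2))) := by
    apply mul_le_mul_of_nonneg_left _ hx0.le
    linarith
  nlinarith

theorem no_confluent_optimal (n : ℕ) (hn : 10 ^ 13 ≤ n) :
    ¬ ∃ π : Measure C(ℝ≥0, StarTree n), IsOptimal π ∧ IsConfluent π := by
  rintro ⟨π, ⟨hπp, hπo⟩, S, hπS, hS⟩
  have : NeZero n := ⟨by omega⟩
  have hopt : ∀ π' : Measure C(ℝ≥0, StarTree n), IsProbabilityMeasure π' →
      guarantee π' ≤ guarantee π := by
    intro π' hπ'
    rw [hπo]
    exact le_iSup₂ (f := fun (π' : Measure C(ℝ≥0, StarTree n)) (_ : IsProbabilityMeasure π') =>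
      guarantee π') π' hπ'
  obtain ⟨π₀, hπ₀, hlow⟩ := exists_lower n (by omega)
  have hvlow : (31 * n / 30 : ℝ≥0∞) ≤ guarantee π := hlow.trans (hopt π₀ hπ₀)
  have hvup : guarantee π ≤ 2 * n := guarantee_le_two_mul π
  have hvfin : guarantee π ≠ ∞ := (hvup.trans_lt (by
    exact ENNReal.mul_lt_top ENNReal.ofNat_lt_top (ENNReal.natCast_lt_top n))).ne
  obtain ⟨V, hV⟩ : ∃ V : ℝ≥0, guarantee π = V := ⟨(guarantee π).toNNReal,
    (ENNReal.coe_toNNReal hvfin).symm⟩
  have hnR : (10 : ℝ) ^ 13 ≤ n := by exact_mod_cast hn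
  have hn0 : (0 : ℝ) < n := by linarith
  have hVlow : (31 * (n : ℝ) / 30) ≤ V := by
    rw [hV] at hvlow
    have := ENNReal.toReal_mono ENNReal.coe_ne_top hvlow
    simpa using this
  have hVup : (V : ℝ) ≤ 2 * n := by
    rw [hV] at hvup
    have := ENNReal.toReal_mono (by
      exact (ENNReal.mul_lt_top ENNReal.ofNat_lt_top (ENNReal.natCast_lt_top n)).ne) hvup
    simpa using this
  have hv0 : guarantee π ≠ 0 := by
    rw [hV]
    intro h
    have : V = 0 := by exact_mod_cast h
    rw [this] at hVlow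
    simp only [NNReal.coe_zero] at hVlow
    linarith
  -- parameters
  set N : ℝ≥0 := n / 400 with hN
  have hNR : (N : ℝ) = n / 400 := by
    rw [hN]
    push_cast
    rfl
  set δ : ℝ≥0 := 1 / 400 with hδ
  have hW : (1 : ℝ≥0) ≤ 1600 := by norm_num
  have hWN : (1600 : ℝ≥0) ≤ N := by
    rw [← NNReal.coe_le_coe, hNR]
    push_cast
    linarith
  have hWδ : (4 : ℝ≥0) ≤ 1600 * δ := by
    rw [hδ, ← NNReal.coe_le_coe]
    push_cast
    norm_num
  -- many hovering paths
  have hhov : (δ : ℝ≥0∞) ≤ π (⋃ i, Hov i N) := by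
    by_contra hc
    push Not at hc
    have h1 := token_bound π hS hπS N
    have h2 : guarantee π ≤ (N + 2 + n) + (N + 4 * n + 4) * δ := by
      refine h1.trans ?_
      gcongr
    rw [hV] at h2
    have h3 : (V : ℝ≥0∞) ≤ (((N + 2 + n) + (N + 4 * n + 4) * δ : ℝ≥0) : ℝ≥0∞) := by
      push_cast
      exact h2
    rw [ENNReal.coe_le_coe, ← NNReal.coe_le_coe] at h3
    push_cast at h3
    rw [hNR, hδ] at h3
    push_cast at h3
    linarith
  obtain ⟨A, Φ, hAm, hΦm, hAH, hAmass, hclaim, hequal⟩ :=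
    push_claim π hS hπS hvfin N 1600 δ hW hWN hWδ hhov
  have hA0 : π A ≠ 0 := by
    intro h
    rw [h, mul_zero, nonpos_iff_eq_zero, hδ] at hAmass
    simp at hAmass
  have hAR : A ⊆ ⋃ i, Res i N := by
    refine hAH.trans (iUnion_mono fun i => Hov_subset_Res i N)
  obtain ⟨P₂, hP₂, hmix⟩ := mix_claim π hopt hv0 N 1600 hAm hAR hA0 ((n : ℝ≥0∞)⁻¹)
    (ENNReal.inv_pos.2 (ENNReal.natCast_ne_top n))
  have hmapp : IsProbabilityMeasure (π.map Φ) := Measure.isProbabilityMeasure_map hΦm.aemeasurable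
  have hP₁ : IsProbabilityMeasure (rotAvg (π.map Φ)) := isProbabilityMeasure_rotAvg _
  have hnn0 : (n : ℝ≥0∞) ≠ 0 := natCast_ne_zero' n
  have hnnt : (n : ℝ≥0∞) ≠ ∞ := ENNReal.natCast_ne_top n
  have hmul : ∀ m, (n : ℝ≥0∞) * ∫⁻ p, captureTime m p ∂(rotAvg (π.map Φ)) =
      ∑ j : Fin n, ∫⁻ p, captureTime (rotP (-j) m) (Φ p) ∂π := by
    intro m
    rw [mul_lintegral_rotAvg]
    exact Finset.sum_congr rfl fun j _ => lintegral_map (measurable_captureTime _) hΦm
  have hsumc : ∑ _j : Fin n, guarantee π = n * guarantee π := by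
    rw [Finset.sum_const, Finset.card_univ, Fintype.card_fin, nsmul_eq_mul]
  obtain ⟨P, hP, hbetter⟩ := exists_better (rotAvg (π.map Φ)) P₂ (guarantee π) hvfin
    (by
      intro m hm
      have h1 : (n : ℝ≥0∞) * guarantee π ≤
          n * ∫⁻ p, captureTime m p ∂(rotAvg (π.map Φ)) := by
        rw [hmul, ← hsumc]
        exact Finset.sum_le_sum fun j _ => hclaim _ (hm.rotP (-j))
      exact (ENNReal.mul_le_mul_iff_right hnn0 hnnt).1 h1)
    (by
      intro m hm hle
      have hsum : ∑ j : Fin n, ∫⁻ p, captureTime (rotP (-j) m) (Φ p) ∂π ≤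
          ∑ _j : Fin n, guarantee π := by
        rw [← hmul, hsumc]
        gcongr
      have heach : ∀ j : Fin n, ∫⁻ p, captureTime (rotP (-j) m) (Φ p) ∂π ≤ guarantee π := by
        intro j
        by_contra hc
        push Not at hc
        have : ∑ _j : Fin n, guarantee π <
            ∑ j : Fin n, ∫⁻ p, captureTime (rotP (-j) m) (Φ p) ∂π := by
          have e1 := Finset.add_sum_erase Finset.univ (fun _ : Fin n => guarantee π)
            (Finset.mem_univ j)
          have e2 := Finset.add_sum_erase Finset.univ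
            (fun j : Fin n => ∫⁻ p, captureTime (rotP (-j) m) (Φ p) ∂π) (Finset.mem_univ j)
          rw [← e1, ← e2]
          refine ENNReal.add_lt_add_of_lt_of_le ?_ hc ?_
          · exact (ENNReal.sum_lt_top.2 fun _ _ => lt_top_iff_ne_top.2 hvfin).ne
          · exact Finset.sum_le_sum fun k _ => hclaim _ (hm.rotP (-k))
        exact absurd this (not_lt.2 hsum)
      have hcond : ∀ j : Fin n, ∀ᵐ p ∂π, p ∈ A → ∀ i, p ∈ Res i N →
          ((1600 : ℝ≥0) : ℝ≥0∞) < captureTime (rotP (-j) m) p →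
            captureTime (rotP (-j) m) p < N → 0 < sg i (rotP (-j) m 0) := fun j =>
        hequal _ (hm.rotP (-j)) (heach j)
      have hM := hmix m hm hcond (3200 * n)
      by_contra hc
      push Not at hc
      have hE : (n : ℝ≥0∞) * (((1600 : ℝ≥0) + 2) / (guarantee π * π A)) + 2 + n * (n : ℝ≥0∞)⁻¹ +
          n * (2 / guarantee π + (n : ℝ≥0∞)⁻¹) ≤ 2500000 := by
        rw [mul_add, ENNReal.mul_inv_cancel hnn0 hnnt]
        have i1 : (n : ℝ≥0∞) * (((1600 : ℝ≥0) + 2) / (guarantee π * π A)) ≤ 2490000 := by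
          rw [← mul_div_assoc]
          refine ENNReal.div_le_of_le_mul ?_
          have i3 : (δ : ℝ≥0∞) * guarantee π ≤ 4 * π A * guarantee π := by gcongr
          have i4 : (n : ℝ≥0∞) * ((1600 : ℝ≥0) + 2) ≤ 622500 * (δ * guarantee π) := by
            rw [hV]
            have : (n : ℝ≥0) * (1600 + 2) ≤ 622500 * (δ * V) := by
              rw [← NNReal.coe_le_coe, hδ]
              push_cast
              linarith
            exact_mod_cast this
          calc (n : ℝ≥0∞) * ((1600 : ℝ≥0) + 2) ≤ 622500 * (δ * guarantee π) := i4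
            _ ≤ 622500 * (4 * π A * guarantee π) := by gcongr
            _ = 2490000 * (guarantee π * π A) := by ring
        have i2 : (n : ℝ≥0∞) * (2 / guarantee π) ≤ 2 := by
          rw [← mul_div_assoc]
          refine ENNReal.div_le_of_le_mul ?_
          rw [hV]
          have : (n : ℝ≥0) * 2 ≤ 2 * V := by
            rw [← NNReal.coe_le_coe]
            push_cast
            linarith
          exact_mod_cast this
        calc (n : ℝ≥0∞) * (((1600 : ℝ≥0) + 2) / (guarantee π * π A)) + 2 + 1 +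
              (n * (2 / guarantee π) + 1) ≤ 2490000 + 2 + 1 + (2 + 1) := by gcongr
          _ ≤ 2500000 := by norm_num
      have hM2 : (n : ℝ≥0∞) * N + n * (guarantee π * (3200 * n : ℝ≥0) /
          ((3200 * n : ℝ≥0) + (2 * n + 2))) ≤
          n * guarantee π + (N + (3200 * n : ℝ≥0)) * 2500000 := by
        refine hM.trans ?_
        gcongr
      rw [hV] at hM2
      have hM3 : (((n : ℝ≥0) * N + n * (V * (3200 * n) / (3200 * n + (2 * n + 2))) : ℝ≥0) : ℝ≥0∞) ≤
          (((n : ℝ≥0) * V + (N + 3200 * n) * 2500000 : ℝ≥0) : ℝ≥0∞) := by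
        have hD : (3200 * (n : ℝ≥0) + (2 * n + 2)) ≠ 0 := by positivity
        rw [ENNReal.coe_add, ENNReal.coe_mul, ENNReal.coe_mul, ENNReal.coe_div hD,
          ENNReal.coe_mul]
        push_cast at hM2 ⊢
        exact hM2
      rw [ENNReal.coe_le_coe, ← NNReal.coe_le_coe] at hM3
      push_cast at hM3
      rw [hNR] at hM3
      exact absurd (final_ineq hnR hVup) (not_lt.2 hM3))
  exact absurd (hopt P hP) (not_le.2 hbetter)

end Pool.Agent.PM8dcc
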