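import Mathlib

/-!
Existence of a median.
-/

open MeasureTheory Set Filter
open scoped NNReal ENNReal Topology

namespace Pool.Agent.PM8dcc

theorem exists_median {X : Type*} [MeasurableSpace X] (μ : Measure X) [IsFiniteMeasure μ]
    {f : X → ℝ} (hf : Measurable f) (hb : ∀ x, f x ∈ Icc (-1 : ℝ) 1) :
    ∃ r : ℝ, μ univ ≤ 2 * μ {x | f x ≤ r} ∧ μ univ ≤ 2 * μ {x | r ≤ f x} := by
  by_cases h0 : μ univ = 0
  · exact ⟨0, by rw [h0]; exact zero_le, by rw [h0]; exact zero_le⟩
  set s : Set ℝ := {r | μ univ ≤ 2 * μ {x | f x ≤ r}} with hs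
  have h1 : (1 : ℝ) ∈ s := by
    have : {x | f x ≤ 1} = univ := eq_univ_of_forall fun x => (hb x).2
    rw [hs, mem_ofPred_eq, this, two_mul]
    exact le_self_add
  have hbdd : BddBelow s := by
    refine ⟨-1, fun r hr => ?_⟩
    by_contra hc
    push Not at hc
    have : {x | f x ≤ r} = ∅ := by
      rw [eq_empty_iff_forall_notMem]
      intro x hx
      have h2 := (hb x).1
      have h3 : f x ≤ r := hx
      linarith
    rw [hs, mem_ofPred_eq, this] at hr
    simp only [measure_empty, mul_zero, nonpos_iff_eq_zero] at hr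
    exact h0 hr
  set r0 := sInf s with hr0
  have hup : ∀ r, r0 < r → μ univ ≤ 2 * μ {x | f x ≤ r} := by
    intro r hr
    obtain ⟨r', hr', hlt⟩ := exists_lt_of_csInf_lt ⟨1, h1⟩ hr
    have h3 : μ univ ≤ 2 * μ {x | f x ≤ r'} := hr'
    refine h3.trans ?_
    gcongr
  have hlow : ∀ r, r < r0 → μ univ ≤ 2 * μ {x | r < f x} := by
    intro r hr
    have h2 : r ∉ s := fun h => absurd (csInf_le hbdd h) (not_le.2 hr)
    have h3 : 2 * μ {x | f x ≤ r} < μ univ := not_le.1 h2
    have h4 : μ {x | f x ≤ r} + μ {x | r < f x} = μ univ := by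
      have := measure_add_measure_compl (μ := μ) (measurableSet_le hf measurable_const :
        MeasurableSet {x | f x ≤ r})
      have h5 : {x | f x ≤ r}ᶜ = {x | r < f x} := by
        ext x
        simp
      rwa [h5] at this
    have hfin : μ {x | f x ≤ r} ≠ ∞ := measure_ne_top μ _
    by_contra hc
    push Not at hc
    have h6 : 2 * μ {x | f x ≤ r} + 2 * μ {x | r < f x} < μ univ + μ univ :=
      ENNReal.add_lt_add h3 hc
    rw [← mul_add, h4, two_mul] at h6
    exact lt_irrefl _ h6
  refine ⟨r0, ?_, ?_⟩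
  · have hset : {x | f x ≤ r0} = ⋂ k : ℕ, {x | f x ≤ r0 + 1 / ((k : ℝ) + 1)} := by
      ext x
      simp only [mem_ofPred_eq, mem_iInter]
      constructor
      · intro h k
        have : (0 : ℝ) < 1 / ((k : ℝ) + 1) := Nat.one_div_pos_of_nat
        linarith
      · intro h
        refine le_of_forall_pos_le_add fun ε hε => ?_
        obtain ⟨k, hk⟩ := exists_nat_one_div_lt hε
        linarith [h k]
    have hanti : Antitone fun k : ℕ => {x | f x ≤ r0 + 1 / ((k : ℝ) + 1)} := by
      intro k l hkl x hx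
      have h2 : f x ≤ r0 + 1 / ((l : ℝ) + 1) := hx
      have h3 : 1 / ((l : ℝ) + 1) ≤ 1 / ((k : ℝ) + 1) := Nat.one_div_le_one_div hkl
      exact h2.trans (by linarith)
    have ht := tendsto_measure_iInter_atTop (μ := μ)
      (s := fun k : ℕ => {x | f x ≤ r0 + 1 / ((k : ℝ) + 1)})
      (fun k => (measurableSet_le hf measurable_const).nullMeasurableSet) hanti
      ⟨0, measure_ne_top μ _⟩
    rw [← hset] at ht
    have ht2 := ENNReal.Tendsto.const_mul (a := 2) ht (Or.inr ENNReal.ofNat_ne_top)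
    refine ge_of_tendsto' ht2 fun k => hup _ ?_
    have : (0 : ℝ) < 1 / ((k : ℝ) + 1) := Nat.one_div_pos_of_nat
    linarith
  · have hset : {x | r0 ≤ f x} = ⋂ k : ℕ, {x | r0 - 1 / ((k : ℝ) + 1) < f x} := by
      ext x
      simp only [mem_ofPred_eq, mem_iInter]
      constructor
      · intro h k
        have : (0 : ℝ) < 1 / ((k : ℝ) + 1) := Nat.one_div_pos_of_nat
        linarith
      · intro h
        refine le_of_forall_pos_le_add fun ε hε => ?_
        obtain ⟨k, hk⟩ := exists_nat_one_div_lt hε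
        linarith [h k]
    have hanti : Antitone fun k : ℕ => {x | r0 - 1 / ((k : ℝ) + 1) < f x} := by
      intro k l hkl x hx
      have h2 : r0 - 1 / ((l : ℝ) + 1) < f x := hx
      have h3 : 1 / ((l : ℝ) + 1) ≤ 1 / ((k : ℝ) + 1) := Nat.one_div_le_one_div hkl
      exact lt_of_le_of_lt (by linarith) h2
    have ht := tendsto_measure_iInter_atTop (μ := μ)
      (s := fun k : ℕ => {x | r0 - 1 / ((k : ℝ) + 1) < f x})
      (fun k => (measurableSet_lt measurable_const hf).nullMeasurableSet) hanti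
      ⟨0, measure_ne_top μ _⟩
    rw [← hset] at ht
    have ht2 := ENNReal.Tendsto.const_mul (a := 2) ht (Or.inr ENNReal.ofNat_ne_top)
    refine ge_of_tendsto' ht2 fun k => hlow _ ?_
    have : (0 : ℝ) < 1 / ((k : ℝ) + 1) := Nat.one_div_pos_of_nat
    linarith

end Pool.Agent.PM8dcc
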