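import Pool.Agent.PM8dcc.PushClaim

/-!
The second component of the improved strategy: follow a hovering path until time `N`, then restart
the optimal strategy, rotated so that it starts in the same leg.
-/

open MeasureTheory Set Filter
open scoped NNReal ENNReal Topology

namespace Pool.Agent.PM8dcc

open Pool.Agent.PM8dcc.StarTree

variable {n : ℕ}

theorem shift_rotP [NeZero n] (a : ℝ≥0) (j : Fin n) (p : C(ℝ≥0, StarTree n)) :
    shift a (rotP j p) = rotP j (shift a p) := rfl

theorem captureTime_rotP [NeZero n] (j : Fin n) (m p : C(ℝ≥0, StarTree n)) :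
    captureTime (rotP j m) (rotP j p) = captureTime m p :=
  captureTime_comp_of_injective _ (rot_injective j) m p

theorem captureTime_rotP_right [NeZero n] (j : Fin n) (m p : C(ℝ≥0, StarTree n)) :
    captureTime m (rotP j p) = captureTime (rotP (-j) m) p := by
  rw [← captureTime_rotP j (rotP (-j) m) p, rotP_rotP, add_neg_cancel, rotP_zero]

/-! ### The leg of a point -/

open Classical in
/-- the leg of a point (leg `0` for the centre) -/
noncomputable def leg [NeZero n] (x : StarTree n) : Fin n :=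
  if h : ∃ i, 0 < sg i x then h.choose else 0

theorem leg_eq_iff [NeZero n] (x : StarTree n) (i : Fin n) :
    leg x = i ↔ 0 < sg i x ∨ (i = 0 ∧ ∀ j, ¬ 0 < sg j x) := by
  classical
  unfold leg
  split_ifs with h
  · constructor
    · intro he
      left
      rw [← he]
      exact h.choose_spec
    · rintro (h1 | ⟨-, h2⟩)
      · exact sg_pos_unique h.choose_spec h1
      · obtain ⟨j, hj⟩ := h
        exact absurd hj (h2 j)
  · constructor
    · intro he
      right
      exact ⟨he.symm, fun j hj => h ⟨j, hj⟩⟩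
    · rintro (h1 | ⟨h1, -⟩)
      · exact absurd ⟨i, h1⟩ h
      · exact h1.symm

theorem leg_eq_of_pos [NeZero n] {x : StarTree n} {i : Fin n} (h : 0 < sg i x) : leg x = i :=
  (leg_eq_iff x i).2 (Or.inl h)

theorem sg_leg [NeZero n] (x : StarTree n) : sg (leg x) x = dep x := by
  rcases (leg_eq_iff x (leg x)).1 rfl with h | ⟨-, h⟩
  · exact (dep_eq_sg h.le).symm
  · obtain ⟨i, hi⟩ := exists_sg_nonneg x
    have h1 : sg i x = 0 := le_antisymm (not_lt.1 (h i)) hi
    rw [eq_o_of_sg h1, sg_o, dep_o]

theorem measurable_leg [NeZero n] :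
    Measurable fun p : C(ℝ≥0, StarTree n) => leg (p 0) := by
  refine measurable_to_countable' fun i => ?_
  have h : (fun p : C(ℝ≥0, StarTree n) => leg (p 0)) ⁻¹' {i} =
      {p | 0 < sg i (p 0)} ∪ ({_p | i = 0} ∩ ⋂ j : Fin n, {p | sg j (p 0) ≤ 0}) := by
    ext p
    simp only [mem_preimage, mem_singleton_iff, leg_eq_iff, mem_union, mem_ofPred_eq, mem_inter_iff,
      mem_iInter, not_lt]
  rw [h]
  have hc : ∀ j : Fin n, Continuous fun p : C(ℝ≥0, StarTree n) => sg j (p 0) := fun j =>
    (continuous_sg j).comp (by fun_prop)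
  refine MeasurableSet.union ?_ (MeasurableSet.inter ?_ ?_)
  · exact (isOpen_lt continuous_const (hc i)).measurableSet
  · exact MeasurableSet.const _
  · exact MeasurableSet.iInter fun j => (isClosed_le (hc j) continuous_const).measurableSet

/-! ### The combined path -/

/-- follow `p` until time `N`, then (after time `e`) the path `q`, rotated so that it starts in
the leg of `p` -/
noncomputable def comb [NeZero n] (N e : ℝ≥0) (x : C(ℝ≥0, StarTree n) × C(ℝ≥0, StarTree n)) :
    C(ℝ≥0, StarTree n) :=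
  glue N e x.1 (rotP (leg (x.1 0) - leg (x.2 0)) x.2)

theorem measurable_comb [NeZero n] (N e : ℝ≥0) :
    Measurable (comb N e : C(ℝ≥0, StarTree n) × C(ℝ≥0, StarTree n) → C(ℝ≥0, StarTree n)) := by
  have h1 : Measurable fun z : Fin n × (C(ℝ≥0, StarTree n) × C(ℝ≥0, StarTree n)) =>
      glue N e z.2.1 (rotP z.1 z.2.2) := by
    refine measurable_from_prod_countable_right fun j => ?_
    have : Continuous fun x : C(ℝ≥0, StarTree n) × C(ℝ≥0, StarTree n) => glue N e x.1 (rotP j x.2) :=
      (continuous_glue N e).comp (continuous_fst.prodMk ((continuous_rotP j).comp continuous_snd))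
    exact this.measurable
  have h2 : Measurable fun x : C(ℝ≥0, StarTree n) × C(ℝ≥0, StarTree n) =>
      (leg (x.1 0) - leg (x.2 0), x) :=
    ((measurable_leg.comp measurable_fst).sub (measurable_leg.comp measurable_snd)).prodMk
      measurable_id
  exact h1.comp h2

/-- The pointwise estimate: outside the exceptional events the combined path is not caught
before time `N + e`. -/
theorem no_meet [NeZero n] {N W e : ℝ≥0} {i : Fin n} {m p q : C(ℝ≥0, StarTree n)}
    (hm : IsMonsterPath m) (hp : p ∈ Res i N)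
    (hcond : (W : ℝ≥0∞) < captureTime m p → captureTime m p < N → 0 < sg i (m 0))
    (h1 : ¬ captureTime m p ≤ W) (h2 : ¬ 0 < sg i (m 0)) (h3 : ¬ 0 < sg i (m N))
    (h4 : ¬ dep (p N) ≤ e) (h5 : ¬ dep (q 0) ≤ e) :
    ∀ t, t < N + e → m t ≠ comb N e (p, q) t := by
  have hN : (N : ℝ≥0∞) ≤ captureTime m p := by
    by_contra hc
    exact h2 (hcond (not_le.1 h1) (not_le.1 hc))
  have hlegp : leg (p 0) = i := leg_eq_of_pos (hp 0 zero_le)
  intro t ht he
  rcases lt_or_ge t N with h | h
  · have h6 : comb N e (p, q) t = p t := glue_of_le _ _ h.le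
    rw [h6] at he
    have := captureTime_le_of_eq he
    have h7 : (N : ℝ≥0∞) ≤ t := hN.trans this
    rw [ENNReal.coe_le_coe] at h7
    exact absurd h (not_lt.2 h7)
  · have hq : sg i (rotP (leg (p 0) - leg (q 0)) q 0) = dep (q 0) := by
      rw [rotP_apply, sg_rot, hlegp, sub_sub_cancel, sg_leg]
    have hpN : sg i (p N) = dep (p N) := (dep_eq_sg (hp N le_rfl).le).symm
    have h8 : min (sg i (p N)) (sg i (rotP (leg (p 0) - leg (q 0)) q 0)) ≤
        sg i (comb N e (p, q) t) :=
      min_le_sg_glue p _ (hp N le_rfl).le (by rw [hq]; exact dep_nonneg _) h ht.le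
    have h9 : (e : ℝ) < min (sg i (p N)) (sg i (rotP (leg (p 0) - leg (q 0)) q 0)) := by
      rw [hq, hpN]
      exact lt_min (not_le.1 h4) (not_le.1 h5)
    have h10 : sg i (m t) ≤ e := by
      have e1 := abs_sg_sub_le i (m N) (m t)
      have e2 := hm.dist_le h
      have e3 := neg_abs_le (sg i (m N) - sg i (m t))
      have e4 : (t : ℝ) < N + e := by exact_mod_cast ht
      have e5 := not_lt.1 h3
      linarith
    rw [he] at h10
    linarith

theorem exists_small {X : Type*} [MeasurableSpace X] (μ : Measure X) [IsFiniteMeasure μ]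
    {f : X → ℝ} (hf : Measurable f) {c : ℝ≥0∞} (hc : μ {x | f x ≤ 0} < c) :
    ∃ e₀ : ℝ, 0 < e₀ ∧ ∀ e, e ≤ e₀ → μ {x | f x ≤ e} ≤ c := by
  have hset : {x | f x ≤ 0} = ⋂ k : ℕ, {x | f x ≤ 1 / ((k : ℝ) + 1)} := by
    ext x
    simp only [mem_ofPred_eq, mem_iInter]
    constructor
    · intro h k
      have : (0 : ℝ) < 1 / ((k : ℝ) + 1) := Nat.one_div_pos_of_nat
      linarith
    · intro h
      refine le_of_forall_pos_le_add fun ε hε => ?_
      obtain ⟨k, hk⟩ := exists_nat_one_div_lt hε
      linarith [h k]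
  have hanti : Antitone fun k : ℕ => {x | f x ≤ 1 / ((k : ℝ) + 1)} := by
    intro k l hkl x hx
    have h2 : f x ≤ 1 / ((l : ℝ) + 1) := hx
    have h3 : 1 / ((l : ℝ) + 1) ≤ 1 / ((k : ℝ) + 1) := Nat.one_div_le_one_div hkl
    exact h2.trans h3
  have ht := tendsto_measure_iInter_atTop (μ := μ)
    (s := fun k : ℕ => {x | f x ≤ 1 / ((k : ℝ) + 1)})
    (fun k => (measurableSet_le hf measurable_const).nullMeasurableSet) hanti
    ⟨0, measure_ne_top μ _⟩
  rw [← hset] at ht
  obtain ⟨k, hk⟩ := (ht.eventually_lt_const hc).exists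
  refine ⟨1 / ((k : ℝ) + 1), Nat.one_div_pos_of_nat, fun e he => ?_⟩
  refine le_trans (measure_mono ?_) hk.le
  intro x hx
  exact le_trans hx he

end Pool.Agent.PM8dcc
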