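import Pool.Agent.PM8dcc.Resident
import Pool.Agent.PM8dcc.Median

/-!
Pushing half of the hovering paths outwards does not decrease the guarantee.
-/

open MeasureTheory Set Filter
open scoped NNReal ENNReal Topology

namespace Pool.Agent.PM8dcc

open Pool.Agent.PM8dcc.StarTree

variable {n : ℕ}

/-! ### The pushed paths -/

/-- the path `p` pushed outwards during the time interval `(W, N)` -/
noncomputable def pushP (W N : ℝ≥0) (p : C(ℝ≥0, StarTree n)) : C(ℝ≥0, StarTree n) where
  toFun := fun t => scale (1 + max 0 (min ((t : ℝ) - W) (N - t))) (p t)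
  continuous_toFun := by
    refine continuous_scale.comp (Continuous.prodMk ?_ p.continuous)
    fun_prop

theorem pushP_apply (W N : ℝ≥0) (p : C(ℝ≥0, StarTree n)) (t : ℝ≥0) :
    pushP W N p t = scale (1 + max 0 (min ((t : ℝ) - W) (N - t))) (p t) := rfl

theorem continuous_pushP (W N : ℝ≥0) :
    Continuous (pushP W N : C(ℝ≥0, StarTree n) → C(ℝ≥0, StarTree n)) := by
  refine ContinuousMap.continuous_of_continuous_uncurry _ ?_
  change Continuous (fun z : C(ℝ≥0, StarTree n) × ℝ≥0 =>
    scale (1 + max 0 (min ((z.2 : ℝ) - W) (N - z.2))) (z.1 z.2))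
  refine continuous_scale.comp (Continuous.prodMk ?_ ?_)
  · fun_prop
  · fun_prop

theorem pushP_eq {W N : ℝ≥0} (p : C(ℝ≥0, StarTree n)) {t : ℝ≥0} (h : t ≤ W ∨ N ≤ t) :
    pushP W N p t = p t := by
  rw [pushP_apply]
  have h1 : max (0 : ℝ) (min ((t : ℝ) - W) (N - t)) = 0 := by
    apply max_eq_left
    rcases h with h | h
    · have : (t : ℝ) ≤ W := by exact_mod_cast h
      exact (min_le_left _ _).trans (by linarith)
    · have : (N : ℝ) ≤ t := by exact_mod_cast h
      exact (min_le_right _ _).trans (by linarith)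
  rw [h1, add_zero, scale_one]

theorem le_sg_pushP {W N : ℝ≥0} {p : C(ℝ≥0, StarTree n)} {i : Fin n} {t : ℝ≥0}
    (h : 0 < sg i (p t)) : sg i (p t) ≤ sg i (pushP W N p t) := by
  have h1 : 0 ≤ max (0 : ℝ) (min ((t : ℝ) - W) (N - t)) := le_max_left _ _
  rw [pushP_apply, sg_scale h.le (by linarith)]
  refine le_min (sg_le_one _ _) ?_
  nlinarith

theorem lt_sg_pushP {W N : ℝ≥0} {p : C(ℝ≥0, StarTree n)} {i : Fin n} {t : ℝ≥0}
    (h : 0 < sg i (p t)) (h' : sg i (p t) < 1) (hW : W < t) (hN : t < N) :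
    sg i (p t) < sg i (pushP W N p t) := by
  have hW' : (W : ℝ) < t := by exact_mod_cast hW
  have hN' : (t : ℝ) < N := by exact_mod_cast hN
  have h1 : 0 < max (0 : ℝ) (min ((t : ℝ) - W) (N - t)) :=
    lt_max_of_lt_right (lt_min (by linarith) (by linarith))
  rw [pushP_apply, sg_scale h.le (by linarith)]
  refine lt_min h' ?_
  nlinarith

/-- If the monster catches the pushed path strictly earlier than the path itself, then it is
strictly above the path up to time `W`. -/
theorem above_of_lt {W N : ℝ≥0} {m p : C(ℝ≥0, StarTree n)} {i : Fin n} (hp : p ∈ Hov i N)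
    (h : captureTime m (pushP W N p) < captureTime m p) :
    ∀ t, t ≤ W → sg i (p t) < sg i (m t) := by
  obtain ⟨t, ht, hmt⟩ := exists_captureTime_eq (h.trans_le le_top).ne
  rw [ht] at h
  have hne : ∀ u, u ≤ t → m u ≠ p u := lt_captureTime_iff.1 h
  have htWN : W < t ∧ t < N := by
    by_contra hc
    have hc' : t ≤ W ∨ N ≤ t := by
      by_contra hcc
      push Not at hcc
      exact hc hcc
    exact hne t le_rfl (hmt.trans (pushP_eq p hc'))
  have hpt := hp t htWN.2.le
  have h1 : sg i (p t) < sg i (m t) := by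
    rw [hmt]
    exact lt_sg_pushP hpt.1 hpt.2 htWN.1 htWN.2
  intro s hs
  by_contra hc
  push Not at hc
  obtain ⟨u, -, hu, he⟩ := crossing i m p s t (hs.trans htWN.1.le) hc h1.le
    (fun r _ hr => Or.inl (hp r (hr.trans htWN.2.le)).1.le)
  exact hne u hu he

/-- If the pushed path is caught at the same time as the path itself,
then not during `(W, N)`. -/
theorem not_mem_of_eq {W N : ℝ≥0} {m p : C(ℝ≥0, StarTree n)} {i : Fin n} (hp : p ∈ Hov i N)
    (h : captureTime m (pushP W N p) = captureTime m p) (hW : (W : ℝ≥0∞) < captureTime m p)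
    (hN : captureTime m p < N) : False := by
  obtain ⟨t, ht, hmt⟩ := exists_captureTime_eq (hN.trans_le le_top).ne
  rw [ht] at h hW hN
  obtain ⟨t', ht', hmt'⟩ := exists_captureTime_eq (m := m) (p := pushP W N p)
    (by rw [h]; exact ENNReal.coe_ne_top)
  rw [ht', ENNReal.coe_inj] at h
  rw [ENNReal.coe_lt_coe] at hW hN
  rw [h, hmt] at hmt'
  have hpt := hp t hN.le
  have := lt_sg_pushP hpt.1 hpt.2 hW hN
  rw [← hmt'] at this
  exact lt_irrefl _ this

/-! ### The modified monster path -/

/-- Start at leaf `i`, run to the centre, wait there until `m` visits the centre, follow `m`. -/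
theorem exists_modified (m : C(ℝ≥0, StarTree n)) (hm : IsMonsterPath m) (i : Fin n)
    (h1 : (1 : ℝ≥0∞) ≤ captureTime m (ContinuousMap.const _ o)) :
    ∃ m' : C(ℝ≥0, StarTree n), IsMonsterPath m' ∧
      (∀ t : ℝ≥0, (t : ℝ≥0∞) ≤ captureTime m (ContinuousMap.const _ o) →
        m' t = pt i (1 - (t : ℝ))) ∧
      (∀ t : ℝ≥0, captureTime m (ContinuousMap.const _ o) ≤ (t : ℝ≥0∞) → m' t = m t) := by
  have hrun : ∀ s t : ℝ≥0, s ≤ t → dist (pt i (1 - (s : ℝ))) (pt i (1 - (t : ℝ))) ≤ (t : ℝ) - s := by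
    intro s t hst
    have hst' : (s : ℝ) ≤ t := by exact_mod_cast hst
    rw [dist_eq_of_sg_nonneg (sg_pt_nonneg i _) (sg_pt_nonneg i _), sg_pt, sg_pt]
    have e1 := abs_max_sub_max_le_abs (min 1 (1 - (s : ℝ))) (min 1 (1 - (t : ℝ))) 0
    have e2 := abs_min_sub_min_le_max 1 (1 - (s : ℝ)) 1 (1 - (t : ℝ))
    rw [max_comm 0, max_comm 0]
    refine e1.trans (e2.trans ?_)
    rw [sub_self, abs_zero]
    refine max_le (by linarith) ?_
    rw [abs_of_nonneg (by linarith)]
    linarith
  by_cases hfin : captureTime m (ContinuousMap.const _ o) = ∞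
  · refine ⟨⟨fun t => pt i (1 - (t : ℝ)), (continuous_pt i).comp (by fun_prop)⟩, ?_, ?_, ?_⟩
    · exact isMonsterPath_of_le_of_ge 0 (fun s t hst _ => hrun s t hst)
        (fun s t _ hst => hrun s t hst)
    · intro t _
      rfl
    · intro t ht
      rw [hfin] at ht
      exact absurd ht (by simp)
  · obtain ⟨b, hb, hmb⟩ := exists_captureTime_eq hfin
    rw [hb] at h1 ⊢
    have hb1 : 1 ≤ b := by exact_mod_cast h1
    have hb1' : (1 : ℝ) ≤ b := by exact_mod_cast hb1
    have hmb' : m b = o := hmb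
    have hjoin : pt i (1 - (b : ℝ)) = o := by
      apply eq_o_of_dep
      rw [dep_pt, max_eq_left]
      exact (min_le_right _ _).trans (by linarith)
    let m' : C(ℝ≥0, StarTree n) := ⟨fun t => if t ≤ b then pt i (1 - (t : ℝ)) else m t, by
      refine Continuous.if_le ((continuous_pt i).comp (by fun_prop)) m.continuous
        continuous_id continuous_const ?_
      intro t ht
      rw [show t = b from ht, hjoin, hmb']⟩
    have hle : ∀ t : ℝ≥0, t ≤ b → m' t = pt i (1 - (t : ℝ)) := fun t ht => if_pos ht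
    have hge : ∀ t : ℝ≥0, b ≤ t → m' t = m t := by
      intro t ht
      rcases ht.lt_or_eq with h | h
      · exact if_neg (not_le.2 h)
      · rw [← h, hle b le_rfl, hjoin, hmb']
    refine ⟨m', ?_, ?_, ?_⟩
    · refine isMonsterPath_of_le_of_ge b ?_ ?_
      · intro s t hst ht
        rw [hle s (hst.trans ht), hle t ht]
        exact hrun s t hst
      · intro s t hs hst
        rw [hge s hs, hge t (hs.trans hst)]
        exact hm.dist_le hst
    · intro t ht
      exact hle t (by exact_mod_cast ht)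
    · intro t ht
      exact hge t (by exact_mod_cast ht)

theorem pt_one_sub_eq_o (i : Fin n) {t : ℝ≥0} (ht : 1 ≤ t) : pt i (1 - (t : ℝ)) = o := by
  have ht' : (1 : ℝ) ≤ t := by exact_mod_cast ht
  apply eq_o_of_dep
  rw [dep_pt, max_eq_left]
  exact (min_le_right _ _).trans (by linarith)

/-- the modified path catches every resident of leg `i` up to time `1` -/
theorem captureTime_modified_le_one {N : ℝ≥0} (hN : 1 ≤ N) {m' p : C(ℝ≥0, StarTree n)} {i : Fin n}
    (hp : p ∈ Res i N) (h : ∀ t : ℝ≥0, t ≤ 1 → m' t = pt i (1 - (t : ℝ))) :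
    captureTime m' p ≤ 1 := by
  obtain ⟨u, -, hu, he⟩ := crossing i p m' 0 1 zero_le
    (by
      rw [h 0 zero_le]
      simp only [NNReal.coe_zero, sub_zero]
      rw [sg_pt_of_mem i zero_le_one le_rfl]
      exact sg_le_one _ _)
    (by
      rw [h 1 le_rfl, pt_one_sub_eq_o i le_rfl, sg_o]
      exact (hp 1 hN).le)
    (fun r _ hr => Or.inl (by rw [h r hr]; exact sg_pt_nonneg i _))
  exact (captureTime_le_of_eq he.symm).trans (by exact_mod_cast hu)

/-- the modified path is at least as good as the original one against the non-residents -/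
theorem captureTime_modified_le {S : Set C(ℝ≥0, StarTree n)} (hS : ConfluentSet S) {W N : ℝ≥0}
    (hW : 1 ≤ W) {m m' p p₀ : C(ℝ≥0, StarTree n)} {i : Fin n}
    (hp₀S : p₀ ∈ S) (hp₀ : p₀ ∈ Res i N) (hWN : W ≤ N)
    (htrap : ∀ t, t ≤ W → sg i (p₀ t) < sg i (m t)) (hpS : p ∈ S) (hp : p ∉ Res i N)
    (h1 : ∀ t : ℝ≥0, (t : ℝ≥0∞) ≤ captureTime m (ContinuousMap.const _ o) →
      m' t = pt i (1 - (t : ℝ)))
    (h2 : ∀ t : ℝ≥0, captureTime m (ContinuousMap.const _ o) ≤ (t : ℝ≥0∞) → m' t = m t) :
    captureTime m' p ≤ captureTime m p := by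
  by_cases hfin : captureTime m p = ∞
  · rw [hfin]
    exact le_top
  obtain ⟨t, ht, hmt⟩ := exists_captureTime_eq hfin
  rw [ht]
  rcases le_or_gt (captureTime m (ContinuousMap.const _ o)) (t : ℝ≥0∞) with hb | hb
  · exact captureTime_le_of_eq ((h2 t hb).trans hmt)
  have hmo : ∀ u : ℝ≥0, u ≤ t → m u ≠ o := fun u hu => (lt_captureTime_iff.1 hb) u hu
  have hm0 : 0 < sg i (m 0) := lt_trans (hp₀ 0 zero_le) (htrap 0 zero_le)
  have hmpos : ∀ u : ℝ≥0, u ≤ t → 0 < sg i (m u) := fun u hu =>
    sg_pos_of_ne_o zero_le hm0 fun w _ hw => hmo w (hw.trans hu)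
  have hpt : 0 < sg i (p t) := by
    rw [← hmt]
    exact hmpos t le_rfl
  have hm' : ∀ u : ℝ≥0, u ≤ t → m' u = pt i (1 - (u : ℝ)) := fun u hu =>
    h1 u (le_trans (by exact_mod_cast hu) hb.le)
  have habove : t ≤ W → sg i (p₀ t) < sg i (p t) := by
    intro h
    rw [← hmt]
    exact htrap t h
  have hfinish : ∀ u : ℝ≥0, u ≤ t → m' u = p u → captureTime m' p ≤ t := fun u hu he =>
    (captureTime_le_of_eq he).trans (by exact_mod_cast hu)
  by_cases hA : ∃ u, u ≤ t ∧ p u = o
  · by_cases hB : ∃ u, 1 ≤ u ∧ u ≤ t ∧ p u = o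
    · obtain ⟨u, hu1, hu2, hu3⟩ := hB
      refine hfinish u hu2 ?_
      rw [hm' u hu2, pt_one_sub_eq_o i hu1, hu3]
    · push Not at hB
      obtain ⟨u, hut, huo⟩ := hA
      have hu1 : u < 1 := by
        by_contra hc
        push Not at hc
        exact hB u hc hut huo
      rcases le_or_gt 1 t with ht1 | ht1
      · have hp1 : 0 < sg i (p 1) := sg_pos_of_ne_o' ht1 hpt fun w hw1 hw2 => hB w hw1 hw2
        obtain ⟨w, -, hw, he⟩ := crossing i p m' u 1 hu1.le
          (by
            rw [huo, sg_o, hm' u hut]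
            exact sg_pt_nonneg i _)
          (by
            rw [hm' 1 ht1, pt_one_sub_eq_o i le_rfl, sg_o]
            exact hp1.le)
          (fun r _ hr => Or.inl (by rw [hm' r (hr.trans ht1)]; exact sg_pt_nonneg i _))
        exact hfinish w (hw.trans ht1) he.symm
      · exfalso
        have hab := habove (ht1.le.trans hW)
        have hp₀u : 0 < sg i (p₀ u) := hp₀ u (hu1.le.trans (hW.trans hWN))
        obtain ⟨w, -, hw, he⟩ := crossing i p p₀ u t hut
          (by rw [huo, sg_o]; exact hp₀u.le) hab.le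
          (fun r _ hr => Or.inl (hp₀ r (hr.trans (ht1.le.trans (hW.trans hWN)))).le)
        have := hS p hpS p₀ hp₀S w he t hw
        rw [this] at hab
        exact lt_irrefl _ hab
  · push Not at hA
    have hppos : ∀ u : ℝ≥0, u ≤ t → 0 < sg i (p u) := fun u hu =>
      sg_pos_of_ne_o' hu hpt fun w _ hw => hA w hw
    rcases le_or_gt 1 t with ht1 | ht1
    · obtain ⟨w, -, hw, he⟩ := crossing i p m' 0 1 zero_le
        (by
          rw [hm' 0 zero_le]
          simp only [NNReal.coe_zero, sub_zero]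
          rw [sg_pt_of_mem i zero_le_one le_rfl]
          exact sg_le_one _ _)
        (by
          rw [hm' 1 ht1, pt_one_sub_eq_o i le_rfl, sg_o]
          exact (hppos 1 ht1).le)
        (fun r _ hr => Or.inl (by rw [hm' r (hr.trans ht1)]; exact sg_pt_nonneg i _))
      exact hfinish w (hw.trans ht1) he.symm
    · exfalso
      have hab := habove (ht1.le.trans hW)
      have hex : ∃ s, s ≤ N ∧ sg i (p s) ≤ 0 := by
        by_contra hcon
        push Not at hcon
        exact hp hcon
      obtain ⟨s, hsN, hs⟩ := hex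
      have hts : t ≤ s := by
        by_contra hc
        push Not at hc
        exact absurd (hppos s hc.le) (not_lt.2 hs)
      obtain ⟨w, -, hw, he⟩ := crossing i p₀ p t s hts hab.le
        (hs.trans (hp₀ s hsN).le)
        (fun r _ hr => Or.inr (hp₀ r (hr.trans hsN)).le)
      have h3 := hS p₀ hp₀S p hpS w he s hw
      have h4 := hp₀ s hsN
      rw [h3] at h4
      exact absurd h4 (not_lt.2 hs)

end Pool.Agent.PM8dcc
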