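import Pool.Agent.PM8dcc.Push

/-!
The pushing claim.
-/

open MeasureTheory Set Filter
open scoped NNReal ENNReal Topology

namespace Pool.Agent.PM8dcc

open Pool.Agent.PM8dcc.StarTree

variable {n : ℕ}

theorem sum_Res_le (π : Measure C(ℝ≥0, StarTree n)) [IsProbabilityMeasure π] (N : ℝ≥0) :
    ∑ i : Fin n, π (Res i N) ≤ 1 := by
  have hd : Pairwise (Function.onFun Disjoint fun i : Fin n => Res i N) := by
    intro i j hij
    rw [Function.onFun, Set.disjoint_left]
    intro p hi hj
    exact hij (Res_unique hi hj)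
  have h := measure_iUnion (μ := π) hd fun i => measurableSet_Res i N
  rw [tsum_fintype] at h
  rw [← h]
  exact prob_le_one

theorem push_claim (π : Measure C(ℝ≥0, StarTree n)) [IsProbabilityMeasure π]
    {S : Set C(ℝ≥0, StarTree n)} (hS : ConfluentSet S) (hπ : ∀ᵐ p ∂π, p ∈ S)
    (hfin : guarantee π ≠ ∞)
    (N W δ : ℝ≥0) (hW : 1 ≤ W) (hWN : W ≤ N) (hWδ : 4 ≤ W * δ)
    (hhov : (δ : ℝ≥0∞) ≤ π (⋃ i, Hov i N)) :
    ∃ (A : Set C(ℝ≥0, StarTree n)) (Φ : C(ℝ≥0, StarTree n) → C(ℝ≥0, StarTree n)),
      MeasurableSet A ∧ Measurable Φ ∧ A ⊆ (⋃ i, Hov i N) ∧ (δ : ℝ≥0∞) ≤ 4 * π A ∧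
      (∀ m, IsMonsterPath m → guarantee π ≤ ∫⁻ p, captureTime m (Φ p) ∂π) ∧
      (∀ m, IsMonsterPath m → ∫⁻ p, captureTime m (Φ p) ∂π ≤ guarantee π →
        ∀ᵐ p ∂π, p ∈ A → ∀ i, p ∈ Res i N → (W : ℝ≥0∞) < captureTime m p →
          captureTime m p < N → 0 < sg i (m 0)) := by
  classical
  have hmed : ∀ i : Fin n, ∃ r : ℝ, π (Hov i N) ≤ 2 * π (Hov i N ∩ {p | sg i (p 0) ≤ r}) ∧
      π (Hov i N) ≤ 2 * π (Hov i N ∩ {p | r ≤ sg i (p 0)}) := by
    intro i
    have hc : Continuous fun p : C(ℝ≥0, StarTree n) => sg i (p 0) :=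
      (continuous_sg i).comp (by fun_prop)
    obtain ⟨r, h1, h2⟩ := exists_median (π.restrict (Hov i N)) hc.measurable (fun p =>
      ⟨by
        have e1 := neg_dep_le_sg i (p 0)
        have e2 := dep_le_one (p 0)
        linarith, sg_le_one i (p 0)⟩)
    refine ⟨r, ?_, ?_⟩
    · rwa [Measure.restrict_apply_univ, Measure.restrict_apply'
        (measurableSet_Hov i N), inter_comm] at h1
    · rwa [Measure.restrict_apply_univ, Measure.restrict_apply'
        (measurableSet_Hov i N), inter_comm] at h2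
  choose r hr1 hr2 using hmed
  let good : Fin n → Prop := fun i => δ * π (Res i N) ≤ 2 * π (Hov i N)
  let Ai : Fin n → Set C(ℝ≥0, StarTree n) := fun i => Hov i N ∩ {p | r i ≤ sg i (p 0)}
  have hAim : ∀ i, MeasurableSet (Ai i) := by
    intro i
    refine (measurableSet_Hov i N).inter (measurableSet_le measurable_const ?_)
    exact ((continuous_sg i).comp (by fun_prop)).measurable
  let G : Finset (Fin n) := Finset.univ.filter good
  let A : Set C(ℝ≥0, StarTree n) := ⋃ i ∈ G, Ai i
  have hAm : MeasurableSet A := Finset.measurableSet_biUnion G fun i _ => hAim i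
  have hAmem : ∀ p, p ∈ A → ∃ i, good i ∧ p ∈ Ai i := by
    intro p hp
    obtain ⟨i, hi, hpi⟩ := mem_iUnion₂.1 hp
    exact ⟨i, (Finset.mem_filter.1 hi).2, hpi⟩
  have hAres : ∀ p, p ∈ A → ∀ i, p ∈ Res i N → good i ∧ p ∈ Ai i := by
    intro p hp i hpi
    obtain ⟨j, hj, hpj⟩ := hAmem p hp
    have := Res_unique (Hov_subset_Res j N hpj.1) hpi
    subst this
    exact ⟨hj, hpj⟩
  let Φ : C(ℝ≥0, StarTree n) → C(ℝ≥0, StarTree n) := fun p => if p ∈ A then pushP W N p else p
  have hΦm : Measurable Φ :=
    Measurable.ite hAm (continuous_pushP W N).measurable measurable_id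
  have hΦA : ∀ p ∈ A, Φ p = pushP W N p := fun p hp => if_pos hp
  have hΦn : ∀ p, p ∉ A → Φ p = p := fun p hp => if_neg hp
  have hΦW : ∀ p, ∀ t, t ≤ W → Φ p t = p t := by
    intro p t ht
    by_cases hp : p ∈ A
    · rw [hΦA p hp]
      exact pushP_eq p (Or.inl ht)
    · rw [hΦn p hp]
  have hΦlt : ∀ m p, captureTime m (Φ p) < captureTime m p → ∃ i, p ∈ A ∧ p ∈ Res i N ∧
      ∀ t, t ≤ W → sg i (p t) < sg i (m t) := by
    intro m p h
    by_cases hp : p ∈ A
    · obtain ⟨i, hi, hpi⟩ := hAmem p hp
      rw [hΦA p hp] at h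
      exact ⟨i, hp, Hov_subset_Res i N hpi.1, above_of_lt hpi.1 h⟩
    · rw [hΦn p hp] at h
      exact absurd h (lt_irrefl _)
  have hΦeq : ∀ m, ∀ p ∈ A, captureTime m p = captureTime m (Φ p) →
      (W : ℝ≥0∞) < captureTime m p → captureTime m p < N → False := by
    intro m p hp h hW hN
    obtain ⟨i, -, hpi⟩ := hAmem p hp
    rw [hΦA p hp] at h
    exact not_mem_of_eq hpi.1 h.symm hW hN
  -- the mass of `A`
  have hmass : (δ : ℝ≥0∞) ≤ 4 * π A := by
    have hd : (↑G : Set (Fin n)).PairwiseDisjoint Ai := by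
      intro i _ j _ hij
      rw [Function.onFun, Set.disjoint_left]
      intro p hi hj
      exact hij (Res_unique (Hov_subset_Res i N hi.1) (Hov_subset_Res j N hj.1))
    have h1 : π A = ∑ i ∈ G, π (Ai i) := measure_biUnion_finset hd fun i _ => hAim i
    have h2 : ∑ i ∈ G, π (Hov i N) ≤ 2 * π A := by
      rw [h1, Finset.mul_sum]
      exact Finset.sum_le_sum fun i _ => hr2 i
    have h3 : 2 * ∑ i ∈ Finset.univ.filter (fun i => ¬ good i), π (Hov i N) ≤ δ := by
      rw [Finset.mul_sum]
      calc ∑ i ∈ Finset.univ.filter (fun i => ¬ good i), 2 * π (Hov i N)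
          ≤ ∑ i ∈ Finset.univ.filter (fun i => ¬ good i), δ * π (Res i N) :=
            Finset.sum_le_sum fun i hi => (not_le.1 (Finset.mem_filter.1 hi).2).le
        _ ≤ ∑ i, δ * π (Res i N) :=
            Finset.sum_le_sum_of_subset (Finset.filter_subset _ _)
        _ = δ * ∑ i, π (Res i N) := (Finset.mul_sum _ _ _).symm
        _ ≤ δ * 1 := by
            gcongr
            exact sum_Res_le π N
        _ = δ := mul_one _
    have h4 : (δ : ℝ≥0∞) ≤ ∑ i, π (Hov i N) := by
      refine hhov.trans ((measure_iUnion_le _).trans ?_)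
      rw [tsum_fintype]
    have h5 : ∑ i, π (Hov i N) = ∑ i ∈ G, π (Hov i N) +
        ∑ i ∈ Finset.univ.filter (fun i => ¬ good i), π (Hov i N) :=
      (Finset.sum_filter_add_sum_filter_not _ _ _).symm
    have h6 : (δ : ℝ≥0∞) + δ ≤ 4 * π A + δ := by
      calc (δ : ℝ≥0∞) + δ = 2 * δ := (two_mul _).symm
        _ ≤ 2 * ∑ i, π (Hov i N) := by gcongr
        _ = 2 * ∑ i ∈ G, π (Hov i N) +
            2 * ∑ i ∈ Finset.univ.filter (fun i => ¬ good i), π (Hov i N) := by
            rw [h5, mul_add]
        _ ≤ 2 * (2 * π A) + δ := by gcongr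
        _ = 4 * π A + δ := by
            rw [← mul_assoc]
            norm_num
    exact (ENNReal.add_le_add_iff_right ENNReal.coe_ne_top).1 h6
  -- the main dichotomy
  have main : ∀ m, IsMonsterPath m →
      (∀ᵐ p ∂π, captureTime m p ≤ captureTime m (Φ p)) ∨
      ∃ i, 0 < sg i (m 0) ∧ guarantee π ≤ π (Res i N) +
          ∫⁻ p in (Res i N)ᶜ, captureTime m p ∂π ∧
        (∀ᵐ p ∂(π.restrict (Res i N)ᶜ), captureTime m p ≤ captureTime m (Φ p)) ∧
        π (Res i N) ≤ ∫⁻ p in Res i N, captureTime m (Φ p) ∂π := by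
    intro m hm
    by_cases hcase : ∀ p ∈ S, captureTime m p ≤ captureTime m (Φ p)
    · left
      filter_upwards [hπ] with p hp
      exact hcase p hp
    · right
      push Not at hcase
      obtain ⟨p₀, hp₀S, hp₀⟩ := hcase
      obtain ⟨i, hp₀A, hp₀R, habove⟩ := hΦlt m p₀ hp₀
      obtain ⟨hgood, hp₀i⟩ := hAres p₀ hp₀A i hp₀R
      have hm0 : 0 < sg i (m 0) := (hp₀R 0 zero_le).trans (habove 0 zero_le)
      have hmW : ∀ t, t ≤ W → 0 < sg i (m t) := fun t ht =>
        (hp₀R t (ht.trans hWN)).trans (habove t ht)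
      have hcen : (1 : ℝ≥0∞) ≤ captureTime m (ContinuousMap.const _ o) := by
        have : ((W : ℝ≥0) : ℝ≥0∞) < captureTime m (ContinuousMap.const _ o) := by
          rw [lt_captureTime_iff]
          intro t ht he
          have h1 := hmW t ht
          rw [he] at h1
          simp at h1
        exact le_trans (by exact_mod_cast hW) this.le
      obtain ⟨m', hm', h1, h2⟩ := exists_modified m hm i hcen
      refine ⟨i, hm0, ?_, ?_, ?_⟩
      · calc guarantee π ≤ ∫⁻ p, captureTime m' p ∂π := guarantee_le_of_path π hm'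
          _ = ∫⁻ p in Res i N, captureTime m' p ∂π + ∫⁻ p in (Res i N)ᶜ, captureTime m' p ∂π :=
              (lintegral_add_compl _ (measurableSet_Res i N)).symm
          _ ≤ ∫⁻ _p in Res i N, 1 ∂π + ∫⁻ p in (Res i N)ᶜ, captureTime m p ∂π := by
              gcongr ?_ + ?_
              · refine setLIntegral_mono' (measurableSet_Res i N) fun p hp => ?_
                exact captureTime_modified_le_one (hW.trans hWN) hp fun t ht =>
                  h1 t (le_trans (by exact_mod_cast ht) hcen)
              · refine lintegral_mono_ae ?_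
                rw [ae_restrict_iff' (measurableSet_Res i N).compl]
                filter_upwards [hπ] with p hpS hpR
                exact captureTime_modified_le hS hW hp₀S hp₀R hWN habove hpS hpR h1 h2
          _ = _ := by rw [setLIntegral_const, one_mul]
      · rw [ae_restrict_iff' (measurableSet_Res i N).compl]
        refine Eventually.of_forall fun p hpR => ?_
        by_contra hc
        push Not at hc
        obtain ⟨j, -, hpj, hj⟩ := hΦlt m p hc
        have e1 : 0 < sg j (m 0) := (hpj 0 zero_le).trans (hj 0 zero_le)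
        have e2 := sg_pos_unique e1 hm0
        subst e2
        exact hpR hpj
      · -- the lower half
        set Low := Hov i N ∩ {p | sg i (p 0) ≤ r i} with hLow
        have hLowm : MeasurableSet Low := by
          refine (measurableSet_Hov i N).inter (measurableSet_le ?_ measurable_const)
          exact ((continuous_sg i).comp (by fun_prop)).measurable
        have h5 : (W : ℝ≥0∞) * π Low ≤ ∫⁻ p in Res i N, captureTime m (Φ p) ∂π := by
          calc (W : ℝ≥0∞) * π Low = ∫⁻ _p in Low, (W : ℝ≥0∞) ∂π := by rw [setLIntegral_const]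
            _ ≤ ∫⁻ p in Low, captureTime m (Φ p) ∂π := by
                refine lintegral_mono_ae ?_
                rw [ae_restrict_iff' hLowm]
                filter_upwards [hπ] with q hqS hq
                refine le_captureTime_of_ne fun t ht he => ?_
                rw [hΦW q t ht.le] at he
                have hqR := Hov_subset_Res i N hq.1
                have h6 : sg i (q 0) ≤ sg i (p₀ 0) := le_trans hq.2 hp₀i.2
                have h7 := order_persist hS hqS hp₀S hqR (zero_le (a := t))
                  (ht.le.trans hWN) h6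
                have h8 := habove t ht.le
                rw [he] at h8
                exact absurd h8 (not_lt.2 h7)
            _ ≤ ∫⁻ p in Res i N, captureTime m (Φ p) ∂π :=
                lintegral_mono_set (inter_subset_left.trans (Hov_subset_Res i N))
        have h6 : 4 * π (Res i N) ≤ 4 * ((W : ℝ≥0∞) * π Low) := by
          calc 4 * π (Res i N) ≤ (W * δ : ℝ≥0) * π (Res i N) := by
                gcongr
                exact_mod_cast hWδ
            _ = W * (δ * π (Res i N)) := by
                push_cast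
                ring
            _ ≤ W * (2 * π (Hov i N)) := by
                gcongr
            _ ≤ W * (2 * (2 * π Low)) := by
                gcongr
                exact hr1 i
            _ = 4 * ((W : ℝ≥0∞) * π Low) := by ring
        exact ((ENNReal.mul_le_mul_iff_right (by norm_num) (by norm_num)).1 h6).trans h5
  refine ⟨A, Φ, hAm, hΦm, ?_, hmass, ?_, ?_⟩
  · intro p hp
    obtain ⟨i, -, hpi⟩ := hAmem p hp
    exact mem_iUnion.2 ⟨i, hpi.1⟩
  · intro m hm
    rcases main m hm with h | ⟨i, -, h1, h2, h3⟩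
    · exact (guarantee_le_of_path π hm).trans (lintegral_mono_ae h)
    · calc guarantee π ≤ π (Res i N) + ∫⁻ p in (Res i N)ᶜ, captureTime m p ∂π := h1
        _ ≤ ∫⁻ p in Res i N, captureTime m (Φ p) ∂π +
            ∫⁻ p in (Res i N)ᶜ, captureTime m (Φ p) ∂π := by
            exact add_le_add h3 (lintegral_mono_ae h2)
        _ = _ := lintegral_add_compl _ (measurableSet_Res i N)
  · intro m hm hle
    have hmeas : Measurable fun p => captureTime m (Φ p) := (measurable_captureTime m).comp hΦm
    rcases main m hm with h | ⟨i, h0, h1, h2, h3⟩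
    · have hint : ∫⁻ p, captureTime m p ∂π ≠ ∞ :=
        (((lintegral_mono_ae h).trans hle).trans_lt (lt_top_iff_ne_top.2 hfin)).ne
      have heq := ae_eq_of_ae_le_of_lintegral_le h hint hmeas.aemeasurable
        (hle.trans (guarantee_le_of_path π hm))
      filter_upwards [heq] with p hp hpA j _ hW' hN'
      exact (hΦeq m p hpA hp hW' hN').elim
    · have hsplit : ∫⁻ p in Res i N, captureTime m (Φ p) ∂π +
          ∫⁻ p in (Res i N)ᶜ, captureTime m (Φ p) ∂π = ∫⁻ p, captureTime m (Φ p) ∂π :=
        lintegral_add_compl _ (measurableSet_Res i N)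
      have hle2 : ∫⁻ p in (Res i N)ᶜ, captureTime m (Φ p) ∂π ≤
          ∫⁻ p in (Res i N)ᶜ, captureTime m p ∂π := by
        have h4 : π (Res i N) + ∫⁻ p in (Res i N)ᶜ, captureTime m (Φ p) ∂π ≤
            π (Res i N) + ∫⁻ p in (Res i N)ᶜ, captureTime m p ∂π := by
          calc π (Res i N) + ∫⁻ p in (Res i N)ᶜ, captureTime m (Φ p) ∂π
              ≤ ∫⁻ p in Res i N, captureTime m (Φ p) ∂π +
                ∫⁻ p in (Res i N)ᶜ, captureTime m (Φ p) ∂π := by gcongr
            _ = ∫⁻ p, captureTime m (Φ p) ∂π := hsplit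
            _ ≤ guarantee π := hle
            _ ≤ _ := h1
        exact (ENNReal.add_le_add_iff_left (measure_ne_top π _)).1 h4
      have hint : ∫⁻ p in (Res i N)ᶜ, captureTime m p ∂π ≠ ∞ := by
        have h5 : ∫⁻ p in (Res i N)ᶜ, captureTime m p ∂π ≤ guarantee π := by
          calc ∫⁻ p in (Res i N)ᶜ, captureTime m p ∂π
              ≤ ∫⁻ p in (Res i N)ᶜ, captureTime m (Φ p) ∂π := lintegral_mono_ae h2
            _ ≤ ∫⁻ p, captureTime m (Φ p) ∂π := by
                rw [← hsplit]
                exact le_add_self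
            _ ≤ guarantee π := hle
        exact (h5.trans_lt (lt_top_iff_ne_top.2 hfin)).ne
      have heq := ae_eq_of_ae_le_of_lintegral_le h2 hint hmeas.aemeasurable hle2
      rw [Filter.EventuallyEq, ae_restrict_iff' (measurableSet_Res i N).compl] at heq
      filter_upwards [heq] with p hp hpA j hpj hW' hN'
      by_cases hij : j = i
      · rw [hij]
        exact h0
      · have hpn : p ∈ (Res i N)ᶜ := fun hpi => hij (Res_unique hpj hpi)
        exact (hΦeq m p hpA (hp hpn) hW' hN').elim

end Pool.Agent.PM8dcc
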