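import Pool.Agent.PM8dcc.Value

/-!
Residents of a leg: the princess paths that stay in one leg, away from the centre, up to time `N`.
-/

open MeasureTheory Set Filter
open scoped NNReal ENNReal Topology

namespace Pool.Agent.PM8dcc

open Pool.Agent.PM8dcc.StarTree

variable {n : ℕ}

/-- the residents of leg `i` up to time `N` -/
def Res (i : Fin n) (N : ℝ≥0) : Set C(ℝ≥0, StarTree n) := {p | ∀ t ≤ N, 0 < sg i (p t)}

/-- the residents of leg `i` that do not visit the leaf up to time `N` -/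
def Hov (i : Fin n) (N : ℝ≥0) : Set C(ℝ≥0, StarTree n) :=
  {p | ∀ t ≤ N, 0 < sg i (p t) ∧ sg i (p t) < 1}

theorem Hov_subset_Res (i : Fin n) (N : ℝ≥0) : Hov i N ⊆ Res i N := fun _ hp t ht => (hp t ht).1

theorem measurableSet_Res (i : Fin n) (N : ℝ≥0) : MeasurableSet (Res i N) := by
  have h : Res i N = {p : C(ℝ≥0, StarTree n) | MapsTo p (Icc 0 N) {x | 0 < sg i x}} := by
    ext p
    constructor
    · intro hp t ht
      exact hp t ht.2
    · intro hp t ht
      exact hp ⟨zero_le, ht⟩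
  rw [h]
  exact (ContinuousMap.isOpen_setOfPred_mapsTo isCompact_Icc
    (isOpen_lt continuous_const (continuous_sg i))).measurableSet

theorem measurableSet_Hov (i : Fin n) (N : ℝ≥0) : MeasurableSet (Hov i N) := by
  have h : Hov i N = {p : C(ℝ≥0, StarTree n) | MapsTo p (Icc 0 N) {x | 0 < sg i x ∧ sg i x < 1}} := by
    ext p
    constructor
    · intro hp t ht
      exact hp t ht.2
    · intro hp t ht
      exact hp ⟨zero_le, ht⟩
  rw [h]
  exact (ContinuousMap.isOpen_setOfPred_mapsTo isCompact_Icc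
    ((isOpen_lt continuous_const (continuous_sg i)).inter
      (isOpen_lt (continuous_sg i) continuous_const))).measurableSet

theorem Res_unique {i j : Fin n} {N : ℝ≥0} {p : C(ℝ≥0, StarTree n)} (hi : p ∈ Res i N)
    (hj : p ∈ Res j N) : i = j :=
  sg_pos_unique (hi 0 zero_le) (hj 0 zero_le)

/-- a path that starts in the open leg `i` and is never at the centre up to time `t` is still in
the open leg `i` at time `t` -/
theorem sg_pos_of_ne_o {i : Fin n} {p : C(ℝ≥0, StarTree n)} {s t : ℝ≥0} (hst : s ≤ t)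
    (h0 : 0 < sg i (p s)) (h : ∀ u, s ≤ u → u ≤ t → p u ≠ o) : 0 < sg i (p t) := by
  by_contra hc
  push Not at hc
  have hco : ContinuousOn (fun u : ℝ≥0 => sg i (p u)) (Icc s t) :=
    ((continuous_sg i).comp p.continuous).continuousOn
  obtain ⟨u, ⟨hu1, hu2⟩, hu⟩ := intermediate_value_Icc' hst hco ⟨hc, h0.le⟩
  exact h u hu1 hu2 (eq_o_of_sg hu)

/-- backward version of `sg_pos_of_ne_o` -/
theorem sg_pos_of_ne_o' {i : Fin n} {p : C(ℝ≥0, StarTree n)} {s t : ℝ≥0} (hst : s ≤ t)
    (h0 : 0 < sg i (p t)) (h : ∀ u, s ≤ u → u ≤ t → p u ≠ o) : 0 < sg i (p s) := by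
  by_contra hc
  push Not at hc
  have hco : ContinuousOn (fun u : ℝ≥0 => sg i (p u)) (Icc s t) :=
    ((continuous_sg i).comp p.continuous).continuousOn
  obtain ⟨u, ⟨hu1, hu2⟩, hu⟩ := intermediate_value_Icc hst hco ⟨hc, h0.le⟩
  exact h u hu1 hu2 (eq_o_of_sg hu)

/-- a path either visits the centre up to time `N` or is a resident of some leg -/
theorem visit_or_resident [NeZero n] (p : C(ℝ≥0, StarTree n)) (N : ℝ≥0) :
    (∃ t, t ≤ N ∧ p t = o) ∨ ∃ i, p ∈ Res i N := by
  by_cases h : ∃ t, t ≤ N ∧ p t = o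
  · exact Or.inl h
  · right
    push Not at h
    obtain ⟨i, hi⟩ := exists_sg_nonneg (p 0)
    have hi' : 0 < sg i (p 0) := by
      rcases hi.lt_or_eq with h1 | h1
      · exact h1
      · exact absurd (eq_o_of_sg h1.symm) (h 0 zero_le)
    exact ⟨i, fun t ht => sg_pos_of_ne_o zero_le hi' fun u _ hu => h u (hu.trans ht)⟩

/-- Confluence: the order of two residents of the same leg at time `s` persists up to time `N`. -/
theorem order_persist {S : Set C(ℝ≥0, StarTree n)} (hS : ConfluentSet S) {i : Fin n} {N : ℝ≥0}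
    {p q : C(ℝ≥0, StarTree n)} (hpS : p ∈ S) (hqS : q ∈ S) (hp : p ∈ Res i N)
    {s t : ℝ≥0} (hst : s ≤ t) (ht : t ≤ N)
    (h : sg i (p s) ≤ sg i (q s)) : sg i (p t) ≤ sg i (q t) := by
  by_contra hc
  push Not at hc
  obtain ⟨u, -, hu, he⟩ := crossing i p q s t hst h hc.le
    (fun r _ hr => Or.inr (hp r (hr.trans ht)).le)
  have := hS p hpS q hqS u he t hu
  rw [this] at hc
  exact lt_irrefl _ hc

/-- Two residents of leg `i` in a confluent set which both visit the leaf up to time `N`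
coincide from time `N` on. -/
theorem tokens_coincide {S : Set C(ℝ≥0, StarTree n)} (hS : ConfluentSet S) {i : Fin n} {N : ℝ≥0}
    {p q : C(ℝ≥0, StarTree n)} (hpS : p ∈ S) (hqS : q ∈ S) (hp : p ∈ Res i N) (hq : q ∈ Res i N)
    {s t : ℝ≥0} (hs : s ≤ N) (ht : t ≤ N) (hps : sg i (p s) = 1) (hqt : sg i (q t) = 1)
    {r : ℝ≥0} (hr : N ≤ r) : p r = q r := by
  rcases le_total s t with h | h
  · obtain ⟨u, -, hu, he⟩ := crossing i q p s t h
      (by rw [hps]; exact sg_le_one _ _) (by rw [hqt]; exact sg_le_one _ _)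
      (fun w _ hw => Or.inr (hq w (hw.trans ht)).le)
    exact (hS q hqS p hpS u he r ((hu.trans ht).trans hr)).symm
  · obtain ⟨u, -, hu, he⟩ := crossing i p q t s h
      (by rw [hqt]; exact sg_le_one _ _) (by rw [hps]; exact sg_le_one _ _)
      (fun w _ hw => Or.inr (hp w (hw.trans hs)).le)
    exact hS p hpS q hqS u he r ((hu.trans hs).trans hr)

end Pool.Agent.PM8dcc
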