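import Pool.Agent.PM8dcc.Defs

/-!
Basic facts on the star: signed leg coordinate, depth, rotations, scaling, bridges.
-/

open MeasureTheory Set
open scoped NNReal ENNReal

namespace Pool.Agent.PM8dcc

namespace StarTree

variable {n : ℕ}

/-- the centre -/
def o : StarTree n := ⟨fun _ => 0, fun _ => le_rfl, fun _ => zero_le_one, fun _ _ _ => Or.inl rfl⟩

/-- the point of leg `i` at depth `r` (clamped to `[0,1]`) -/
noncomputable def pt (i : Fin n) (r : ℝ) : StarTree n where
  c := fun k => if k = i then max 0 (min 1 r) else 0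
  nonneg := fun k => by split_ifs <;> simp
  le_one := fun k => by split_ifs <;> simp
  single := fun k l h => by
    by_cases hk : k = i
    · right
      rw [if_neg]
      rintro rfl
      exact h hk
    · left
      rw [if_neg hk]

/-- the depth: distance to the centre -/
noncomputable def dep (x : StarTree n) : ℝ := ∑ k, x.c k

/-- signed coordinate with respect to leg `i`: the depth for a point of leg `i`,
minus the depth for the other points -/
noncomputable def sg (i : Fin n) (x : StarTree n) : ℝ := 2 * x.c i - dep x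

theorem dist_def (x y : StarTree n) : dist x y = ∑ i, |x.c i - y.c i| := rfl

theorem abs_c_sub_le (i : Fin n) (x y : StarTree n) : |x.c i - y.c i| ≤ dist x y := by
  rw [dist_def]
  exact Finset.single_le_sum (f := fun k => |x.c k - y.c k|) (fun k _ => abs_nonneg _)
    (Finset.mem_univ i)

theorem continuous_of_abs_le {f : StarTree n → ℝ} (h : ∀ x y, |f x - f y| ≤ dist x y) :
    Continuous f := by
  have : LipschitzWith 1 f := LipschitzWith.of_dist_le_mul (fun x y => by
    rw [Real.dist_eq]
    simpa using h x y)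
  exact this.continuous

theorem continuous_c (i : Fin n) : Continuous (fun x : StarTree n => x.c i) :=
  continuous_of_abs_le (abs_c_sub_le i)

theorem abs_dep_sub_le (x y : StarTree n) : |dep x - dep y| ≤ dist x y := by
  rw [dist_def, dep, dep, ← Finset.sum_sub_distrib]
  exact Finset.abs_sum_le_sum_abs _ _

theorem continuous_dep : Continuous (dep : StarTree n → ℝ) :=
  continuous_of_abs_le abs_dep_sub_le

theorem sg_eq (i : Fin n) (x : StarTree n) : sg i x = x.c i - ∑ k ∈ Finset.univ.erase i, x.c k := by
  rw [sg, dep, ← Finset.add_sum_erase Finset.univ x.c (Finset.mem_univ i)]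
  ring

theorem abs_sg_sub_le (i : Fin n) (x y : StarTree n) : |sg i x - sg i y| ≤ dist x y := by
  rw [sg_eq, sg_eq, dist_def, ← Finset.add_sum_erase Finset.univ _ (Finset.mem_univ i)]
  have h1 : |∑ k ∈ Finset.univ.erase i, x.c k - ∑ k ∈ Finset.univ.erase i, y.c k| ≤
      ∑ k ∈ Finset.univ.erase i, |x.c k - y.c k| := by
    rw [← Finset.sum_sub_distrib]
    exact Finset.abs_sum_le_sum_abs _ _
  have h2 := abs_sub_abs_le_abs_sub (x.c i) (y.c i)
  rw [abs_le] at *
  have h3 := neg_abs_le (x.c i - y.c i)
  have h4 := le_abs_self (x.c i - y.c i)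
  constructor <;> linarith [h1.1, h1.2]

theorem continuous_sg (i : Fin n) : Continuous (sg i : StarTree n → ℝ) :=
  continuous_of_abs_le (abs_sg_sub_le i)

theorem dep_nonneg (x : StarTree n) : 0 ≤ dep x := Finset.sum_nonneg fun k _ => x.nonneg k

theorem eq_zero_of_ne {x : StarTree n} {i : Fin n} (h : 0 < x.c i) {k : Fin n} (hk : k ≠ i) :
    x.c k = 0 := by
  rcases x.single k i hk with h1 | h1
  · exact h1
  · exact absurd h1 h.ne'

theorem dep_eq_of_pos {x : StarTree n} {i : Fin n} (h : 0 < x.c i) : dep x = x.c i := by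
  rw [dep, Finset.sum_eq_single i]
  · intro b _ hb
    exact eq_zero_of_ne h hb
  · intro h
    exact absurd (Finset.mem_univ i) h

theorem sg_eq_of_pos {x : StarTree n} {i : Fin n} (h : 0 < x.c i) : sg i x = x.c i := by
  rw [sg, dep_eq_of_pos h]
  ring

theorem c_pos_of_sg_pos {x : StarTree n} {i : Fin n} (h : 0 < sg i x) : 0 < x.c i := by
  rw [sg] at h
  have := dep_nonneg x
  linarith

theorem sg_pos_iff {x : StarTree n} {i : Fin n} : 0 < sg i x ↔ 0 < x.c i :=
  ⟨c_pos_of_sg_pos, fun h => by rw [sg_eq_of_pos h]; exact h⟩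

theorem abs_sg (i : Fin n) (x : StarTree n) : |sg i x| = dep x := by
  rcases (x.nonneg i).lt_or_eq with h | h
  · rw [sg_eq_of_pos h, dep_eq_of_pos h, abs_of_pos h]
  · rw [sg, ← h, mul_zero, zero_sub, abs_neg, abs_of_nonneg (dep_nonneg x)]

theorem sg_le_dep (i : Fin n) (x : StarTree n) : sg i x ≤ dep x := by
  rw [← abs_sg i x]
  exact le_abs_self _

theorem neg_dep_le_sg (i : Fin n) (x : StarTree n) : - dep x ≤ sg i x := by
  rw [← abs_sg i x]
  exact neg_abs_le _

theorem dep_le_one (x : StarTree n) : dep x ≤ 1 := by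
  by_cases h : ∃ i, 0 < x.c i
  · obtain ⟨i, hi⟩ := h
    rw [dep_eq_of_pos hi]
    exact x.le_one i
  · push Not at h
    rw [dep, Finset.sum_eq_zero]
    · exact zero_le_one
    · intro i _
      exact le_antisymm (h i) (x.nonneg i)

theorem sg_le_one (i : Fin n) (x : StarTree n) : sg i x ≤ 1 := (sg_le_dep i x).trans (dep_le_one x)

theorem dep_eq_sg {i : Fin n} {x : StarTree n} (h : 0 ≤ sg i x) : dep x = sg i x := by
  rw [← abs_sg i x, abs_of_nonneg h]

theorem c_eq_of_sg_nonneg {i : Fin n} {x : StarTree n} (h : 0 ≤ sg i x) (k : Fin n) :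
    x.c k = if k = i then sg i x else 0 := by
  rcases (x.nonneg i).lt_or_eq with h1 | h1
  · split_ifs with hk
    · rw [hk, sg_eq_of_pos h1]
    · exact eq_zero_of_ne h1 hk
  · have h2 : dep x = 0 := by
      rw [sg, ← h1] at h
      have := dep_nonneg x
      linarith
    have h3 : sg i x = 0 := by
      rw [sg, ← h1, h2]
      ring
    rw [h3, ite_self]
    rw [dep] at h2
    exact (Finset.sum_eq_zero_iff_of_nonneg (fun k _ => x.nonneg k)).1 h2 k (Finset.mem_univ k)

theorem eq_of_sg_eq {i : Fin n} {x y : StarTree n} (h : sg i x = sg i y) (h0 : 0 ≤ sg i x) :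
    x = y := by
  ext k
  rw [c_eq_of_sg_nonneg h0, c_eq_of_sg_nonneg (h ▸ h0), h]

theorem exists_sg_nonneg [NeZero n] (x : StarTree n) : ∃ i, 0 ≤ sg i x := by
  by_cases h : ∃ i, 0 < x.c i
  · obtain ⟨i, hi⟩ := h
    exact ⟨i, (sg_pos_iff.2 hi).le⟩
  · push Not at h
    refine ⟨0, ?_⟩
    have h1 : dep x = 0 := by
      rw [dep, Finset.sum_eq_zero]
      intro i _
      exact le_antisymm (h i) (x.nonneg i)
    rw [sg, h1]
    have := x.nonneg 0
    linarith

theorem sg_pos_unique {i j : Fin n} {x : StarTree n} (hi : 0 < sg i x) (hj : 0 < sg j x) : i = j := by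
  by_contra h
  have h1 := c_pos_of_sg_pos hi
  have h2 := c_pos_of_sg_pos hj
  rw [eq_zero_of_ne h2 h] at h1
  exact lt_irrefl _ h1

@[simp] theorem dep_o : dep (o : StarTree n) = 0 := by simp [dep, o]

@[simp] theorem sg_o (i : Fin n) : sg i (o : StarTree n) = 0 := by simp [sg, o, dep]

theorem eq_o_of_dep {x : StarTree n} (h : dep x = 0) : x = o := by
  ext k
  rw [dep] at h
  exact (Finset.sum_eq_zero_iff_of_nonneg (fun k _ => x.nonneg k)).1 h k (Finset.mem_univ k)

theorem eq_o_of_sg {i : Fin n} {x : StarTree n} (h : sg i x = 0) : x = o := by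
  apply eq_o_of_dep
  rw [← abs_sg i x, h, abs_zero]

theorem dist_o (x : StarTree n) : dist x o = dep x := by
  rw [dist_def, dep]
  refine Finset.sum_congr rfl fun i _ => ?_
  simp [o, abs_of_nonneg (x.nonneg i)]

theorem o_dist (x : StarTree n) : dist o x = dep x := by rw [dist_comm, dist_o]

theorem dist_le_dep_add (x y : StarTree n) : dist x y ≤ dep x + dep y := by
  rw [← dist_o x, ← o_dist y]
  exact dist_triangle _ _ _

theorem dist_le_two (x y : StarTree n) : dist x y ≤ 2 := by
  have := dist_le_dep_add x y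
  have := dep_le_one x
  have := dep_le_one y
  linarith

theorem dist_eq_of_sg_nonneg {i : Fin n} {x y : StarTree n} (hx : 0 ≤ sg i x) (hy : 0 ≤ sg i y) :
    dist x y = |sg i x - sg i y| := by
  rw [dist_def, Finset.sum_eq_single i]
  · rw [c_eq_of_sg_nonneg hx, c_eq_of_sg_nonneg hy, if_pos rfl, if_pos rfl]
  · intro k _ hk
    rw [c_eq_of_sg_nonneg hx, c_eq_of_sg_nonneg hy, if_neg hk, if_neg hk]
    simp
  · intro h
    exact absurd (Finset.mem_univ i) h

theorem dist_eq_add {i j : Fin n} (hij : i ≠ j) {x y : StarTree n} (hx : 0 < sg i x)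
    (hy : 0 ≤ sg j y) : dist x y = dep x + dep y := by
  have hy' : ∀ k, y.c k = if k = j then sg j y else 0 := c_eq_of_sg_nonneg hy
  have hx' : ∀ k, x.c k = if k = i then sg i x else 0 := c_eq_of_sg_nonneg hx.le
  rw [dist_def, dep, dep, ← Finset.sum_add_distrib]
  refine Finset.sum_congr rfl fun k _ => ?_
  rcases x.single i j hij with h | h
  · exact absurd h (c_pos_of_sg_pos hx).ne'
  · by_cases hk : k = j
    · rw [hk, h, zero_sub, abs_neg, abs_of_nonneg (y.nonneg j), zero_add]
    · rw [hy' k, if_neg hk, sub_zero, abs_of_nonneg (x.nonneg k), add_zero]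

theorem sg_pt (i : Fin n) (r : ℝ) : sg i (pt i r) = max 0 (min 1 r) := by
  have h : dep (pt i r) = max 0 (min 1 r) := by
    simp [dep, pt]
  rw [sg, h]
  simp only [pt, if_true]
  ring

theorem dep_pt (i : Fin n) (r : ℝ) : dep (pt i r) = max 0 (min 1 r) := by
  simp [dep, pt]

theorem sg_pt_of_mem (i : Fin n) {r : ℝ} (h0 : 0 ≤ r) (h1 : r ≤ 1) : sg i (pt i r) = r := by
  rw [sg_pt, min_eq_right h1, max_eq_right h0]

theorem dep_pt_of_mem (i : Fin n) {r : ℝ} (h0 : 0 ≤ r) (h1 : r ≤ 1) : dep (pt i r) = r := by
  rw [dep_pt, min_eq_right h1, max_eq_right h0]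

theorem sg_pt_nonneg (i : Fin n) (r : ℝ) : 0 ≤ sg i (pt i r) := by
  rw [sg_pt]
  exact le_max_left _ _

theorem pt_zero (i : Fin n) : pt i 0 = o := by
  ext k
  simp [pt, o]

theorem pt_sg {i : Fin n} {x : StarTree n} (h : 0 ≤ sg i x) : pt i (sg i x) = x := by
  apply eq_of_sg_eq (i := i)
  · rw [sg_pt_of_mem i h (sg_le_one i x)]
  · exact sg_pt_nonneg i _

theorem continuous_pt (i : Fin n) : Continuous (fun r : ℝ => pt i r) := by
  have h : LipschitzWith 1 (fun r : ℝ => pt i r) := by
    refine LipschitzWith.of_dist_le_mul fun r s => ?_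
    rw [dist_eq_of_sg_nonneg (sg_pt_nonneg i r) (sg_pt_nonneg i s), sg_pt, sg_pt, Real.dist_eq]
    simp only [NNReal.coe_one, one_mul]
    have h1 := abs_max_sub_max_le_abs (min 1 r) (min 1 s) 0
    have h2 := abs_min_sub_min_le_max 1 r 1 s
    rw [max_comm 0, max_comm 0]
    refine h1.trans (h2.trans ?_)
    simp
  exact h.continuous

instance compactSpace [NeZero n] : CompactSpace (StarTree n) := by
  have h : (univ : Set (StarTree n)) = ⋃ i : Fin n, (fun r : ℝ => pt i r) '' Icc 0 1 := by
    symm
    rw [eq_univ_iff_forall]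
    intro x
    obtain ⟨i, hi⟩ := exists_sg_nonneg x
    rw [mem_iUnion]
    exact ⟨i, sg i x, ⟨hi, sg_le_one i x⟩, pt_sg hi⟩
  refine ⟨?_⟩
  rw [h]
  exact isCompact_iUnion fun i => isCompact_Icc.image (continuous_pt i)

/-- The crossing lemma: if `p` is below `q` (in the signed coordinate of leg `i`) at time `a`
and above it at time `b`, and at each time in between one of the two is in leg `i`,
then they meet. -/
theorem crossing (i : Fin n) (p q : C(ℝ≥0, StarTree n)) (a b : ℝ≥0) (hab : a ≤ b)
    (h1 : sg i (p a) ≤ sg i (q a)) (h2 : sg i (q b) ≤ sg i (p b))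
    (h3 : ∀ t, a ≤ t → t ≤ b → 0 ≤ sg i (q t) ∨ 0 ≤ sg i (p t)) :
    ∃ t, a ≤ t ∧ t ≤ b ∧ p t = q t := by
  have hc : ContinuousOn (fun t : ℝ≥0 => sg i (p t) - sg i (q t)) (Icc a b) :=
    (((continuous_sg i).comp p.continuous).sub ((continuous_sg i).comp q.continuous)).continuousOn
  have := intermediate_value_Icc hab hc
  have h0 : (0 : ℝ) ∈ Icc (sg i (p a) - sg i (q a)) (sg i (p b) - sg i (q b)) :=
    ⟨by linarith, by linarith⟩
  obtain ⟨t, ⟨ht1, ht2⟩, ht⟩ := this h0
  refine ⟨t, ht1, ht2, ?_⟩
  have he : sg i (p t) = sg i (q t) := by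
    have : sg i (p t) - sg i (q t) = 0 := ht
    linarith
  rcases h3 t ht1 ht2 with h | h
  · exact eq_of_sg_eq he (he ▸ h)
  · exact eq_of_sg_eq he h

/-! ### Rotations -/

/-- rotation of the legs: leg `i` goes to leg `i + j` -/
def rot [NeZero n] (j : Fin n) (x : StarTree n) : StarTree n where
  c := fun k => x.c (k - j)
  nonneg := fun k => x.nonneg _
  le_one := fun k => x.le_one _
  single := fun k l h => x.single _ _ (fun e => h (by
    have := congrArg (· + j) e
    simpa using this))

theorem dep_rot [NeZero n] (j : Fin n) (x : StarTree n) : dep (rot j x) = dep x := by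
  simp only [dep, rot]
  exact Fintype.sum_equiv (Equiv.subRight j) _ _ (fun k => rfl)

theorem sg_rot [NeZero n] (i j : Fin n) (x : StarTree n) : sg i (rot j x) = sg (i - j) x := by
  rw [sg, sg, dep_rot]
  rfl

theorem dist_rot [NeZero n] (j : Fin n) (x y : StarTree n) : dist (rot j x) (rot j y) = dist x y := by
  rw [dist_def, dist_def]
  exact Fintype.sum_equiv (Equiv.subRight j) _ _ (fun k => rfl)

theorem continuous_rot [NeZero n] (j : Fin n) : Continuous (rot j : StarTree n → StarTree n) :=
  (Isometry.of_dist_eq (dist_rot j)).continuous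

theorem rot_rot [NeZero n] (i j : Fin n) (x : StarTree n) : rot i (rot j x) = rot (i + j) x := by
  ext k
  simp only [rot]
  congr 1
  abel

theorem rot_zero [NeZero n] (x : StarTree n) : rot 0 x = x := by
  ext k
  simp [rot]

theorem rot_injective [NeZero n] (j : Fin n) : Function.Injective (rot j : StarTree n → StarTree n) := by
  intro x y h
  have := congrArg (rot (-j)) h
  simpa [rot_rot, rot_zero] using this

/-- rotation of a path -/
noncomputable def rotP [NeZero n] (j : Fin n) (p : C(ℝ≥0, StarTree n)) : C(ℝ≥0, StarTree n) :=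
  (ContinuousMap.mk (rot j) (continuous_rot j)).comp p

@[simp] theorem rotP_apply [NeZero n] (j : Fin n) (p : C(ℝ≥0, StarTree n)) (t : ℝ≥0) :
    rotP j p t = rot j (p t) := rfl

theorem continuous_rotP [NeZero n] (j : Fin n) :
    Continuous (rotP j : C(ℝ≥0, StarTree n) → C(ℝ≥0, StarTree n)) :=
  ContinuousMap.continuous_postcomp _

theorem rotP_rotP [NeZero n] (i j : Fin n) (p : C(ℝ≥0, StarTree n)) :
    rotP i (rotP j p) = rotP (i + j) p := by
  ext1 t
  simp [rot_rot]

theorem rotP_zero [NeZero n] (p : C(ℝ≥0, StarTree n)) : rotP 0 p = p := by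
  ext1 t
  simp [rot_zero]

/-! ### Scaling -/

/-- multiply the depth by `l`, clamped to `[0,1]` -/
noncomputable def scale (l : ℝ) (x : StarTree n) : StarTree n where
  c := fun k => max 0 (min 1 (l * x.c k))
  nonneg := fun k => le_max_left _ _
  le_one := fun k => max_le zero_le_one (min_le_left _ _)
  single := fun k m h => by
    rcases x.single k m h with h1 | h1
    · left
      rw [h1]
      simp
    · right
      rw [h1]
      simp

/-- a function into the star is continuous as soon as its coordinates are -/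
theorem continuous_iff_c {X : Type*} [TopologicalSpace X] {f : X → StarTree n} :
    Continuous f ↔ ∀ k, Continuous fun x => (f x).c k := by
  refine ⟨fun h k => (continuous_c k).comp h, fun h => ?_⟩
  rw [continuous_iff_continuousAt]
  intro x
  rw [ContinuousAt, tendsto_iff_dist_tendsto_zero]
  have : Filter.Tendsto (fun y => ∑ k, |(f y).c k - (f x).c k|) (nhds x)
      (nhds (∑ k : Fin n, |(f x).c k - (f x).c k|)) :=
    tendsto_finsetSum _ fun k _ => (((h k).sub continuous_const).abs).continuousAt
  simpa [dist_def] using this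

theorem continuous_scale : Continuous fun x : ℝ × StarTree n => scale x.1 x.2 := by
  rw [continuous_iff_c]
  intro k
  simp only [scale]
  exact continuous_const.max (continuous_const.min
    (continuous_fst.mul ((continuous_c k).comp continuous_snd)))

theorem scale_one (x : StarTree n) : scale 1 x = x := by
  ext k
  simp [scale, x.le_one k, x.nonneg k]

theorem sg_scale {i : Fin n} {x : StarTree n} (h : 0 ≤ sg i x) {l : ℝ} (hl : 0 ≤ l) :
    sg i (scale l x) = min 1 (l * sg i x) := by
  have h1 : scale l x = pt i (l * sg i x) := by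
    ext k
    simp only [scale, pt]
    rw [c_eq_of_sg_nonneg h k]
    split_ifs <;> simp
  rw [h1, sg_pt, max_eq_right]
  exact le_min zero_le_one (mul_nonneg hl h)

/-! ### Bridges (for the princess) -/

/-- the geodesic from `x` to `y`, at fraction `s` (clamped to `[0,1]`) -/
noncomputable def bridge (s : ℝ) (x y : StarTree n) : StarTree n where
  c := fun k => max 0 (max (x.c k - max 0 (min 1 s) * dist x y)
    (y.c k - (1 - max 0 (min 1 s)) * dist x y))
  nonneg := fun k => le_max_left _ _
  le_one := fun k => by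
    have h0 : 0 ≤ max 0 (min 1 s) := le_max_left _ _
    have h1 : max 0 (min 1 s) ≤ 1 := max_le zero_le_one (min_le_left _ _)
    have h2 : 0 ≤ dist x y := dist_nonneg
    have h3 := x.le_one k
    have h4 := y.le_one k
    refine max_le zero_le_one (max_le ?_ ?_)
    · nlinarith
    · nlinarith
  single := fun k l h => by
    have h0 : 0 ≤ max 0 (min 1 s) := le_max_left _ _
    have h1 : max 0 (min 1 s) ≤ 1 := max_le zero_le_one (min_le_left _ _)
    set u := max 0 (min 1 s) with hu
    have h2 : 0 ≤ dist x y := dist_nonneg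
    by_contra hcon
    push Not at hcon
    obtain ⟨hk, hl⟩ := hcon
    have hk' : 0 < max (x.c k - u * dist x y) (y.c k - (1 - u) * dist x y) := by
      by_contra hc
      push Not at hc
      exact hk (max_eq_left hc)
    have hl' : 0 < max (x.c l - u * dist x y) (y.c l - (1 - u) * dist x y) := by
      by_contra hc
      push Not at hc
      exact hl (max_eq_left hc)
    rw [lt_max_iff] at hk' hl'
    have hu0 : 0 ≤ u * dist x y := mul_nonneg h0 h2
    have hu1 : 0 ≤ (1 - u) * dist x y := mul_nonneg (by linarith) h2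
    have key : ∀ a b : Fin n, a ≠ b → 0 < x.c a - u * dist x y →
        0 < y.c b - (1 - u) * dist x y → False := by
      intro a b hab ha hb
      have ha' : 0 < x.c a := by linarith
      have hb' : 0 < y.c b := by linarith
      have := dist_eq_add hab (sg_pos_iff.2 ha') (sg_pos_iff.2 hb').le
      rw [dep_eq_of_pos ha', dep_eq_of_pos hb'] at this
      nlinarith
    rcases hk' with hk' | hk' <;> rcases hl' with hl' | hl'
    · rcases x.single k l h with h3 | h3 <;> linarith
    · exact key k l h hk' hl'
    · exact key l k h.symm hl' hk'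
    · rcases y.single k l h with h3 | h3 <;> linarith

theorem continuous_bridge : Continuous fun z : ℝ × StarTree n × StarTree n => bridge z.1 z.2.1 z.2.2 := by
  rw [continuous_iff_c]
  intro k
  simp only [bridge]
  have hs : Continuous fun z : ℝ × StarTree n × StarTree n => max 0 (min 1 z.1) :=
    continuous_const.max (continuous_const.min continuous_fst)
  have hx : Continuous fun z : ℝ × StarTree n × StarTree n => z.2.1 := continuous_snd.fst
  have hy : Continuous fun z : ℝ × StarTree n × StarTree n => z.2.2 := continuous_snd.snd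
  have hd : Continuous fun z : ℝ × StarTree n × StarTree n => dist z.2.1 z.2.2 := hx.dist hy
  exact continuous_const.max ((((continuous_c k).comp hx).sub (hs.mul hd)).max
    (((continuous_c k).comp hy).sub ((continuous_const.sub hs).mul hd)))

theorem bridge_of_le_zero {s : ℝ} (hs : s ≤ 0) (x y : StarTree n) : bridge s x y = x := by
  have h1 : max 0 (min 1 s) = 0 := max_eq_left ((min_le_right _ _).trans hs)
  ext k
  simp only [bridge, h1]
  rw [zero_mul, sub_zero, sub_zero, one_mul]
  have h2 := abs_c_sub_le k x y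
  rw [abs_le] at h2
  rw [max_eq_left (by linarith [h2.1] : y.c k - dist x y ≤ x.c k), max_eq_right (x.nonneg k)]

theorem bridge_of_one_le {s : ℝ} (hs : 1 ≤ s) (x y : StarTree n) : bridge s x y = y := by
  have h1 : max 0 (min 1 s) = 1 := by
    rw [min_eq_left hs]
    exact max_eq_right zero_le_one
  ext k
  simp only [bridge, h1]
  rw [sub_self, zero_mul, sub_zero, one_mul]
  have h2 := abs_c_sub_le k x y
  rw [abs_le] at h2
  rw [max_eq_right (by linarith [h2.2] : x.c k - dist x y ≤ y.c k), max_eq_right (y.nonneg k)]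

/-- between two points of leg `i` the bridge stays in leg `i`, above the lower of the two -/
theorem min_le_sg_bridge {i : Fin n} {x y : StarTree n} (hx : 0 ≤ sg i x) (hy : 0 ≤ sg i y) (s : ℝ) :
    min (sg i x) (sg i y) ≤ sg i (bridge s x y) := by
  have h0 : 0 ≤ max 0 (min 1 s) := le_max_left _ _
  have h1 : max 0 (min 1 s) ≤ 1 := max_le zero_le_one (min_le_left _ _)
  have hd := dist_eq_of_sg_nonneg hx hy
  have hval : ∀ k, (bridge s x y).c k = if k = i then
      max 0 (max (sg i x - max 0 (min 1 s) * dist x y)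
        (sg i y - (1 - max 0 (min 1 s)) * dist x y)) else 0 := by
    intro k
    simp only [bridge]
    rw [c_eq_of_sg_nonneg hx k, c_eq_of_sg_nonneg hy k]
    split_ifs with hk
    · rfl
    · apply max_eq_left
      have h2 : 0 ≤ dist x y := dist_nonneg
      refine max_le ?_ ?_
      · nlinarith
      · nlinarith
  set u := max 0 (min 1 s) with hu
  have hdep : dep (bridge s x y) = (bridge s x y).c i := by
    rw [dep, Finset.sum_eq_single i]
    · intro b _ hb
      rw [hval b, if_neg hb]
    · intro h
      exact absurd (Finset.mem_univ i) h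
  have hsg : sg i (bridge s x y) = (bridge s x y).c i := by
    rw [sg, hdep]
    ring
  rw [hsg, hval i, if_pos rfl, hd]
  rcases le_total (sg i x) (sg i y) with h | h
  · rw [min_eq_left h, abs_of_nonpos (by linarith)]
    refine le_trans ?_ (le_max_right _ _)
    refine le_trans ?_ (le_max_right _ _)
    nlinarith
  · rw [min_eq_right h, abs_of_nonneg (by linarith)]
    refine le_trans ?_ (le_max_right _ _)
    refine le_trans ?_ (le_max_left _ _)
    nlinarith

end StarTree

end Pool.Agent.PM8dcc
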