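import Pool.Agent.PM8dcc.Resident

/-!
Upper bound for the guarantee of a confluent strategy with few hovering paths.
-/

open MeasureTheory Set Filter
open scoped NNReal ENNReal Topology

namespace Pool.Agent.PM8dcc

open Pool.Agent.PM8dcc.StarTree

variable {n : ℕ}

/-- wait at the centre until time `N + 2`, then explore -/
noncomputable def waitExplore (N : ℝ≥0) (c : ℕ → Fin n) : C(ℝ≥0, StarTree n) :=
  mglue N (ContinuousMap.const _ o) (explore c)

theorem isMonsterPath_waitExplore (N : ℝ≥0) (c : ℕ → Fin n) :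
    IsMonsterPath (waitExplore N c) :=
  isMonsterPath_mglue N (isMonsterPath_const o) (isMonsterPath_explore c)

theorem captureTime_waitExplore_of_visit (N : ℝ≥0) (c : ℕ → Fin n) {p : C(ℝ≥0, StarTree n)}
    {t : ℝ≥0} (ht : t ≤ N) (h : p t = o) : captureTime (waitExplore N c) p ≤ N := by
  have h1 : waitExplore N c t = p t := by
    rw [waitExplore, mglue_of_le _ _ ht, h]
    rfl
  exact (captureTime_le_of_eq h1).trans (by exact_mod_cast ht)

theorem captureTime_waitExplore_of_leg (N : ℝ≥0) (c : ℕ → Fin n) {p : C(ℝ≥0, StarTree n)}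
    (k : ℕ) (h : 0 ≤ sg (c k) (p (N + 2 + 2 * k))) :
    captureTime (waitExplore N c) p ≤ (N + 2 + (2 * k + 1) : ℝ≥0) := by
  have h1 := captureTime_mglue_le N (ContinuousMap.const _ o) (explore c) p
  have h2 := captureTime_explore_le c k (shift (N + 2) p) h
  refine h1.trans ?_
  push_cast at h2 ⊢
  gcongr

theorem sum_token (N : ℝ≥0) [NeZero n] (i : Fin n) :
    ∑ r : Fin n, ((N + 2 + (2 * ((i + r : Fin n) : ℕ) + 1) : ℝ≥0) : ℝ≥0∞) =
      n * (N + 2 + n) := by
  have h1 : ∑ r : Fin n, ((N + 2 + (2 * ((i + r : Fin n) : ℕ) + 1) : ℝ≥0) : ℝ≥0∞) =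
      ∑ r : Fin n, ((N + 2 + (2 * ((r : Fin n) : ℕ) + 1) : ℝ≥0) : ℝ≥0∞) :=
    Fintype.sum_equiv (Equiv.addLeft i) _ _ (fun r => rfl)
  rw [h1, Fin.sum_univ_eq_sum_range (fun k => ((N + 2 + (2 * (k : ℕ) + 1) : ℝ≥0) : ℝ≥0∞)) n]
  have h2 : ∀ m : ℕ, ∑ k ∈ Finset.range m, ((N + 2 + (2 * (k : ℕ) + 1) : ℝ≥0) : ℝ≥0∞) =
      m * (N + 2 + m) := by
    intro m
    induction m with
    | zero => simp
    | succ m ih =>
      rw [Finset.sum_range_succ, ih]
      push_cast
      ring
  exact h2 n

/-- Upper bound for the guarantee of a confluent strategy. -/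
theorem token_bound [NeZero n] (π : Measure C(ℝ≥0, StarTree n)) [IsProbabilityMeasure π]
    {S : Set C(ℝ≥0, StarTree n)} (hS : ConfluentSet S) (hπ : ∀ᵐ p ∂π, p ∈ S) (N : ℝ≥0) :
    guarantee π ≤ (N + 2 + n) + (N + 4 * n + 4) * π (⋃ i, Hov i N) := by
  classical
  set H : Set C(ℝ≥0, StarTree n) := ⋃ i, Hov i N with hH
  have hHm : MeasurableSet H := MeasurableSet.iUnion fun i => measurableSet_Hov i N
  -- the trajectories of the tokens
  let Tok : Fin n → Set C(ℝ≥0, StarTree n) := fun i => {p | p ∈ S ∧ p ∈ Res i N ∧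
    ∃ t, t ≤ N ∧ sg i (p t) = 1}
  let x : Fin n → C(ℝ≥0, StarTree n) := fun i =>
    if h : (Tok i).Nonempty then h.some else ContinuousMap.const _ o
  have hx : ∀ i, ∀ p ∈ Tok i, ∀ r, N ≤ r → p r = x i r := by
    intro i p hp r hr
    have hne : (Tok i).Nonempty := ⟨p, hp⟩
    have hxi : x i ∈ Tok i := by
      have : x i = hne.some := dif_pos hne
      rw [this]
      exact hne.some_mem
    obtain ⟨hp1, hp2, s, hs, hs1⟩ := hp
    obtain ⟨hq1, hq2, t, ht, ht1⟩ := hxi
    exact tokens_coincide hS hp1 hq1 hp2 hq2 hs ht hs1 ht1 hr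
  choose L hL using fun y : StarTree n => exists_sg_nonneg y
  let c : Fin n → ℕ → Fin n := fun r k => L (x ((Fin.ofNat n k) - r) (N + 2 + 2 * k))
  choose c' hc' using fun r : Fin n =>
    exists_explore ((π.restrict H).map (shift (N + 2 + 2 * n + 2)))
  let m : Fin n → C(ℝ≥0, StarTree n) := fun r =>
    mglue (N + 2 + 2 * n) (waitExplore N (c r)) (explore (c' r))
  have hm : ∀ r, IsMonsterPath (m r) := fun r =>
    isMonsterPath_mglue _ (isMonsterPath_waitExplore N (c r)) (isMonsterPath_explore (c' r))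
  -- the hovering part
  have hhov : ∀ r, ∫⁻ p in H, captureTime (m r) p ∂π ≤ (N + 4 * n + 4) * π H := by
    intro r
    have h1 := hc' r
    have h4 : ((π.restrict H).map (shift (N + 2 + 2 * n + 2))) univ = π H := by
      rw [Measure.map_apply (measurable_shift _) MeasurableSet.univ, preimage_univ,
        Measure.restrict_apply_univ]
    rw [h4, lintegral_map (measurable_captureTime _) (measurable_shift _)] at h1
    calc ∫⁻ p in H, captureTime (m r) p ∂π
        ≤ ∫⁻ p in H, (((N + 2 + 2 * n + 2 : ℝ≥0) : ℝ≥0∞) +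
            captureTime (explore (c' r)) (shift (N + 2 + 2 * n + 2) p)) ∂π :=
          setLIntegral_mono' hHm fun p _ => captureTime_mglue_le _ _ _ p
      _ = ((N + 2 + 2 * n + 2 : ℝ≥0) : ℝ≥0∞) * π H +
            ∫⁻ p in H, captureTime (explore (c' r)) (shift (N + 2 + 2 * n + 2) p) ∂π := by
          rw [lintegral_add_left measurable_const, setLIntegral_const]
      _ ≤ ((N + 2 + 2 * n + 2 : ℝ≥0) : ℝ≥0∞) * π H + 2 * n * π H := by gcongr
      _ = (N + 4 * n + 4) * π H := by
          push_cast
          ring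
  -- the others
  have hpt : ∀ p ∈ S, p ∈ Hᶜ → ∑ r, captureTime (m r) p ≤ n * (N + 2 + n) := by
    intro p hpS hpH
    rcases visit_or_resident p N with ⟨t, ht, hto⟩ | ⟨i, hi⟩
    · calc ∑ r, captureTime (m r) p ≤ ∑ _r : Fin n, (N + 2 + n : ℝ≥0∞) := by
            refine Finset.sum_le_sum fun r _ => ?_
            have h1 := captureTime_waitExplore_of_visit N (c r) ht hto
            have h2 : captureTime (waitExplore N (c r)) p ≤ (N + 2 + 2 * n : ℝ≥0) := by
              refine h1.trans ?_
              push_cast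
              rw [add_assoc]
              exact le_self_add
            refine (captureTime_mglue_le_of_le h2).trans (h1.trans ?_)
            rw [add_assoc]
            exact le_self_add
        _ = _ := by rw [Finset.sum_const, Finset.card_univ, Fintype.card_fin, nsmul_eq_mul]
    · have hex : ∃ t, t ≤ N ∧ sg i (p t) = 1 := by
        by_contra hcon
        push Not at hcon
        refine hpH (mem_iUnion.2 ⟨i, fun t ht => ⟨hi t ht, ?_⟩⟩)
        exact lt_of_le_of_ne (sg_le_one i (p t)) (hcon t ht)
      have hT : p ∈ Tok i := ⟨hpS, hi, hex⟩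
      rw [← sum_token N i]
      refine Finset.sum_le_sum fun r _ => ?_
      have hleg : 0 ≤ sg (c r (i + r : Fin n).val) (p (N + 2 + 2 * ((i + r : Fin n).val : ℝ≥0))) := by
        have e1 : (Fin.ofNat n (i + r : Fin n).val) - r = i := by
          have : Fin.ofNat n (i + r : Fin n).val = i + r := by
            ext
            simp only [Fin.ofNat]
            exact Nat.mod_eq_of_lt (i + r).isLt
          rw [this]
          abel
        have e2 : p (N + 2 + 2 * ((i + r : Fin n).val : ℝ≥0)) =
            x i (N + 2 + 2 * ((i + r : Fin n).val : ℝ≥0)) := by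
          refine hx i p hT _ ?_
          rw [add_assoc]
          exact le_self_add
        rw [e2]
        simp only [c]
        rw [e1]
        exact hL _
      have h1 := captureTime_waitExplore_of_leg N (c r) (p := p) (i + r : Fin n).val hleg
      have h2 : captureTime (waitExplore N (c r)) p ≤ (N + 2 + 2 * n : ℝ≥0) := by
        refine h1.trans ?_
        rw [ENNReal.coe_le_coe]
        gcongr
        have h3 : 2 * (i + r : Fin n).val + 1 ≤ 2 * n := by
          have := (i + r : Fin n).isLt
          omega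
        exact_mod_cast h3
      exact (captureTime_mglue_le_of_le h2).trans h1
  -- averaging
  have hsum : (n : ℝ≥0∞) * guarantee π ≤ n * (N + 2 + n) + n * ((N + 4 * n + 4) * π H) := by
    calc (n : ℝ≥0∞) * guarantee π = ∑ _r : Fin n, guarantee π := by simp
      _ ≤ ∑ r : Fin n, ∫⁻ p, captureTime (m r) p ∂π :=
          Finset.sum_le_sum fun r _ => guarantee_le_of_path π (hm r)
      _ = ∑ r : Fin n, (∫⁻ p in Hᶜ, captureTime (m r) p ∂π +
            ∫⁻ p in H, captureTime (m r) p ∂π) := by
          refine Finset.sum_congr rfl fun r _ => ?_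
          rw [add_comm, lintegral_add_compl _ hHm]
      _ = ∫⁻ p in Hᶜ, ∑ r : Fin n, captureTime (m r) p ∂π +
            ∑ r : Fin n, ∫⁻ p in H, captureTime (m r) p ∂π := by
          rw [Finset.sum_add_distrib, lintegral_finsetSum]
          intro r _
          exact measurable_captureTime (m r)
      _ ≤ ∫⁻ _p in Hᶜ, (n * (N + 2 + n) : ℝ≥0∞) ∂π +
            ∑ _r : Fin n, (N + 4 * n + 4) * π H := by
          gcongr ?_ + ?_
          · refine lintegral_mono_ae ?_
            rw [ae_restrict_iff' hHm.compl]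
            filter_upwards [hπ] with p hpS hpH
            exact hpt p hpS hpH
          · exact Finset.sum_le_sum fun r _ => hhov r
      _ ≤ n * (N + 2 + n) + n * ((N + 4 * n + 4) * π H) := by
          gcongr ?_ + ?_
          · rw [setLIntegral_const]
            calc (n * (N + 2 + n) : ℝ≥0∞) * π Hᶜ ≤ (n * (N + 2 + n) : ℝ≥0∞) * 1 := by
                  gcongr
                  exact prob_le_one
              _ = _ := mul_one _
          · simp
  rw [← mul_add] at hsum
  have hn0 : (n : ℝ≥0∞) ≠ 0 := by exact_mod_cast NeZero.ne n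
  exact (ENNReal.mul_le_mul_iff_right hn0 (ENNReal.natCast_ne_top n)).1 hsum

end Pool.Agent.PM8dcc
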