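import Pool.Agent.PM8dcc.Explore

/-!
Facts on the guarantee: upper bound, replies, early capture is unlikely, truncation.
-/

open MeasureTheory Set Filter
open scoped NNReal ENNReal Topology

namespace Pool.Agent.PM8dcc

open Pool.Agent.PM8dcc.StarTree

variable {n : ℕ}

theorem guarantee_le_of_path {T : Type} [MetricSpace T] (π : Measure C(ℝ≥0, T)) {m : C(ℝ≥0, T)}
    (hm : IsMonsterPath m) : guarantee π ≤ ∫⁻ p, captureTime m p ∂π :=
  iInf₂_le m hm

theorem guarantee_le_two_mul [NeZero n] (π : Measure C(ℝ≥0, StarTree n)) [IsProbabilityMeasure π] :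
    guarantee π ≤ 2 * n := by
  obtain ⟨c, hc⟩ := exists_explore π
  rw [measure_univ, mul_one] at hc
  exact (guarantee_le_of_path π (isMonsterPath_explore c)).trans hc

/-- almost optimal replies to finite measures -/
theorem exists_reply {v : ℝ≥0∞}
    (hopt : ∀ π' : Measure C(ℝ≥0, StarTree n), IsProbabilityMeasure π' → guarantee π' ≤ v)
    (μ : Measure C(ℝ≥0, StarTree n)) [IsFiniteMeasure μ] {w : ℝ≥0∞} (hw : v < w) :
    ∃ m : C(ℝ≥0, StarTree n), IsMonsterPath m ∧ ∫⁻ p, captureTime m p ∂μ ≤ w * μ univ := by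
  by_cases h0 : μ univ = 0
  · refine ⟨ContinuousMap.const _ o, isMonsterPath_const o, ?_⟩
    rw [Measure.measure_univ_eq_zero.1 h0]
    simp
  · have hfin : μ univ ≠ ∞ := measure_ne_top μ univ
    have hprob : IsProbabilityMeasure ((μ univ)⁻¹ • μ) := by
      refine ⟨?_⟩
      rw [Measure.smul_apply, smul_eq_mul]
      exact ENNReal.inv_mul_cancel h0 hfin
    have h1 := (hopt _ hprob).trans_lt hw
    rw [guarantee] at h1
    simp only [iInf_lt_iff] at h1
    obtain ⟨m, hm, h2⟩ := h1
    refine ⟨m, hm, ?_⟩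
    rw [lintegral_smul_measure, smul_eq_mul] at h2
    calc ∫⁻ p, captureTime m p ∂μ
        = μ univ * ((μ univ)⁻¹ * ∫⁻ p, captureTime m p ∂μ) := by
          rw [← mul_assoc, ENNReal.mul_inv_cancel h0 hfin, one_mul]
      _ ≤ μ univ * w := by gcongr
      _ = w * μ univ := mul_comm _ _

theorem measurableSet_captureTime_le {T : Type} [MetricSpace T] (m : C(ℝ≥0, T)) (L : ℝ≥0∞) :
    MeasurableSet {p : C(ℝ≥0, T) | captureTime m p ≤ L} :=
  measurableSet_le (measurable_captureTime m) measurable_const

/-- Splitting the cost of the path `mglue L m m₂` at time `L`. -/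
theorem guarantee_le_mglue (π : Measure C(ℝ≥0, StarTree n)) [IsProbabilityMeasure π] {m m₂ : C(ℝ≥0, StarTree n)}
    (hm : IsMonsterPath m) (hm₂ : IsMonsterPath m₂) (L : ℝ≥0) :
    guarantee π ≤ ∫⁻ p in {p | captureTime m p ≤ L}, captureTime m p ∂π +
      ((L + 2) * π {p | captureTime m p ≤ L}ᶜ +
        ∫⁻ p, captureTime m₂ p ∂((π.restrict {p | captureTime m p ≤ L}ᶜ).map (shift (L + 2)))) := by
  set A := {p | captureTime m p ≤ L} with hA
  have hAm : MeasurableSet A := measurableSet_captureTime_le m L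
  calc guarantee π ≤ ∫⁻ p, captureTime (mglue L m m₂) p ∂π :=
        guarantee_le_of_path π (isMonsterPath_mglue L hm hm₂)
    _ = ∫⁻ p in A, captureTime (mglue L m m₂) p ∂π +
        ∫⁻ p in Aᶜ, captureTime (mglue L m m₂) p ∂π := (lintegral_add_compl _ hAm).symm
    _ ≤ ∫⁻ p in A, captureTime m p ∂π +
        ∫⁻ p in Aᶜ, ((L + 2 : ℝ≥0∞) + captureTime m₂ (shift (L + 2) p)) ∂π := by
        gcongr ?_ + ?_
        · exact setLIntegral_mono' hAm fun p hp => captureTime_mglue_le_of_le hp
        · refine setLIntegral_mono' hAm.compl fun p _ => ?_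
          have := captureTime_mglue_le L m m₂ p
          push_cast at this
          exact this
    _ = _ := by
        congr 1
        rw [lintegral_add_left measurable_const, setLIntegral_const,
          lintegral_map (measurable_captureTime m₂) (measurable_shift (L + 2))]

/-- Against an optimal strategy, early capture is unlikely. -/
theorem early_capture (π : Measure C(ℝ≥0, StarTree n)) [IsProbabilityMeasure π] [NeZero n]
    (hopt : ∀ π' : Measure C(ℝ≥0, StarTree n), IsProbabilityMeasure π' →
      guarantee π' ≤ guarantee π) {m : C(ℝ≥0, StarTree n)} (hm : IsMonsterPath m) (L : ℝ≥0) :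
    guarantee π * π {p | captureTime m p ≤ L} ≤ L + 2 := by
  set A := {p | captureTime m p ≤ L} with hA
  have hAm : MeasurableSet A := measurableSet_captureTime_le m L
  set v := guarantee π with hv
  have hvfin : v ≠ ∞ := ((guarantee_le_two_mul π).trans_lt (by
    exact ENNReal.mul_lt_top ENNReal.ofNat_lt_top (ENNReal.natCast_lt_top n))).ne
  have hsum : π A + π Aᶜ = 1 := by rw [measure_add_measure_compl hAm, measure_univ]
  have h1 : v ≤ (L + 2) + v * π Aᶜ := by
    refine ENNReal.le_of_forall_pos_le_add fun ε hε _ => ?_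
    have hε' : (0 : ℝ≥0∞) < ε := by exact_mod_cast hε
    obtain ⟨m₂, hm₂, h2⟩ := exists_reply hopt ((π.restrict Aᶜ).map (shift (L + 2)))
      (w := v + ε) (ENNReal.lt_add_right hvfin hε'.ne')
    have h3 := guarantee_le_mglue π hm hm₂ L
    rw [← hA, ← hv] at h3
    have h4 : ((π.restrict Aᶜ).map (shift (L + 2))) univ = π Aᶜ := by
      rw [Measure.map_apply (measurable_shift _) MeasurableSet.univ, preimage_univ,
        Measure.restrict_apply_univ]
    rw [h4] at h2
    have h5 : ∫⁻ p in A, captureTime m p ∂π ≤ (L + 2) * π A := by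
      calc ∫⁻ p in A, captureTime m p ∂π ≤ ∫⁻ _ in A, (L + 2 : ℝ≥0∞) ∂π :=
            setLIntegral_mono' hAm fun p hp => (show captureTime m p ≤ L from hp).trans le_self_add
        _ = (L + 2) * π A := by rw [setLIntegral_const]
    calc v ≤ (L + 2) * π A + ((L + 2) * π Aᶜ + (v + ε) * π Aᶜ) := by
          refine h3.trans ?_
          gcongr
      _ = (L + 2) * (π A + π Aᶜ) + v * π Aᶜ + ε * π Aᶜ := by ring
      _ ≤ (L + 2) * 1 + v * π Aᶜ + ε * 1 := by
          rw [hsum]
          gcongr
          exact prob_le_one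
      _ = _ := by ring
  have h6 : v * π A + v * π Aᶜ ≤ (L + 2) + v * π Aᶜ := by
    rw [← mul_add, hsum, mul_one]
    exact h1
  exact (ENNReal.add_le_add_iff_right (ENNReal.mul_ne_top hvfin (measure_ne_top π _))).1 h6

/-- The truncated mean capture time is almost as large as the guarantee. -/
theorem truncation (π : Measure C(ℝ≥0, StarTree n)) [IsProbabilityMeasure π] [NeZero n]
    {m : C(ℝ≥0, StarTree n)} (hm : IsMonsterPath m) (K : ℝ≥0) :
    guarantee π * K ≤ (K + (2 * n + 2)) * ∫⁻ p, min (captureTime m p) K ∂π := by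
  set A := {p | captureTime m p ≤ K} with hA
  have hAm : MeasurableSet A := measurableSet_captureTime_le m K
  set v := guarantee π with hv
  set I := ∫⁻ p, min (captureTime m p) K ∂π with hI
  have hIsplit : I = ∫⁻ p in A, captureTime m p ∂π + K * π Aᶜ := by
    rw [hI, ← lintegral_add_compl _ hAm]
    congr 1
    · exact setLIntegral_congr_fun hAm fun p hp => min_eq_left hp
    · rw [← setLIntegral_const]
      refine setLIntegral_congr_fun hAm.compl fun p hp => min_eq_right ?_
      have : ¬ captureTime m p ≤ K := hp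
      exact (not_le.1 this).le
  obtain ⟨c, hc⟩ := exists_explore ((π.restrict Aᶜ).map (shift (K + 2)))
  have h4 : ((π.restrict Aᶜ).map (shift (K + 2))) univ = π Aᶜ := by
    rw [Measure.map_apply (measurable_shift _) MeasurableSet.univ, preimage_univ,
      Measure.restrict_apply_univ]
  rw [h4] at hc
  have h3 := guarantee_le_mglue π hm (isMonsterPath_explore c) K
  rw [← hA, ← hv] at h3
  have h5 : v ≤ I + (2 * n + 2) * π Aᶜ := by
    calc v ≤ ∫⁻ p in A, captureTime m p ∂π + ((K + 2) * π Aᶜ + 2 * n * π Aᶜ) := by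
          refine h3.trans ?_
          gcongr
      _ = ∫⁻ p in A, captureTime m p ∂π + K * π Aᶜ + (2 * n + 2) * π Aᶜ := by ring
      _ = _ := by rw [hIsplit]
  have h6 : K * π Aᶜ ≤ I := by
    rw [hIsplit]
    exact le_add_self
  calc v * K ≤ (I + (2 * n + 2) * π Aᶜ) * K := by gcongr
    _ = I * K + (2 * n + 2) * (K * π Aᶜ) := by ring
    _ ≤ I * K + (2 * n + 2) * I := by gcongr
    _ = _ := by ring

end Pool.Agent.PM8dcc
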